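import Mathlib

set_option autoImplicit false

open Matrix Set Module

namespace Pool.Agent.W675.TTO

/-! ### From the compressed shift to a commutator identity -/

section comm

variable {I : Type*} [Fintype I] [DecidableEq I]

lemma vmv_mul (A : Matrix I I ℂ) (x y : I → ℂ) :
    A * vecMulVec x (star y) = vecMulVec (A *ᵥ x) (star y) := by
  ext i j
  simp only [Matrix.mul_apply, vecMulVec_apply, mulVec, dotProduct, Finset.sum_mul, mul_assoc]

lemma mul_vmv (A : Matrix I I ℂ) (x y : I → ℂ) :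
    vecMulVec x (star y) * A = vecMulVec x (star (Aᴴ *ᵥ y)) := by
  ext i j
  simp only [Matrix.mul_apply, vecMulVec_apply, mulVec, dotProduct, Pi.star_apply, star_sum,
    star_mul', Matrix.conjTranspose_apply, star_star, Finset.mul_sum]
  refine Finset.sum_congr rfl fun k _ => ?_
  ring

lemma vmv_mulVec (x y z : I → ℂ) : vecMulVec x (star y) *ᵥ z = (star y ⬝ᵥ z) • x := by
  ext i
  simp only [mulVec, dotProduct, vecMulVec_apply, Pi.smul_apply, smul_eq_mul, Finset.sum_mul]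
  refine Finset.sum_congr rfl fun k _ => ?_
  ring

/-- Cayley transform of the compressed shift. -/
theorem comm_of_shift (M T : Matrix I I ℂ) (k u v : I → ℂ)
    (h1 : 1 - T * Tᴴ = vecMulVec k (star k))
    (h2 : ∀ μ : ℂ, ∀ x : I → ℂ, x ≠ 0 → T *ᵥ x = μ • x → ‖μ‖ < 1)
    (h3 : M - T * M * Tᴴ = vecMulVec u (star k) + vecMulVec k (star v)) :
    ∃ (H : Matrix I I ℂ) (k' u' v' : I → ℂ), H.IsHermitian ∧
      H * M - M * H = vecMulVec u' (star k') + vecMulVec k' (star v') ∧
      ∀ x : I → ℂ, x ≠ 0 → ∀ l : ℝ, H *ᵥ x = (l : ℂ) • x → star k' ⬝ᵥ x ≠ 0 := by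
  have hdet : (1 - T).det ≠ 0 := by
    intro h
    obtain ⟨x, hx, hx0⟩ := Matrix.exists_mulVec_eq_zero_iff.2 h
    rw [Matrix.sub_mulVec, Matrix.one_mulVec, sub_eq_zero] at hx0
    have := h2 1 x hx (by rw [one_smul]; exact hx0.symm)
    simp at this
  set Q : Matrix I I ℂ := (1 - T)⁻¹ with hQ
  have hQ1 : (1 - T) * Q = 1 := Matrix.mul_nonsing_inv _ (isUnit_iff_ne_zero.2 hdet)
  have hQ2 : Q * (1 - T) = 1 := Matrix.nonsing_inv_mul _ (isUnit_iff_ne_zero.2 hdet)
  have hQ3 : Qᴴ * (1 - Tᴴ) = 1 := by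
    have := congrArg Matrix.conjTranspose hQ1
    simpa [Matrix.conjTranspose_mul] using this
  have hQ4 : (1 - Tᴴ) * Qᴴ = 1 := by
    have := congrArg Matrix.conjTranspose hQ2
    simpa [Matrix.conjTranspose_mul] using this
  -- `Q T = Q - 1` and so on
  have e1 : Q * T = Q - 1 := by
    rw [Matrix.mul_sub, Matrix.mul_one] at hQ2
    rw [← hQ2]; abel
  have e2 : Tᴴ * Qᴴ = Qᴴ - 1 := by
    rw [Matrix.sub_mul, Matrix.one_mul] at hQ4
    rw [← hQ4]; abel
  -- the defect
  have hK : Q * vecMulVec k (star k) * Qᴴ = Q + Qᴴ - 1 := by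
    rw [← h1, Matrix.mul_sub, Matrix.sub_mul, Matrix.mul_one]
    have : Q * (T * Tᴴ) * Qᴴ = (Q * T) * (Tᴴ * Qᴴ) := by simp only [Matrix.mul_assoc]
    rw [this, e1, e2]
    noncomm_ring
  have hR : Q * (vecMulVec u (star k) + vecMulVec k (star v)) * Qᴴ = M * Qᴴ + Q * M - M := by
    rw [← h3, Matrix.mul_sub, Matrix.sub_mul]
    have : Q * (T * M * Tᴴ) * Qᴴ = (Q * T) * M * (Tᴴ * Qᴴ) := by simp only [Matrix.mul_assoc]
    rw [this, e1, e2]
    noncomm_ring
  set k' := Q *ᵥ k with hk'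
  have hK' : vecMulVec k' (star k') = Q + Qᴴ - 1 := by
    rw [← hK, vmv_mul, mul_vmv, Matrix.conjTranspose_conjTranspose]
  have hR' : vecMulVec (Q *ᵥ u) (star k') + vecMulVec k' (star (Q *ᵥ v)) =
      M * Qᴴ + Q * M - M := by
    rw [← hR, Matrix.mul_add, Matrix.add_mul, vmv_mul, mul_vmv, vmv_mul, mul_vmv,
      Matrix.conjTranspose_conjTranspose]
  refine ⟨Complex.I • (Q - Qᴴ), k', (2 * Complex.I) • (Q *ᵥ u) - Complex.I • (M *ᵥ k'),
    (-(2 * Complex.I)) • (Q *ᵥ v) + Complex.I • (Mᴴ *ᵥ k'), ?_, ?_, ?_⟩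
  · unfold Matrix.IsHermitian
    rw [Matrix.conjTranspose_smul, Matrix.conjTranspose_sub, Matrix.conjTranspose_conjTranspose]
    simp only [Complex.star_def, Complex.conj_I, neg_smul]
    rw [← smul_neg, neg_sub]
  · have a1 : vecMulVec ((2 * Complex.I) • (Q *ᵥ u) - Complex.I • (M *ᵥ k')) (star k') =
        (2 * Complex.I) • vecMulVec (Q *ᵥ u) (star k') -
          Complex.I • (M * vecMulVec k' (star k')) := by
      rw [vmv_mul]
      ext i j
      simp only [vecMulVec_apply, Matrix.sub_apply, Matrix.smul_apply, Pi.sub_apply, Pi.smul_apply,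
        smul_eq_mul]
      ring
    have a2 : vecMulVec k' (star ((-(2 * Complex.I)) • (Q *ᵥ v) + Complex.I • (Mᴴ *ᵥ k'))) =
        (2 * Complex.I) • vecMulVec k' (star (Q *ᵥ v)) -
          Complex.I • (vecMulVec k' (star k') * M) := by
      rw [mul_vmv]
      ext i j
      simp only [vecMulVec_apply, Matrix.sub_apply, Matrix.smul_apply, Pi.add_apply, Pi.smul_apply,
        smul_eq_mul, star_add, star_smul, Pi.star_apply, star_neg, star_mul', Complex.star_def,
        Complex.conj_I, map_neg, map_mul, Complex.conj_ofNat]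
      ring
    rw [a1, a2, hK']
    have a3 : (2 * Complex.I) • vecMulVec (Q *ᵥ u) (star k') - Complex.I • (M * (Q + Qᴴ - 1)) +
        ((2 * Complex.I) • vecMulVec k' (star (Q *ᵥ v)) - Complex.I • ((Q + Qᴴ - 1) * M)) =
        (2 * Complex.I) • (vecMulVec (Q *ᵥ u) (star k') + vecMulVec k' (star (Q *ᵥ v))) -
          Complex.I • (M * (Q + Qᴴ - 1) + (Q + Qᴴ - 1) * M) := by
      rw [smul_add, smul_add]; abel
    rw [a3, hR']
    have a4 : Complex.I • (Q - Qᴴ) * M - M * Complex.I • (Q - Qᴴ) =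
        Complex.I • ((Q - Qᴴ) * M - M * (Q - Qᴴ)) := by
      rw [Matrix.smul_mul, Matrix.mul_smul, smul_sub]
    rw [a4, mul_smul, smul_comm (2:ℂ) Complex.I, ← smul_sub]
    congr 1
    rw [two_smul]
    noncomm_ring
  · intro x hx l hl hkx
    have b1 : (Q + Qᴴ - 1) *ᵥ x = 0 := by
      rw [← hK', vmv_mulVec, hkx, zero_smul]
    rw [Matrix.sub_mulVec, Matrix.add_mulVec, Matrix.one_mulVec] at b1
    have b2 : Qᴴ *ᵥ x = x - Q *ᵥ x := by
      rw [eq_sub_iff_add_eq, add_comm]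
      exact sub_eq_zero.1 b1
    rw [Matrix.smul_mulVec, Matrix.sub_mulVec, b2] at hl
    set μ : ℂ := (1 - Complex.I * l) / 2 with hμ
    have b3 : Q *ᵥ x = μ • x := by
      have b4 : (2:ℂ) • (Q *ᵥ x) = x + (-(Complex.I * l)) • x := by
        have b5 := congrArg (fun z => (-Complex.I) • z) hl
        simp only [smul_smul] at b5
        have b6 : -Complex.I * Complex.I = 1 := by rw [neg_mul, Complex.I_mul_I, neg_neg]
        rw [b6, one_smul] at b5
        rw [two_smul]
        have b7 : Q *ᵥ x + Q *ᵥ x = x + (Q *ᵥ x - (x - Q *ᵥ x)) := by abel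
        rw [b7, b5, neg_mul]
      have b8 : Q *ᵥ x = (1 / 2 : ℂ) • ((2:ℂ) • (Q *ᵥ x)) := by
        rw [smul_smul]; norm_num
      rw [b8, b4, smul_add, smul_smul, ← add_smul, hμ]
      congr 1
      ring
    have hμ0 : μ ≠ 0 := by
      intro h
      have := congrArg Complex.re h
      rw [hμ] at this
      simp at this
    have b4 : T *ᵥ x = (1 - 1 / μ) • x := by
      have b5 : x = μ • ((1 - T) *ᵥ x) := by
        rw [← Matrix.mulVec_smul, ← b3, Matrix.mulVec_mulVec, hQ1, Matrix.one_mulVec]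
      rw [Matrix.sub_mulVec, Matrix.one_mulVec, smul_sub] at b5
      have b6 : μ • (T *ᵥ x) = μ • x - x := by
        rw [eq_sub_iff_add_eq]
        nth_rewrite 2 [b5]
        abel
      have b7 : T *ᵥ x = (1 / μ) • (μ • (T *ᵥ x)) := by
        rw [smul_smul, one_div_mul_cancel hμ0, one_smul]
      rw [b7, b6, smul_sub, smul_smul, one_div_mul_cancel hμ0, one_smul, sub_smul, one_smul]
    have b5 := h2 _ x hx b4
    have b6 : (1 - 1 / μ) = (μ - 1) / μ := by field_simp
    rw [b6, norm_div] at b5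
    have b7 : ‖μ - 1‖ = ‖μ‖ := by
      rw [← Complex.norm_conj μ, ← norm_neg]
      congr 1
      rw [hμ]
      simp only [map_div₀, map_sub, map_one, map_mul, Complex.conj_I, Complex.conj_ofReal,
        Complex.conj_ofNat]
      ring
    rw [b7, div_self (norm_ne_zero_iff.2 hμ0)] at b5
    exact lt_irrefl _ b5

end comm

end Pool.Agent.W675.TTO
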