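import Mathlib
import Pool.Agent.W675.TTOa

set_option autoImplicit false

open Matrix Set Module

namespace Pool.Agent.W675.TTO

/-! ### The spectral form -/

section spec

variable {n : ℕ}

/-- the matrix with given divided data -/
noncomputable def NN (l : Fin n → ℝ) (a κ b d : Fin n → ℂ) : Matrix (Fin n) (Fin n) ℂ :=
  Matrix.of fun i j => if i = j then d i else
    (a i * star (κ j) + κ i * star (b j)) * (((l i - l j)⁻¹ : ℝ) : ℂ)

theorem spectral_form (M H : Matrix (Fin n) (Fin n) ℂ) (k' u' v' : Fin n → ℂ)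
    (hH : H.IsHermitian)
    (h1 : H * M - M * H = vecMulVec u' (star k') + vecMulVec k' (star v'))
    (h2 : ∀ x : Fin n → ℂ, x ≠ 0 → ∀ l : ℝ, H *ᵥ x = (l : ℂ) • x → star k' ⬝ᵥ x ≠ 0) :
    ∃ (U : Matrix (Fin n) (Fin n) ℂ) (l : Fin n → ℝ) (a κ b d : Fin n → ℂ),
      U * Uᴴ = 1 ∧ Uᴴ * U = 1 ∧ Function.Injective l ∧ Uᴴ * M * U = NN l a κ b d := by
  set U : Matrix (Fin n) (Fin n) ℂ := (hH.eigenvectorUnitary : Matrix (Fin n) (Fin n) ℂ) with hU
  have hU1 : U * Uᴴ = 1 := Unitary.mul_star_self_of_mem hH.eigenvectorUnitary.2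
  have hU2 : Uᴴ * U = 1 := Unitary.star_mul_self_of_mem hH.eigenvectorUnitary.2
  set l := hH.eigenvalues with hl
  have hspec : Uᴴ * H * U = Matrix.diagonal (fun i => (l i : ℂ)) := by
    have h3 := hH.spectral_theorem
    have h4 : H = U * Matrix.diagonal (fun i => (l i : ℂ)) * Uᴴ := h3
    calc Uᴴ * H * U = Uᴴ * (U * Matrix.diagonal (fun i => (l i : ℂ)) * Uᴴ) * U := by rw [← h4]
      _ = (Uᴴ * U) * Matrix.diagonal (fun i => (l i : ℂ)) * (Uᴴ * U) := by
          simp only [Matrix.mul_assoc]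
      _ = _ := by rw [hU2, Matrix.one_mul, Matrix.mul_one]
  have hHU : H * U = U * Matrix.diagonal (fun i => (l i : ℂ)) := by
    rw [← hspec]
    calc H * U = (U * Uᴴ) * H * U := by rw [hU1, Matrix.one_mul]
      _ = _ := by simp only [Matrix.mul_assoc]
  set κ : Fin n → ℂ := Uᴴ *ᵥ k' with hκ
  have hinj : Function.Injective l := by
    -- an eigenvector of the diagonal matrix orthogonal to `κ`
    have key : ∀ (x : Fin n → ℂ) (t : ℝ), x ≠ 0 → (∀ i, (l i : ℂ) * x i = t * x i) →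
        star κ ⬝ᵥ x ≠ 0 := by
      intro x t hx hxt hdot
      have hUx : U *ᵥ x ≠ 0 := by
        intro h
        apply hx
        have := congrArg (fun z => Uᴴ *ᵥ z) h
        simpa [Matrix.mulVec_mulVec, hU2] using this
      apply h2 (U *ᵥ x) hUx t
      · rw [Matrix.mulVec_mulVec, hHU, ← Matrix.mulVec_mulVec]
        rw [← Matrix.mulVec_smul]
        congr 1
        funext i
        rw [Matrix.mulVec_diagonal, hxt, Pi.smul_apply, smul_eq_mul]
      · rw [Matrix.dotProduct_mulVec, ← hdot, hκ, Matrix.star_mulVec,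
          Matrix.conjTranspose_conjTranspose]
    have hκ0 : ∀ i, κ i ≠ 0 := by
      intro i h
      apply key (Pi.single i 1) (l i)
      · intro h'
        have := congrFun h' i
        simp at this
      · intro j
        by_cases hij : j = i
        · subst hij; simp
        · simp [Pi.single_apply, hij]
      · simp [h]
    intro i j hij
    by_contra hne
    apply key (Pi.single i (star (κ j)) - Pi.single j (star (κ i))) (l i)
    · intro h'
      have := congrFun h' i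
      simp [Pi.single_apply, hne] at this
      exact hκ0 j this
    · intro m
      by_cases h1 : m = i
      · subst h1; rfl
      · by_cases h2 : m = j
        · subst h2; rw [hij]
        · simp [Pi.single_apply, h1, h2]
    · rw [dotProduct_sub]
      simp
      ring
  refine ⟨U, l, Uᴴ *ᵥ u', κ, Uᴴ *ᵥ v', fun i => (Uᴴ * M * U) i i, hU1, hU2, hinj, ?_⟩
  have hcomm : Matrix.diagonal (fun i => (l i : ℂ)) * (Uᴴ * M * U) -
      (Uᴴ * M * U) * Matrix.diagonal (fun i => (l i : ℂ)) =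
      vecMulVec (Uᴴ *ᵥ u') (star κ) + vecMulVec κ (star (Uᴴ *ᵥ v')) := by
    have e1 : Uᴴ * (H * M - M * H) * U = Matrix.diagonal (fun i => (l i : ℂ)) * (Uᴴ * M * U) -
      (Uᴴ * M * U) * Matrix.diagonal (fun i => (l i : ℂ)) := by
      rw [← hspec]
      calc Uᴴ * (H * M - M * H) * U = Uᴴ * H * M * U - Uᴴ * M * H * U := by noncomm_ring
        _ = Uᴴ * H * (U * Uᴴ) * M * U - Uᴴ * M * (U * Uᴴ) * H * U := by
            rw [hU1, Matrix.mul_one, Matrix.mul_one]
        _ = _ := by simp only [Matrix.mul_assoc]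
    rw [← e1, h1, Matrix.mul_add, Matrix.add_mul, vmv_mul, mul_vmv, vmv_mul, mul_vmv]
  ext i j
  unfold NN
  rw [Matrix.of_apply]
  by_cases hij : i = j
  · subst hij; rw [if_pos rfl]
  · rw [if_neg hij]
    have h3 := congrFun (congrFun hcomm i) j
    rw [Matrix.sub_apply, Matrix.diagonal_mul, Matrix.mul_diagonal, Matrix.add_apply,
      vecMulVec_apply, vecMulVec_apply, Pi.star_apply, Pi.star_apply] at h3
    rw [← h3]
    have hne : (l i : ℂ) - l j ≠ 0 := by
      rw [sub_ne_zero]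
      intro h
      exact hij (hinj (by exact_mod_cast h))
    push_cast
    rw [eq_mul_inv_iff_mul_eq₀ hne]
    ring

end spec

/-! ### Unitary invariants -/

section inv

variable {I : Type*} [Fintype I] [DecidableEq I]

/-- trace of `p(Re X) (Im X) q(Re X) (Im X)` -/
noncomputable def inv (p q : Polynomial ℂ) (X : Matrix I I ℂ) : ℝ :=
  (Matrix.trace (Polynomial.aeval ((1 / 2 : ℂ) • (X + Xᴴ)) p *
        ((1 / (2 * Complex.I) : ℂ) • (X - Xᴴ)) *
        Polynomial.aeval ((1 / 2 : ℂ) • (X + Xᴴ)) q *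
        ((1 / (2 * Complex.I) : ℂ) • (X - Xᴴ)))).re

lemma aeval_conj (U : Matrix I I ℂ) (h1 : U * Uᴴ = 1) (h2 : Uᴴ * U = 1) (R : Matrix I I ℂ)
    (p : Polynomial ℂ) : Polynomial.aeval (Uᴴ * R * U) p = Uᴴ * Polynomial.aeval R p * U := by
  have hpow : ∀ k : ℕ, (Uᴴ * R * U) ^ k = Uᴴ * R ^ k * U := by
    intro k
    induction k with
    | zero => simp [h2]
    | succ k ih =>
      rw [pow_succ, ih, pow_succ]
      calc Uᴴ * R ^ k * U * (Uᴴ * R * U) = Uᴴ * R ^ k * (U * Uᴴ) * R * U := by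
            simp only [Matrix.mul_assoc]
        _ = Uᴴ * (R ^ k * R) * U := by rw [h1]; simp only [Matrix.mul_assoc, Matrix.one_mul]
  induction p using Polynomial.induction_on' with
  | add p q hp hq => simp only [map_add, hp, hq, Matrix.mul_add, Matrix.add_mul]
  | monomial k a =>
    simp only [Polynomial.aeval_monomial, Algebra.algebraMap_eq_smul_one, smul_mul_assoc, one_mul,
      hpow, Matrix.mul_smul, Matrix.smul_mul]

lemma inv_conj (p q : Polynomial ℂ) (X U : Matrix I I ℂ) (h1 : U * Uᴴ = 1) (h2 : Uᴴ * U = 1) :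
    inv p q (Uᴴ * X * U) = inv p q X := by
  have e0 : (Uᴴ * X * U)ᴴ = Uᴴ * Xᴴ * U := by
    simp [Matrix.conjTranspose_mul, Matrix.mul_assoc]
  have e1 : (1 / 2 : ℂ) • (Uᴴ * X * U + (Uᴴ * X * U)ᴴ) = Uᴴ * ((1 / 2 : ℂ) • (X + Xᴴ)) * U := by
    rw [e0]
    simp only [Matrix.mul_smul, Matrix.smul_mul, Matrix.mul_add, Matrix.add_mul]
  have e2 : (1 / (2 * Complex.I) : ℂ) • (Uᴴ * X * U - (Uᴴ * X * U)ᴴ) =
      Uᴴ * ((1 / (2 * Complex.I) : ℂ) • (X - Xᴴ)) * U := by
    rw [e0]
    simp only [Matrix.mul_smul, Matrix.smul_mul, Matrix.mul_sub, Matrix.sub_mul]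
  unfold inv
  rw [e1, e2, aeval_conj U h1 h2, aeval_conj U h1 h2]
  set P := Polynomial.aeval ((1 / 2 : ℂ) • (X + Xᴴ)) p
  set Q := Polynomial.aeval ((1 / 2 : ℂ) • (X + Xᴴ)) q
  set Y := (1 / (2 * Complex.I) : ℂ) • (X - Xᴴ)
  have : Uᴴ * P * U * (Uᴴ * Y * U) * (Uᴴ * Q * U) * (Uᴴ * Y * U) = Uᴴ * (P * Y * Q * Y) * U := by
    calc Uᴴ * P * U * (Uᴴ * Y * U) * (Uᴴ * Q * U) * (Uᴴ * Y * U)
        = Uᴴ * P * (U * Uᴴ) * Y * (U * Uᴴ) * Q * (U * Uᴴ) * Y * U := by
          simp only [Matrix.mul_assoc]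
      _ = _ := by rw [h1]; simp only [Matrix.mul_assoc, Matrix.one_mul]
  rw [this, Matrix.trace_mul_comm, ← Matrix.mul_assoc, h1, Matrix.one_mul]

end inv

/-! ### Smoothness -/

section CD

variable {E : Type*} [NormedAddCommGroup E] [NormedSpace ℝ E] {I J K : Type*}

def CDa (e : E) (M : E → Matrix I J ℂ) : Prop := ∀ x y, ContDiffAt ℝ 1 (fun θ => M θ x y) e

variable {e : E}

lemma CDa.const (A : Matrix I J ℂ) : CDa e (fun _ : E => A) := fun _ _ => contDiffAt_const

lemma CDa.add {M N : E → Matrix I J ℂ} (hM : CDa e M) (hN : CDa e N) :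
    CDa e (fun θ => M θ + N θ) :=
  fun x y => (hM x y).add (hN x y)

lemma CDa.sub {M N : E → Matrix I J ℂ} (hM : CDa e M) (hN : CDa e N) :
    CDa e (fun θ => M θ - N θ) :=
  fun x y => (hM x y).sub (hN x y)

lemma CDa.mul [Fintype J] {M : E → Matrix I J ℂ} {N : E → Matrix J K ℂ} (hM : CDa e M)
    (hN : CDa e N) : CDa e (fun θ => M θ * N θ) := by
  intro x y
  simp only [Matrix.mul_apply]
  exact ContDiffAt.sum fun z _ => (hM x z).mul (hN z y)

lemma CDa.smul (c : ℂ) {M : E → Matrix I J ℂ} (hM : CDa e M) :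
    CDa e (fun θ => c • M θ) := by
  intro x y
  simp only [Matrix.smul_apply, smul_eq_mul]
  exact contDiffAt_const.mul (hM x y)

lemma conj_cda {f : E → ℂ} (hf : ContDiffAt ℝ 1 f e) : ContDiffAt ℝ 1 (fun θ => star (f θ)) e :=
  (Complex.conjCLE.contDiff (n := 1)).contDiffAt.comp e hf

lemma CDa.conjTranspose {M : E → Matrix I J ℂ} (hM : CDa e M) : CDa e (fun θ => (M θ)ᴴ) := by
  intro x y
  simp only [Matrix.conjTranspose_apply]
  exact conj_cda (hM y x)

lemma CDa.pow [Fintype I] [DecidableEq I] {M : E → Matrix I I ℂ} (hM : CDa e M) (k : ℕ) :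
    CDa e (fun θ => (M θ) ^ k) := by
  induction k with
  | zero => simp only [pow_zero]; exact CDa.const _
  | succ k ih => simp only [pow_succ]; exact ih.mul hM

lemma CDa.aeval [Fintype I] [DecidableEq I] {M : E → Matrix I I ℂ} (hM : CDa e M)
    (p : Polynomial ℂ) : CDa e (fun θ => Polynomial.aeval (M θ) p) := by
  induction p using Polynomial.induction_on' with
  | add p q hp hq => simp only [map_add]; exact hp.add hq
  | monomial k a =>
    simp only [Polynomial.aeval_monomial, Algebra.algebraMap_eq_smul_one, smul_mul_assoc, one_mul]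
    exact CDa.smul a (hM.pow k)

lemma CDa.trace [Fintype I] {M : E → Matrix I I ℂ} (hM : CDa e M) :
    ContDiffAt ℝ 1 (fun θ => (M θ).trace) e := by
  simp only [Matrix.trace, Matrix.diag_apply]
  exact ContDiffAt.sum fun x _ => hM x x

lemma inv_cda [Fintype I] [DecidableEq I] {M : E → Matrix I I ℂ} (hM : CDa e M)
    (p q : Polynomial ℂ) : ContDiffAt ℝ 1 (fun θ => inv p q (M θ)) e := by
  unfold inv
  have hR : CDa e (fun θ => (1 / 2 : ℂ) • (M θ + (M θ)ᴴ)) := (hM.add hM.conjTranspose).smul _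
  have hI : CDa e (fun θ => (1 / (2 * Complex.I) : ℂ) • (M θ - (M θ)ᴴ)) :=
    (hM.sub hM.conjTranspose).smul _
  exact Complex.reCLM.contDiff.contDiffAt.comp e
    (CDa.trace ((((hR.aeval p).mul hI).mul (hR.aeval q)).mul hI))

end CD

/-! ### The image has small dimension -/

section dim

variable {n : ℕ}

abbrev Par (n : ℕ) : Type := (Fin n → ℝ) × (Fin n → ℂ) × (Fin n → ℂ) × (Fin n → ℂ) × (Fin n → ℂ)

noncomputable def NP (θ : Par n) : Matrix (Fin n) (Fin n) ℂ :=
  NN θ.1 θ.2.1 θ.2.2.1 θ.2.2.2.1 θ.2.2.2.2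

lemma NP_cda (θ : Par n) (hθ : Function.Injective θ.1) : CDa θ NP := by
  intro i j
  unfold NP NN
  simp only [Matrix.of_apply]
  by_cases hij : i = j
  · simp only [if_pos hij]
    have : ContDiff ℝ 1 (fun θ : Par n => θ.2.2.2.2 i) := by fun_prop
    exact this.contDiffAt
  · simp only [if_neg hij]
    have h1 : ContDiffAt ℝ 1 (fun θ : Par n => θ.2.1 i * star (θ.2.2.1 j) +
        θ.2.2.1 i * star (θ.2.2.2.1 j)) θ := by
      have a1 : ContDiff ℝ 1 (fun θ : Par n => θ.2.1 i) := by fun_prop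
      have a2 : ContDiff ℝ 1 (fun θ : Par n => θ.2.2.1 j) := by fun_prop
      have a3 : ContDiff ℝ 1 (fun θ : Par n => θ.2.2.1 i) := by fun_prop
      have a4 : ContDiff ℝ 1 (fun θ : Par n => θ.2.2.2.1 j) := by fun_prop
      exact (a1.contDiffAt.mul (conj_cda a2.contDiffAt)).add
        (a3.contDiffAt.mul (conj_cda a4.contDiffAt))
    have h2 : ContDiffAt ℝ 1 (fun θ : Par n => (((θ.1 i - θ.1 j)⁻¹ : ℝ) : ℂ)) θ := by
      have b1 : ContDiff ℝ 1 (fun θ : Par n => θ.1 i - θ.1 j) := by fun_prop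
      have b2 : ContDiffAt ℝ 1 (fun θ : Par n => (θ.1 i - θ.1 j)⁻¹) θ :=
        b1.contDiffAt.inv (sub_ne_zero.2 fun h => hij (hθ h))
      exact Complex.ofRealCLM.contDiff.contDiffAt.comp θ b2
    exact h1.mul h2

lemma dense_compl {ι : Type*} [Fintype ι] (q : ι → Polynomial ℂ × Polynomial ℂ)
    (hcard : 9 * n < Fintype.card ι) :
    Dense (((fun (θ : Par n) (s : ι) => inv (q s).1 (q s).2 (NP θ)) ''
      {θ : Par n | Function.Injective θ.1})ᶜ) := by
  apply dense_compl_of_dimH_lt_finrank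
  have h1 : dimH ((fun (θ : Par n) (s : ι) => inv (q s).1 (q s).2 (NP θ)) ''
      {θ : Par n | Function.Injective θ.1}) ≤ dimH {θ : Par n | Function.Injective θ.1} := by
    apply dimH_image_le_of_locally_lipschitzOn
    intro θ hθ
    have h2 : ContDiffAt ℝ 1 (fun (θ : Par n) (s : ι) => inv (q s).1 (q s).2 (NP θ)) θ := by
      rw [contDiffAt_pi]
      intro s
      exact inv_cda (NP_cda θ hθ) _ _
    obtain ⟨K, t, ht, hK⟩ := h2.exists_lipschitzOnWith
    exact ⟨K, t, mem_nhdsWithin_of_mem_nhds ht, hK⟩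
  have h2 : dimH {θ : Par n | Function.Injective θ.1} ≤ ((9 * n : ℕ) : ENNReal) := by
    have h3 := (dimH_mono (subset_univ {θ : Par n | Function.Injective θ.1})).trans_eq
      (Real.dimH_univ_eq_finrank (Par n))
    have h4 : finrank ℝ (Par n) = 9 * n := by
      unfold Par
      simp only [finrank_prod, finrank_pi_fintype, finrank_self, Complex.finrank_real_complex,
        Finset.sum_const, Finset.card_univ, Fintype.card_fin, smul_eq_mul]
      ring
    rw [h4] at h3
    exact h3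
  refine lt_of_le_of_lt (h1.trans h2) ?_
  rw [finrank_fintype_fun_eq_card]
  exact_mod_cast hcard

end dim

end Pool.Agent.W675.TTO
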