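import Mathlib
import Pool.Agent.W675.TTOb

set_option autoImplicit false

open Matrix Set Module

namespace Pool.Agent.W675.TTO

/-! ### The family of matrices `diag (0, ..., 39) + i K` -/

/-- distinct eigenvalues of the real part -/
noncomputable def hh (x : Fin 40) : ℂ := ((x : ℕ) : ℂ)

lemma hh_inj : Function.Injective hh := by
  intro x y h
  unfold hh at h
  exact Fin.ext (by exact_mod_cast h)

def i1 (j : Fin 20) : Fin 40 := ⟨j, by omega⟩
def i2 (j : Fin 20) : Fin 40 := ⟨20 + j, by omega⟩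

noncomputable def pq (s : Fin 20 × Fin 20) : Polynomial ℂ × Polynomial ℂ :=
  (Lagrange.basis Finset.univ hh (i1 s.1), Lagrange.basis Finset.univ hh (i2 s.2))

lemma eval_basis (x y : Fin 40) :
    (Lagrange.basis Finset.univ hh x).eval (hh y) = if x = y then 1 else 0 := by
  split_ifs with h
  · subst h
    exact Lagrange.eval_basis_self (hh_inj.injOn) (Finset.mem_univ _)
  · exact Lagrange.eval_basis_of_ne h (Finset.mem_univ _)

/-- the real symmetric matrix -/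
noncomputable def kk (κ : Fin 20 × Fin 20 → ℝ) (x y : Fin 40) : ℝ :=
  if h : (x : ℕ) < 20 ∧ 20 ≤ (y : ℕ) then √(κ (⟨x, h.1⟩, ⟨y - 20, by omega⟩))
  else if h : (y : ℕ) < 20 ∧ 20 ≤ (x : ℕ) then √(κ (⟨y, h.1⟩, ⟨x - 20, by omega⟩)) else 1

lemma kk_symm (κ : Fin 20 × Fin 20 → ℝ) (x y : Fin 40) : kk κ x y = kk κ y x := by
  unfold kk
  by_cases h1 : (x : ℕ) < 20 ∧ 20 ≤ (y : ℕ)
  · have h2 : ¬ ((y : ℕ) < 20 ∧ 20 ≤ (x : ℕ)) := by omega
    rw [dif_pos h1, dif_neg h2, dif_pos h1]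
  · by_cases h2 : (y : ℕ) < 20 ∧ 20 ≤ (x : ℕ)
    · rw [dif_neg h1, dif_pos h2, dif_pos h2]
    · rw [dif_neg h1, dif_neg h2, dif_neg h2, dif_neg h1]

lemma kk_val (κ : Fin 20 × Fin 20 → ℝ) (s : Fin 20 × Fin 20) :
    kk κ (i1 s.1) (i2 s.2) = √(κ s) := by
  unfold kk i1 i2
  rw [dif_pos ⟨s.1.2, by simp⟩]
  congr 3
  ext
  simp

lemma kk_one (x y : Fin 40) : kk (fun _ => 1) x y = 1 := by
  unfold kk
  split_ifs <;> simp

lemma kk_cont (x y : Fin 40) : Continuous fun κ : Fin 20 × Fin 20 → ℝ => kk κ x y := by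
  unfold kk
  split_ifs
  · exact Real.continuous_sqrt.comp (continuous_apply _)
  · exact Real.continuous_sqrt.comp (continuous_apply _)
  · exact continuous_const

noncomputable def KK (κ : Fin 20 × Fin 20 → ℝ) : Matrix (Fin 40) (Fin 40) ℂ :=
  Matrix.of fun x y => ((kk κ x y : ℝ) : ℂ)

lemma KK_T (κ : Fin 20 × Fin 20 → ℝ) : (KK κ)ᵀ = KK κ := by
  ext x y
  simp only [KK, Matrix.transpose_apply, Matrix.of_apply]
  rw [kk_symm]

lemma KK_H (κ : Fin 20 × Fin 20 → ℝ) : (KK κ)ᴴ = KK κ := by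
  ext x y
  simp only [KK, Matrix.conjTranspose_apply, Matrix.of_apply]
  rw [kk_symm]
  simp

lemma D_H : (Matrix.diagonal hh)ᴴ = Matrix.diagonal hh := by
  rw [Matrix.diagonal_conjTranspose]
  congr 1
  funext x
  simp [hh]

noncomputable def AA (κ : Fin 20 × Fin 20 → ℝ) : Matrix (Fin 40) (Fin 40) ℂ :=
  Matrix.diagonal hh + Complex.I • KK κ

lemma AA_T (κ : Fin 20 × Fin 20 → ℝ) : (AA κ)ᵀ = AA κ := by
  unfold AA
  rw [Matrix.transpose_add, Matrix.diagonal_transpose, Matrix.transpose_smul, KK_T]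

lemma AA_H (κ : Fin 20 × Fin 20 → ℝ) : (AA κ)ᴴ = Matrix.diagonal hh - Complex.I • KK κ := by
  unfold AA
  rw [Matrix.conjTranspose_add, D_H, Matrix.conjTranspose_smul, KK_H]
  simp [sub_eq_add_neg]

lemma AA_cont : Continuous AA := by
  refine continuous_matrix fun x y => ?_
  simp only [AA, KK, Matrix.add_apply, Matrix.smul_apply, Matrix.of_apply, smul_eq_mul]
  exact continuous_const.add (continuous_const.mul (Complex.continuous_ofReal.comp (kk_cont x y)))

lemma re_part (κ : Fin 20 × Fin 20 → ℝ) :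
    (1 / 2 : ℂ) • (AA κ + (AA κ)ᴴ) = Matrix.diagonal hh := by
  rw [AA_H]
  ext x y
  simp only [AA, Matrix.smul_apply, Matrix.add_apply, Matrix.sub_apply, smul_eq_mul]
  ring

lemma im_part (κ : Fin 20 × Fin 20 → ℝ) :
    (1 / (2 * Complex.I) : ℂ) • (AA κ - (AA κ)ᴴ) = KK κ := by
  have hI := Complex.I_ne_zero
  rw [AA_H]
  ext x y
  simp only [AA, Matrix.smul_apply, Matrix.add_apply, Matrix.sub_apply, smul_eq_mul]
  field_simp
  ring

lemma aeval_diag {J : Type*} [Fintype J] [DecidableEq J] (d : J → ℂ) (p : Polynomial ℂ) :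
    Polynomial.aeval (Matrix.diagonal d) p = Matrix.diagonal (fun x => p.eval (d x)) := by
  have h := Polynomial.aeval_algHom_apply (Matrix.diagonalAlgHom ℂ (n := J) (α := ℂ)) d p
  have e1 : (Matrix.diagonalAlgHom ℂ (n := J) (α := ℂ)) d = Matrix.diagonal d := rfl
  rw [e1] at h
  rw [h]
  have e2 : Polynomial.aeval d p = fun x => p.eval (d x) := by
    funext x
    rw [Polynomial.aeval_pi_apply₂]
    simp
  rw [e2]
  rfl

lemma inv_val (κ : Fin 20 × Fin 20 → ℝ) (hκ : ∀ s, 0 < κ s) (s : Fin 20 × Fin 20) :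
    inv (pq s).1 (pq s).2 (AA κ) = κ s := by
  unfold inv
  rw [re_part, im_part, aeval_diag, aeval_diag]
  have ht : Matrix.trace (Matrix.diagonal (fun x => (pq s).1.eval (hh x)) * KK κ *
      Matrix.diagonal (fun x => (pq s).2.eval (hh x)) * KK κ) = ((κ s : ℝ) : ℂ) := by
    have hent : ∀ (u w : Fin 40 → ℂ) (M : Matrix (Fin 40) (Fin 40) ℂ),
        Matrix.trace (Matrix.diagonal u * M * Matrix.diagonal w * M) =
          ∑ x, ∑ y, u x * M x y * w y * M y x := by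
      intro u w M
      simp only [Matrix.trace, Matrix.diag_apply]
      refine Finset.sum_congr rfl fun x _ => ?_
      rw [Matrix.mul_apply]
      refine Finset.sum_congr rfl fun y _ => ?_
      rw [Matrix.mul_diagonal, Matrix.diagonal_mul]
    rw [hent]
    simp only [pq, eval_basis]
    rw [Finset.sum_eq_single (i1 s.1)]
    · rw [Finset.sum_eq_single (i2 s.2)]
      · simp only [if_true, one_mul, mul_one]
        simp only [KK, Matrix.of_apply]
        rw [kk_symm κ (i2 s.2), kk_val, ← Complex.ofReal_mul, Real.mul_self_sqrt (hκ s).le]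
      · intro b _ hb
        rw [if_neg (Ne.symm hb)]; simp
      · simp
    · intro b _ hb
      refine Finset.sum_eq_zero fun x _ => ?_
      rw [if_neg (Ne.symm hb)]; simp
    · simp
  rw [ht, Complex.ofReal_re]

/-! ### No orthogonal eigenvectors -/

/-- two nonzero orthogonal eigenvectors -/
def HasOrth (M : Matrix (Fin 40) (Fin 40) ℂ) : Prop :=
  ∃ x y : Fin 40 → ℂ, ∃ a b : ℂ, x ≠ 0 ∧ y ≠ 0 ∧ M *ᵥ x = a • x ∧ M *ᵥ y = b • y ∧
    star x ⬝ᵥ y = 0

lemma parallel {z x : Fin 40 → ℂ} (hx : x ≠ 0) (h : ∀ i j, z i * x j = z j * x i) :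
    ∃ a : ℂ, z = a • x := by
  obtain ⟨j, hj⟩ : ∃ j, x j ≠ 0 := by
    by_contra hcon
    push Not at hcon
    exact hx (funext hcon)
  refine ⟨z j / x j, ?_⟩
  funext i
  rw [Pi.smul_apply, smul_eq_mul, div_mul_eq_mul_div, eq_div_iff hj]
  exact h i j

lemma isClosed_hasOrth : IsClosed {M : Matrix (Fin 40) (Fin 40) ℂ | HasOrth M} := by
  set S := Metric.sphere (0 : Fin 40 → ℂ) 1 with hS
  set Z : Set (Matrix (Fin 40) (Fin 40) ℂ × (S × S)) :=
    {z | (∀ i j, (z.1 *ᵥ (z.2.1 : Fin 40 → ℂ)) i * (z.2.1 : Fin 40 → ℂ) j =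
        (z.1 *ᵥ (z.2.1 : Fin 40 → ℂ)) j * (z.2.1 : Fin 40 → ℂ) i) ∧
      (∀ i j, (z.1 *ᵥ (z.2.2 : Fin 40 → ℂ)) i * (z.2.2 : Fin 40 → ℂ) j =
        (z.1 *ᵥ (z.2.2 : Fin 40 → ℂ)) j * (z.2.2 : Fin 40 → ℂ) i) ∧
      star (z.2.1 : Fin 40 → ℂ) ⬝ᵥ (z.2.2 : Fin 40 → ℂ) = 0} with hZ
  have hZc : IsClosed Z := by
    have c1 : Continuous fun z : Matrix (Fin 40) (Fin 40) ℂ × (S × S) => (z.2.1 : Fin 40 → ℂ) := by
      fun_prop
    have c2 : Continuous fun z : Matrix (Fin 40) (Fin 40) ℂ × (S × S) => (z.2.2 : Fin 40 → ℂ) := by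
      fun_prop
    have c3 : Continuous fun z : Matrix (Fin 40) (Fin 40) ℂ × (S × S) =>
        (z.1 *ᵥ (z.2.1 : Fin 40 → ℂ)) := continuous_fst.matrix_mulVec c1
    have c4 : Continuous fun z : Matrix (Fin 40) (Fin 40) ℂ × (S × S) =>
        (z.1 *ᵥ (z.2.2 : Fin 40 → ℂ)) := continuous_fst.matrix_mulVec c2
    have c5 : Continuous fun z : Matrix (Fin 40) (Fin 40) ℂ × (S × S) =>
        star (z.2.1 : Fin 40 → ℂ) ⬝ᵥ (z.2.2 : Fin 40 → ℂ) := (c1.star).dotProduct c2
    rw [hZ]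
    simp only [setOf_and, setOf_forall]
    refine (isClosed_iInter fun i => isClosed_iInter fun j => ?_).inter
      ((isClosed_iInter fun i => isClosed_iInter fun j => ?_).inter ?_)
    · exact isClosed_eq (((continuous_apply i).comp c3).mul ((continuous_apply j).comp c1))
        (((continuous_apply j).comp c3).mul ((continuous_apply i).comp c1))
    · exact isClosed_eq (((continuous_apply i).comp c4).mul ((continuous_apply j).comp c2))
        (((continuous_apply j).comp c4).mul ((continuous_apply i).comp c2))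
    · exact isClosed_eq c5 continuous_const
  haveI : CompactSpace S := isCompact_iff_compactSpace.1 (isCompact_sphere _ _)
  have himg := isClosedMap_fst_of_compactSpace (X := Matrix (Fin 40) (Fin 40) ℂ) (Y := S × S) Z hZc
  convert himg using 1
  ext M
  simp only [mem_setOf_eq, mem_image, Prod.exists, exists_and_right, exists_eq_right]
  constructor
  · rintro ⟨x, y, a, b, hx, hy, h1, h2, h3⟩
    have nx : ‖x‖ ≠ 0 := norm_ne_zero_iff.2 hx
    have ny : ‖y‖ ≠ 0 := norm_ne_zero_iff.2 hy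
    refine ⟨⟨((‖x‖⁻¹ : ℝ) : ℂ) • x, ?_⟩, ⟨((‖y‖⁻¹ : ℝ) : ℂ) • y, ?_⟩, ?_, ?_, ?_⟩
    · rw [hS, mem_sphere_zero_iff_norm, norm_smul, Complex.norm_real, norm_inv, norm_norm,
        inv_mul_cancel₀ nx]
    · rw [hS, mem_sphere_zero_iff_norm, norm_smul, Complex.norm_real, norm_inv, norm_norm,
        inv_mul_cancel₀ ny]
    · intro i j
      simp only [Matrix.mulVec_smul, h1, Pi.smul_apply, smul_eq_mul]
      ring
    · intro i j
      simp only [Matrix.mulVec_smul, h2, Pi.smul_apply, smul_eq_mul]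
      ring
    · simp only [star_smul, smul_dotProduct, dotProduct_smul, h3, smul_zero]
  · rintro ⟨⟨x, hx⟩, ⟨y, hy⟩, h1, h2, h3⟩
    have hx0 : x ≠ 0 := by
      rintro rfl
      rw [hS, mem_sphere_zero_iff_norm, norm_zero] at hx
      exact zero_ne_one hx
    have hy0 : y ≠ 0 := by
      rintro rfl
      rw [hS, mem_sphere_zero_iff_norm, norm_zero] at hy
      exact zero_ne_one hy
    obtain ⟨a, ha⟩ := parallel hx0 h1
    obtain ⟨b, hb⟩ := parallel hy0 h2
    exact ⟨x, y, a, b, hx0, hy0, ha, hb, h3⟩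

lemma KK_one_mulVec (x : Fin 40 → ℂ) : KK (fun _ => 1) *ᵥ x = fun _ => ∑ j, x j := by
  funext i
  simp only [KK, mulVec, dotProduct, Matrix.of_apply, kk_one, Complex.ofReal_one, one_mul]

lemma sum_ne_zero {x : Fin 40 → ℂ} (hx : x ≠ 0) {a : ℂ}
    (h : AA (fun _ => 1) *ᵥ x = a • x) : ∑ j, x j ≠ 0 := by
  intro hs
  have h1 : ∀ i, hh i * x i = a * x i := by
    intro i
    have h2 := congrFun h i
    rw [AA, Matrix.add_mulVec, Matrix.smul_mulVec, KK_one_mulVec, Pi.add_apply,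
      Matrix.mulVec_diagonal, Pi.smul_apply, hs, smul_zero, add_zero, Pi.smul_apply,
      smul_eq_mul] at h2
    exact h2
  obtain ⟨i, hi⟩ : ∃ i, x i ≠ 0 := by
    by_contra hcon
    push Not at hcon
    exact hx (funext hcon)
  have ha : hh i = a := mul_right_cancel₀ hi (h1 i)
  have h0 : ∀ j, j ≠ i → x j = 0 := by
    intro j hj
    by_contra hne
    have hb : hh j = a := mul_right_cancel₀ hne (h1 j)
    exact hj (hh_inj (hb.trans ha.symm))
  rw [Finset.sum_eq_single i (fun j _ hj => h0 j hj) (by simp)] at hs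
  exact hi hs

lemma not_hasOrth : ¬ HasOrth (AA (fun _ => 1)) := by
  rintro ⟨x, y, a, b, hx, hy, h1, h2, h3⟩
  have hs := sum_ne_zero hx h1
  have ht := sum_ne_zero hy h2
  have e1 : star x ⬝ᵥ (AA (fun _ => 1) *ᵥ y) = 0 := by rw [h2, dotProduct_smul, h3, smul_zero]
  have e2 : AA (fun _ => 1) = (AA (fun _ => 1))ᴴ + (2 * Complex.I) • KK (fun _ => 1) := by
    rw [AA_H, AA, two_mul, add_smul]; abel
  have e3 : star x ⬝ᵥ ((AA (fun _ => 1))ᴴ *ᵥ y) = 0 := by
    rw [Matrix.dotProduct_mulVec, ← Matrix.star_mulVec, h1, star_smul, smul_dotProduct, h3,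
      smul_zero]
  rw [e2, Matrix.add_mulVec, dotProduct_add, e3, zero_add, Matrix.smul_mulVec, dotProduct_smul,
    KK_one_mulVec] at e1
  have e4 : star x ⬝ᵥ (fun _ => ∑ j, y j) = star (∑ j, x j) * ∑ j, y j := by
    rw [dotProduct, ← Finset.sum_mul, star_sum]
    rfl
  rw [e4, smul_eq_mul] at e1
  have h2I : (2 * Complex.I) ≠ 0 := mul_ne_zero two_ne_zero Complex.I_ne_zero
  rcases mul_eq_zero.1 e1 with h | h
  · exact h2I h
  · rcases mul_eq_zero.1 h with h | h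
    · exact hs (star_eq_zero.1 h)
    · exact ht h

/-- There is a complex symmetric `40 × 40` matrix without orthogonal eigenvectors which does not
satisfy Sarason's criterion for any compressed shift. -/
theorem exists_matrix : ∃ M : Matrix (Fin 40) (Fin 40) ℂ, Mᵀ = M ∧ ¬ HasOrth M ∧
    ¬ ∃ T : Matrix (Fin 40) (Fin 40) ℂ, ∃ k u v : Fin 40 → ℂ,
        1 - T * Tᴴ = Matrix.vecMulVec k (star k) ∧
        (∀ μ : ℂ, ∀ x : Fin 40 → ℂ, x ≠ 0 → T *ᵥ x = μ • x → ‖μ‖ < 1) ∧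
        M - T * M * Tᴴ = Matrix.vecMulVec u (star k) + Matrix.vecMulVec k (star v) := by
  have hopen : IsOpen ({τ : Fin 20 × Fin 20 → ℝ | ∀ s, 0 < τ s} ∩ {τ | ¬ HasOrth (AA τ)}) := by
    apply IsOpen.inter
    · have : {τ : Fin 20 × Fin 20 → ℝ | ∀ s, 0 < τ s} = ⋂ s, {τ | 0 < τ s} := by
        ext τ; simp
      rw [this]
      exact isOpen_iInter_of_finite fun s => isOpen_lt continuous_const (continuous_apply s)
    · exact (isClosed_hasOrth.preimage AA_cont).isOpen_compl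
  obtain ⟨τ, ⟨hτpos, hτorth⟩, hτ⟩ := (dense_compl (n := 40) pq (by
    simp)).inter_open_nonempty _ hopen ⟨fun _ => 1, by simp, not_hasOrth⟩
  refine ⟨AA τ, AA_T τ, hτorth, ?_⟩
  rintro ⟨T, k, u, v, h1, h2, h3⟩
  obtain ⟨H, k', u', v', hH, h4, h5⟩ := comm_of_shift _ T k u v h1 h2 h3
  obtain ⟨U, l, a, κ, b, d, hU1, hU2, hinj, hN⟩ := spectral_form _ H k' u' v' hH h4 h5
  apply hτ
  refine ⟨(l, a, κ, b, d), hinj, ?_⟩
  funext s
  simp only
  unfold NP
  simp only
  rw [← hN, inv_conj _ _ _ _ hU1 hU2, inv_val τ hτpos]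

end Pool.Agent.W675.TTO
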