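import Mathlib

set_option autoImplicit false

open MeasureTheory Filter Topology Set AddCircle
open scoped ComplexConjugate ENNReal

namespace Pool.Agent.W675.FS

abbrev TT : Type := AddCircle (1 : ℝ)

/-- The singular inner function. -/
noncomputable def F (z : ℂ) : ℂ := Complex.exp (-((1 + z) / (1 - z)))

/-- its boundary function -/
noncomputable def sy (θ : TT) : ℂ := F (fourier 1 θ)

lemma norm_f1 (θ : TT) : ‖(fourier 1 θ : ℂ)‖ = 1 := by
  rw [fourier_one]
  exact Circle.norm_coe _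

lemma norm_sy (θ : TT) : ‖sy θ‖ = 1 := by
  unfold sy F
  set z : ℂ := fourier 1 θ with hz
  have hz1 : ‖z‖ = 1 := norm_f1 θ
  rw [Complex.norm_exp]
  have hre : ((1 + z) / (1 - z)).re = 0 := by
    rw [Complex.div_re]
    have h1 : z.re * z.re + z.im * z.im = 1 := by
      have := Complex.normSq_eq_norm_sq z
      rw [hz1, Complex.normSq_apply] at this
      simpa using this
    rw [← add_div]
    have : (1 + z).re * (1 - z).re + (1 + z).im * (1 - z).im = 0 := by
      simp
      linarith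
    rw [this, zero_div]
  rw [Complex.neg_re, hre, neg_zero, Real.exp_zero]

lemma measurable_F : Measurable F := by
  unfold F
  fun_prop

lemma measurable_sy : Measurable sy :=
  measurable_F.comp (fourier 1).continuous.measurable

lemma norm_F_le {z : ℂ} (hz : ‖z‖ < 1) : ‖F z‖ ≤ 1 := by
  unfold F
  rw [Complex.norm_exp, Real.exp_le_one_iff, Complex.neg_re, neg_nonpos, Complex.div_re, ← add_div]
  apply div_nonneg _ (Complex.normSq_nonneg _)
  have h1 : z.re * z.re + z.im * z.im < 1 := by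
    rw [← Complex.normSq_apply, Complex.normSq_eq_norm_sq]
    have := norm_nonneg z
    nlinarith
  simp
  linarith

lemma one_sub_ne {z : ℂ} (hz : ‖z‖ < 1) : 1 - z ≠ 0 := by
  intro h
  have : z = 1 := (sub_eq_zero.1 h).symm
  rw [this, norm_one] at hz
  exact lt_irrefl _ hz

lemma differentiableOn_F : DifferentiableOn ℂ F (Metric.ball 0 1) := by
  unfold F
  intro z hz
  rw [mem_ball_zero_iff] at hz
  have h := one_sub_ne hz
  have h2 : DifferentiableAt ℂ (fun z : ℂ => (1 + z) / (1 - z)) z := by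
    apply DifferentiableAt.div
    · fun_prop
    · fun_prop
    · exact h
  exact (Complex.differentiable_exp.differentiableAt.comp z h2.neg).differentiableWithinAt

lemma continuousAt_F {z : ℂ} (hz : z ≠ 1) : ContinuousAt F z := by
  unfold F
  have h : 1 - z ≠ 0 := sub_ne_zero.2 hz.symm
  have h2 : ContinuousAt (fun z : ℂ => (1 + z) / (1 - z)) z := by
    apply ContinuousAt.div
    · fun_prop
    · fun_prop
    · exact h
  exact Complex.continuous_exp.continuousAt.comp h2.neg

/-- Taylor coefficients -/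
noncomputable def tc (n : ℕ) : ℂ := ((n.factorial : ℂ))⁻¹ * iteratedDeriv n F 0

lemma hasSum_F {z : ℂ} (hz : ‖z‖ < 1) : HasSum (fun n : ℕ => tc n * z ^ n) (F z) := by
  have h := Complex.hasSum_taylorSeries_on_ball (f := F) (c := 0) (r := 1) (z := z)
    differentiableOn_F (by simpa using hz)
  have e : (fun n : ℕ => tc n * z ^ n) = fun n : ℕ =>
      ((n.factorial : ℂ))⁻¹ • (z - 0) ^ n • iteratedDeriv n F 0 := by
    funext n
    unfold tc
    simp only [sub_zero, smul_eq_mul]
    ring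
  rw [e]
  exact h

/-- the dilated function -/
noncomputable def gr (ρ : ℝ) (θ : TT) : ℂ := F (ρ * fourier 1 θ)

lemma norm_rho {ρ : ℝ} (h0 : 0 ≤ ρ) (h1 : ρ < 1) (θ : TT) : ‖(ρ : ℂ) * fourier 1 θ‖ < 1 := by
  rw [norm_mul, norm_f1, mul_one, Complex.norm_real, Real.norm_eq_abs, abs_of_nonneg h0]
  exact h1

lemma fourier_pow (θ : TT) (n : ℕ) : (fourier 1 θ : ℂ) ^ n = fourier (n : ℤ) θ := by
  induction n with
  | zero => simp
  | succ n ih => rw [pow_succ, ih, ← fourier_add]; push_cast; rfl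

lemma integral_fourier_mul (m : ℤ) (n : ℕ) :
    ∫ θ : TT, (fourier (-m) θ : ℂ) * fourier (n : ℤ) θ ∂haarAddCircle =
      if (n : ℤ) = m then 1 else 0 := by
  have h := congrFun (fourierCoeff_fourier (T := (1:ℝ)) (n : ℤ)) m
  unfold fourierCoeff at h
  simp only [smul_eq_mul] at h
  rw [h, Pi.single_apply]
  simp only [eq_comm]

lemma coeff_gr {ρ : ℝ} (h0 : 0 ≤ ρ) (h1 : ρ < 1) (m : ℤ) :
    fourierCoeff (gr ρ) m = if 0 ≤ m then tc m.toNat * (ρ : ℂ) ^ m.toNat else 0 := by
  unfold fourierCoeff gr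
  have hs : ∀ θ : TT, HasSum (fun n : ℕ => (fourier (-m) θ : ℂ) *
      (tc n * (ρ : ℂ) ^ n * fourier (n : ℤ) θ)) (fourier (-m) θ • F (ρ * fourier 1 θ)) := by
    intro θ
    have h := (hasSum_F (norm_rho h0 h1 θ)).mul_left (fourier (-m) θ : ℂ)
    rw [smul_eq_mul]
    have e : (fun n : ℕ => (fourier (-m) θ : ℂ) * (tc n * (ρ : ℂ) ^ n * fourier (n : ℤ) θ)) =
        fun n : ℕ => (fourier (-m) θ : ℂ) * (tc n * ((ρ : ℂ) * fourier 1 θ) ^ n) := by
      funext n
      rw [mul_pow, fourier_pow]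
      ring
    rw [e]
    exact h
  have hsum : Summable fun n : ℕ => ‖tc n * (ρ : ℂ) ^ n‖ := by
    have h := (hasSum_F (z := (ρ : ℂ)) (by
      rw [Complex.norm_real, Real.norm_eq_abs, abs_of_nonneg h0]; exact h1)).summable
    exact h.norm
  have hint := hasSum_integral_of_summable_integral_norm
    (μ := (haarAddCircle : Measure TT))
    (F := fun (n : ℕ) (θ : TT) => (fourier (-m) θ : ℂ) * (tc n * (ρ : ℂ) ^ n * fourier (n : ℤ) θ))
    (fun n => (by fun_prop : Continuous fun θ : TT => (fourier (-m) θ : ℂ) *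
      (tc n * (ρ : ℂ) ^ n * fourier (n : ℤ) θ)).integrable_of_hasCompactSupport
        (HasCompactSupport.of_compactSpace _))
    (by
      refine hsum.congr fun n => ?_
      have : ∀ θ : TT, ‖(fourier (-m) θ : ℂ) * (tc n * (ρ : ℂ) ^ n * fourier (n : ℤ) θ)‖ =
          ‖tc n * (ρ : ℂ) ^ n‖ := by
        intro θ
        rw [norm_mul, norm_mul, fourier_apply, fourier_apply, Circle.norm_coe, Circle.norm_coe,
          one_mul, mul_one]
      simp only [this]
      simp)
  have hval : ∀ n : ℕ, ∫ θ : TT, (fourier (-m) θ : ℂ) * (tc n * (ρ : ℂ) ^ n * fourier (n : ℤ) θ)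
      ∂haarAddCircle = if (n : ℤ) = m then tc n * (ρ : ℂ) ^ n else 0 := by
    intro n
    have e : ∀ θ : TT, (fourier (-m) θ : ℂ) * (tc n * (ρ : ℂ) ^ n * fourier (n : ℤ) θ) =
        (tc n * (ρ : ℂ) ^ n) * ((fourier (-m) θ : ℂ) * fourier (n : ℤ) θ) := fun θ => by ring
    simp only [e]
    rw [integral_const_mul, integral_fourier_mul]
    split_ifs <;> simp
  have e3 : ∫ θ : TT, fourier (-m) θ • F (ρ * fourier 1 θ) ∂haarAddCircle =
      ∫ θ : TT, ∑' n : ℕ, (fourier (-m) θ : ℂ) * (tc n * (ρ : ℂ) ^ n * fourier (n : ℤ) θ)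
        ∂haarAddCircle := by
    congr 1
    funext θ
    exact (hs θ).tsum_eq.symm
  rw [e3, ← hint.tsum_eq]
  simp only [hval]
  by_cases hm : 0 ≤ m
  · rw [if_pos hm, tsum_eq_single m.toNat]
    · rw [if_pos (by omega)]
    · intro n hn
      rw [if_neg (by omega)]
  · rw [if_neg hm]
    have : ∀ n : ℕ, (if (n : ℤ) = m then tc n * (ρ : ℂ) ^ n else 0) = 0 := fun n => by
      rw [if_neg (by omega)]
    simp only [this, tsum_zero]

lemma haar_eq : (haarAddCircle : Measure TT) = volume := by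
  rw [volume_eq_smul_haarAddCircle]
  simp

lemma haar_zero : (haarAddCircle : Measure TT) {0} = 0 := by
  rw [haar_eq]
  have h : ∀ ε : ℝ, 0 < ε → volume ({0} : Set TT) ≤ ENNReal.ofReal (2 * ε) := by
    intro ε hε
    calc volume ({0} : Set TT) ≤ volume (Metric.closedBall (0 : TT) ε) := by
          apply measure_mono
          intro x hx
          rw [mem_singleton_iff.1 hx]
          exact Metric.mem_closedBall_self hε.le
      _ = ENNReal.ofReal (min 1 (2 * ε)) := AddCircle.volume_closedBall 1 ε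
      _ ≤ ENNReal.ofReal (2 * ε) := ENNReal.ofReal_le_ofReal (min_le_right _ _)
  by_contra hne
  obtain ⟨r, hr0, hr⟩ := ENNReal.lt_iff_exists_real_btwn.1 (pos_iff_ne_zero.2 hne)
  have h1 := h (r / 2) (by
    by_contra hcon
    have : r ≤ 0 := by linarith
    rw [ENNReal.ofReal_of_nonpos this] at hr
    exact lt_irrefl _ hr.1)
  rw [mul_div_cancel₀ r two_ne_zero] at h1
  exact absurd h1 (not_le.2 hr.2)

lemma ae_ne : ∀ᵐ θ : TT ∂haarAddCircle, (fourier 1 θ : ℂ) ≠ 1 := by
  have h : {θ : TT | ¬ ((fourier 1 θ : ℂ) ≠ 1)} ⊆ {0} := by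
    intro θ hθ
    simp only [not_not, mem_setOf_eq] at hθ
    have h1 : toCircle θ = toCircle (0 : TT) := by
      apply Subtype.ext
      rw [← fourier_one, hθ, AddCircle.toCircle_zero]
      rfl
    exact AddCircle.injective_toCircle one_ne_zero h1
  rw [ae_iff]
  exact measure_mono_null h haar_zero

lemma tendsto_gr (m : ℤ) :
    Tendsto (fun j : ℕ => fourierCoeff (gr (1 - 1 / ((j : ℝ) + 1))) m) atTop
      (𝓝 (fourierCoeff sy m)) := by
  unfold fourierCoeff
  have hρ : ∀ j : ℕ, 0 ≤ 1 - 1 / ((j : ℝ) + 1) ∧ 1 - 1 / ((j : ℝ) + 1) < 1 := by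
    intro j
    have h1 : (0:ℝ) < (j : ℝ) + 1 := by positivity
    constructor
    · rw [sub_nonneg, div_le_one h1]
      linarith [(Nat.cast_nonneg j : (0:ℝ) ≤ j)]
    · have : 0 < 1 / ((j : ℝ) + 1) := by positivity
      linarith
  refine tendsto_integral_of_dominated_convergence (fun _ => 1) ?_ ?_ ?_ ?_
  · intro j
    apply Measurable.aestronglyMeasurable
    unfold gr
    have h1 : Measurable fun θ : TT => F (((1 - 1 / ((j : ℝ) + 1) : ℝ) : ℂ) * fourier 1 θ) :=
      measurable_F.comp (by fun_prop)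
    exact (fourier (-m)).continuous.measurable.mul h1
  · exact integrable_const _
  · intro j
    refine Eventually.of_forall fun θ => ?_
    rw [smul_eq_mul, norm_mul, fourier_apply, Circle.norm_coe, one_mul]
    exact norm_F_le (norm_rho (hρ j).1 (hρ j).2 θ)
  · filter_upwards [ae_ne] with θ hθ
    refine Tendsto.const_smul ?_ _
    unfold gr sy
    have h1 : Tendsto (fun j : ℕ => (((1 - 1 / ((j : ℝ) + 1) : ℝ) : ℂ)) * fourier 1 θ) atTop
        (𝓝 (fourier 1 θ)) := by
      have h2 : Tendsto (fun j : ℕ => (1 - 1 / ((j : ℝ) + 1) : ℝ)) atTop (𝓝 1) := by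
        have := (tendsto_one_div_add_atTop_nhds_zero_nat (𝕜 := ℝ)).const_sub 1
        simpa using this
      have h3 := ((Complex.continuous_ofReal.tendsto 1).comp h2).mul_const (fourier 1 θ : ℂ)
      simpa using h3
    exact (continuousAt_F hθ).tendsto.comp h1

lemma coeff_sy (m : ℤ) : fourierCoeff sy m = if 0 ≤ m then tc m.toNat else 0 := by
  refine tendsto_nhds_unique (tendsto_gr m) ?_
  have hρ : ∀ j : ℕ, 0 ≤ 1 - 1 / ((j : ℝ) + 1) ∧ 1 - 1 / ((j : ℝ) + 1) < 1 := by
    intro j
    have h1 : (0:ℝ) < (j : ℝ) + 1 := by positivity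
    constructor
    · rw [sub_nonneg, div_le_one h1]
      linarith [(Nat.cast_nonneg j : (0:ℝ) ≤ j)]
    · have : 0 < 1 / ((j : ℝ) + 1) := by positivity
      linarith
  simp only [fun j : ℕ => coeff_gr (hρ j).1 (hρ j).2 m]
  split_ifs with hm
  · have h2 : Tendsto (fun j : ℕ => (1 - 1 / ((j : ℝ) + 1) : ℝ)) atTop (𝓝 1) := by
      have := (tendsto_one_div_add_atTop_nhds_zero_nat (𝕜 := ℝ)).const_sub 1
      simpa using this
    have h3 := (((Complex.continuous_ofReal.tendsto 1).comp h2).pow m.toNat).const_mul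
      (tc m.toNat)
    simpa using h3
  · exact tendsto_const_nhds

/-- the coefficients are real -/
lemma coeff_real (m : ℤ) : conj (fourierCoeff sy m) = fourierCoeff sy m := by
  unfold fourierCoeff
  rw [← integral_conj]
  have h : ∫ θ : TT, fourier (-m) θ • sy θ ∂haarAddCircle =
      ∫ θ : TT, fourier (-m) (-θ) • sy (-θ) ∂haarAddCircle :=
    (integral_neg_eq_self (fun θ : TT => fourier (-m) θ • sy θ) haarAddCircle).symm
  rw [h]
  congr 1
  funext θ
  have h1 : ∀ k : ℤ, (fourier k (-θ) : ℂ) = conj (fourier k θ : ℂ) := by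
    intro k
    rw [← fourier_neg, fourier_apply, fourier_apply, smul_neg, neg_smul]
  rw [smul_eq_mul, smul_eq_mul, map_mul, h1]
  congr 1
  unfold sy F
  rw [h1, ← Complex.exp_conj]
  congr 1
  simp

end Pool.Agent.W675.FS
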