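import Mathlib
import Pool.Agent.W675.FSa

set_option autoImplicit false

open MeasureTheory Filter Topology Set AddCircle
open scoped ComplexConjugate ENNReal InnerProductSpace

namespace Pool.Agent.W675.FS

abbrev H : Type := lp (fun _ : ℕ => ℂ) 2

abbrev LL : Type := Lp ℂ 2 (haarAddCircle : Measure TT)

/-- basis vectors -/
noncomputable abbrev s (k : ℕ) : H := lp.single 2 k (1 : ℂ)

lemma inner_s_left (k : ℕ) (x : H) : ⟪s k, x⟫_ℂ = x k := by
  rw [lp.inner_single_left]
  simp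

lemma inner_s_right (k : ℕ) (x : H) : ⟪x, s k⟫_ℂ = conj (x k) := by
  rw [← inner_conj_symm, inner_s_left]

lemma s_apply (k j : ℕ) : (s k) j = if j = k then 1 else 0 := by
  unfold s
  rw [lp.single_apply, Pi.single_apply]

lemma ext_inner {x y : H} (h : ∀ k, ⟪s k, x⟫_ℂ = ⟪s k, y⟫_ℂ) : x = y := by
  ext k
  rw [← inner_s_left, h, inner_s_left]

/-! ### The isometries into `L²` -/

lemma memLp_fm (k : ℕ) : MemLp (fun θ : TT => sy θ * fourier (k : ℤ) θ) 2 haarAddCircle := by
  apply MemLp.of_bound (C := 1)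
  · exact (measurable_sy.mul (fourier (k : ℤ)).continuous.measurable).aestronglyMeasurable
  · refine Eventually.of_forall fun θ => ?_
    rw [norm_mul, norm_sy, fourier_apply, Circle.norm_coe, one_mul]

noncomputable def fm (k : ℕ) : LL := (memLp_fm k).toLp _

lemma inner_e_f (j : ℤ) (k : ℕ) : ⟪(fourierLp 2 j : LL), fm k⟫_ℂ = fourierCoeff sy (j - k) := by
  rw [L2.inner_def]
  unfold fourierCoeff
  apply integral_congr_ae
  filter_upwards [coeFn_fourierLp 2 j, (memLp_fm k).coeFn_toLp] with θ h1 h2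
  rw [h1]
  unfold fm
  rw [h2]
  simp only [RCLike.inner_apply, smul_eq_mul]
  rw [← fourier_neg, neg_sub, sub_eq_add_neg, fourier_add]
  ring

lemma conj_mul_self_sy (θ : TT) : sy θ * conj (sy θ) = 1 := by
  rw [Complex.mul_conj, Complex.normSq_eq_norm_sq, norm_sy]
  simp

lemma orthonormal_fm : Orthonormal ℂ fm := by
  rw [orthonormal_iff_ite]
  intro j k
  have h0 := (orthonormal_iff_ite.1 (orthonormal_fourier (T := (1:ℝ)))) (j : ℤ) (k : ℤ)
  have h1 : ⟪fm j, fm k⟫_ℂ = ⟪(fourierLp 2 (j : ℤ) : LL), (fourierLp 2 (k : ℤ) : LL)⟫_ℂ := by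
    rw [L2.inner_def, L2.inner_def]
    apply integral_congr_ae
    filter_upwards [coeFn_fourierLp 2 (j : ℤ), coeFn_fourierLp 2 (k : ℤ),
      (memLp_fm k).coeFn_toLp, (memLp_fm j).coeFn_toLp] with θ h1 h2 h3 h4
    rw [h1, h2]
    unfold fm
    rw [h3, h4]
    simp only [RCLike.inner_apply, map_mul]
    have := conj_mul_self_sy θ
    linear_combination (fourier (k : ℤ) θ * conj (fourier (j : ℤ) θ : ℂ)) * this
  rw [h1, h0]
  simp only [Nat.cast_inj]

noncomputable def V : H →L[ℂ] LL := orthonormal_fm.orthogonalFamily.linearIsometry.toContinuousLinearMap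

lemma orth_e : Orthonormal ℂ (fun k : ℕ => (fourierLp 2 (k : ℤ) : LL)) :=
  (orthonormal_fourier (T := (1:ℝ))).comp (fun k : ℕ => (k : ℤ)) Nat.cast_injective

noncomputable def J : H →L[ℂ] LL := orth_e.orthogonalFamily.linearIsometry.toContinuousLinearMap

lemma V_s (k : ℕ) : V (s k) = fm k := by
  unfold V s
  rw [LinearIsometry.coe_toContinuousLinearMap, OrthogonalFamily.linearIsometry_apply_single]
  simp

lemma J_s (k : ℕ) : J (s k) = fourierLp 2 (k : ℤ) := by
  unfold J s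
  rw [LinearIsometry.coe_toContinuousLinearMap, OrthogonalFamily.linearIsometry_apply_single]
  simp

lemma V_inner (x y : H) : ⟪V x, V y⟫_ℂ = ⟪x, y⟫_ℂ :=
  (orthonormal_fm.orthogonalFamily.linearIsometry).inner_map_map x y

lemma J_inner (x y : H) : ⟪J x, J y⟫_ℂ = ⟪x, y⟫_ℂ :=
  (orth_e.orthogonalFamily.linearIsometry).inner_map_map x y

/-- The Toeplitz operator with symbol `sy`. -/
noncomputable def T : H →L[ℂ] H := (ContinuousLinearMap.adjoint J) ∘L V

noncomputable def Ts : H →L[ℂ] H := ContinuousLinearMap.adjoint T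

lemma T_apply (j k : ℕ) : (T (s k)) j = fourierCoeff sy ((j : ℤ) - (k : ℤ)) := by
  rw [← inner_s_left]
  unfold T
  rw [ContinuousLinearMap.comp_apply, ContinuousLinearMap.adjoint_inner_right, V_s, J_s, inner_e_f]

lemma Ts_apply (j k : ℕ) : (Ts (s k)) j = fourierCoeff sy ((k : ℤ) - (j : ℤ)) := by
  rw [← inner_s_left]
  unfold Ts
  rw [ContinuousLinearMap.adjoint_inner_right, inner_s_right, T_apply, coeff_real]

lemma JJ {f : LL} (hf : ∀ m : ℤ, m < 0 → ⟪(fourierLp 2 m : LL), f⟫_ℂ = 0) :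
    J (ContinuousLinearMap.adjoint J f) = f := by
  apply (fourierBasis (T := (1:ℝ))).repr.injective
  ext m
  rw [HilbertBasis.repr_apply_apply, HilbertBasis.repr_apply_apply, coe_fourierBasis]
  by_cases hm : 0 ≤ m
  · obtain ⟨k, rfl⟩ := Int.eq_ofNat_of_zero_le hm
    rw [← J_s, J_inner, ContinuousLinearMap.adjoint_inner_right]
  · push Not at hm
    rw [hf m hm, ← ContinuousLinearMap.adjoint_inner_left]
    have : ContinuousLinearMap.adjoint J (fourierLp 2 m : LL) = 0 := by
      apply ext_inner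
      intro k
      rw [ContinuousLinearMap.adjoint_inner_right, J_s, inner_zero_right]
      have h0 := (orthonormal_iff_ite.1 (orthonormal_fourier (T := (1:ℝ)))) (k : ℤ) m
      rw [h0, if_neg (by omega)]
    rw [this, inner_zero_left]

lemma TsT (x : H) : Ts (T x) = x := by
  have key : ∀ k, Ts (T (s k)) = s k := by
    intro k
    apply ext_inner
    intro j
    unfold Ts
    rw [ContinuousLinearMap.adjoint_inner_right]
    unfold T
    rw [ContinuousLinearMap.comp_apply, ContinuousLinearMap.comp_apply,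
      ContinuousLinearMap.adjoint_inner_left, JJ, V_inner]
    intro m hm
    rw [V_s, inner_e_f, coeff_sy, if_neg (by omega)]
  apply ext_inner
  intro k
  unfold Ts
  rw [ContinuousLinearMap.adjoint_inner_right, ← ContinuousLinearMap.adjoint_inner_left]
  have := key k
  unfold Ts at this
  rw [this]

/-! ### The kernel vectors -/

lemma memlp_kr {r : ℝ} (h0 : 0 ≤ r) (h1 : r < 1) : Memℓp (fun m : ℕ => ((r : ℂ)) ^ m) 2 := by
  rw [memℓp_gen_iff (by norm_num)]
  have : (fun m : ℕ => ‖((r : ℂ)) ^ m‖ ^ (2 : ℝ≥0∞).toReal) = fun m : ℕ => (r ^ 2) ^ m := by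
    funext m
    simp only [ENNReal.toReal_ofNat]
    rw [norm_pow, Complex.norm_real, Real.norm_eq_abs, abs_of_nonneg h0]
    norm_cast
    ring
  rw [this]
  exact summable_geometric_of_lt_one (by positivity) (by nlinarith)

noncomputable def kr {r : ℝ} (h0 : 0 ≤ r) (h1 : r < 1) : H := ⟨_, memlp_kr h0 h1⟩

lemma kr_apply {r : ℝ} (h0 : 0 ≤ r) (h1 : r < 1) (m : ℕ) : (kr h0 h1) m = (r : ℂ) ^ m := rfl

lemma norm_kr_sq {r : ℝ} (h0 : 0 ≤ r) (h1 : r < 1) : ‖kr h0 h1‖ ^ 2 = (1 - r ^ 2)⁻¹ := by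
  have h := lp.norm_rpow_eq_tsum (p := 2) (by norm_num) (kr h0 h1)
  simp only [ENNReal.toReal_ofNat, Real.rpow_ofNat] at h
  rw [h]
  have : (fun m : ℕ => ‖(kr h0 h1) m‖ ^ 2) = fun m : ℕ => (r ^ 2) ^ m := by
    funext m
    rw [kr_apply, norm_pow, Complex.norm_real, Real.norm_eq_abs, abs_of_nonneg h0]
    ring
  rw [this]
  exact tsum_geometric_of_lt_one (by positivity) (by nlinarith)

lemma Ts_kr {r : ℝ} (h0 : 0 ≤ r) (h1 : r < 1) : Ts (kr h0 h1) = F r • kr h0 h1 := by
  have hr : ‖(r : ℂ)‖ < 1 := by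
    rw [Complex.norm_real, Real.norm_eq_abs, abs_of_nonneg h0]; exact h1
  ext j
  rw [← inner_s_left]
  unfold Ts
  rw [ContinuousLinearMap.adjoint_inner_right, lp.inner_eq_tsum]
  simp only [RCLike.inner_apply, T_apply, kr_apply, coeff_real]
  rw [lp.coeFn_smul, Pi.smul_apply, kr_apply, smul_eq_mul]
  have hs := hasSum_F hr
  rw [← hs.tsum_eq]
  -- shift the index
  have hzero : ∀ i < j, (r : ℂ) ^ i * fourierCoeff sy ((i : ℤ) - (j : ℤ)) = 0 := by
    intro i hi
    rw [coeff_sy, if_neg (by omega), mul_zero]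
  have hshift : ∀ i, (r : ℂ) ^ (i + j) * fourierCoeff sy (((i + j : ℕ) : ℤ) - (j : ℤ)) =
      (tc i * (r : ℂ) ^ i) * (r : ℂ) ^ j := by
    intro i
    have : ((i + j : ℕ) : ℤ) - (j : ℤ) = i := by push_cast; ring
    rw [this, coeff_sy, if_pos (by omega), Int.toNat_natCast, pow_add]
    ring
  have hsum : Summable fun i : ℕ => (r : ℂ) ^ i * fourierCoeff sy ((i : ℤ) - (j : ℤ)) := by
    rw [← summable_nat_add_iff j]
    simp only [hshift]
    exact hs.summable.mul_right _
  rw [← hsum.sum_add_tsum_nat_add j, Finset.sum_eq_zero (fun i hi => hzero i (Finset.mem_range.1 hi)),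
    zero_add]
  simp only [hshift]
  rw [tsum_mul_right]

end Pool.Agent.W675.FS
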