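import Mathlib
import Pool.Agent.W675.FSb

set_option autoImplicit false

open MeasureTheory Filter Topology Set AddCircle
open scoped ComplexConjugate ENNReal InnerProductSpace

namespace Pool.Agent.W675.FS

/-! ### The projections and the flips -/

noncomputable def PP (n : ℕ) : H →L[ℂ] H :=
  ∑ j ∈ Finset.range (n + 1), (innerSL ℂ (s j)).smulRight (s j)

noncomputable def WW (n : ℕ) : H →L[ℂ] H :=
  ∑ j ∈ Finset.range (n + 1), (innerSL ℂ (s (n - j))).smulRight (s j)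

lemma coord_eq (j : ℕ) (x : H) : x j = innerSL ℂ (s j) x := by
  rw [innerSL_apply_apply, inner_s_left]

lemma PP_apply (n : ℕ) (x : H) (j : ℕ) : (PP n x) j = if j ≤ n then x j else 0 := by
  rw [coord_eq]
  unfold PP
  rw [_root_.sum_apply, map_sum]
  simp only [ContinuousLinearMap.smulRight_apply, map_smul, innerSL_apply_apply, inner_s_left,
    s_apply, smul_eq_mul, mul_ite, mul_one, mul_zero]
  rw [Finset.sum_ite_eq]
  simp only [Finset.mem_range, Nat.lt_succ_iff]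

lemma WW_apply (n : ℕ) (x : H) (j : ℕ) : (WW n x) j = if j ≤ n then x (n - j) else 0 := by
  rw [coord_eq]
  unfold WW
  rw [_root_.sum_apply, map_sum]
  simp only [ContinuousLinearMap.smulRight_apply, map_smul, innerSL_apply_apply, inner_s_left,
    s_apply, smul_eq_mul, mul_ite, mul_one, mul_zero]
  rw [Finset.sum_ite_eq]
  simp only [Finset.mem_range, Nat.lt_succ_iff]

lemma PP_s (n k : ℕ) : PP n (s k) = if k ≤ n then s k else 0 := by
  ext j
  rw [PP_apply]
  by_cases hk : k ≤ n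
  · rw [if_pos hk]
    by_cases hj : j ≤ n
    · rw [if_pos hj]
    · rw [if_neg hj, s_apply, if_neg (by omega)]
  · rw [if_neg hk]
    simp only [lp.coeFn_zero, Pi.zero_apply]
    by_cases hj : j ≤ n
    · rw [if_pos hj, s_apply, if_neg (by omega)]
    · rw [if_neg hj]

lemma WW_s (n k : ℕ) : WW n (s k) = if k ≤ n then s (n - k) else 0 := by
  ext j
  rw [WW_apply]
  by_cases hk : k ≤ n
  · rw [if_pos hk, s_apply, s_apply]
    by_cases hj : j ≤ n
    · rw [if_pos hj]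
      by_cases hjk : j = n - k
      · rw [if_pos hjk, if_pos (by omega)]
      · rw [if_neg hjk, if_neg (by omega)]
    · rw [if_neg hj, if_neg (by omega)]
  · rw [if_neg hk]
    simp only [lp.coeFn_zero, Pi.zero_apply]
    by_cases hj : j ≤ n
    · rw [if_pos hj, s_apply, if_neg (by omega)]
    · rw [if_neg hj]

lemma inner_PP (n : ℕ) (x y : H) : ⟪PP n x, y⟫_ℂ = ⟪x, PP n y⟫_ℂ := by
  have key : ∀ k, ⟪s k, ContinuousLinearMap.adjoint (PP n) y⟫_ℂ = ⟪s k, PP n y⟫_ℂ := by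
    intro k
    rw [ContinuousLinearMap.adjoint_inner_right, PP_s, inner_s_left, PP_apply]
    by_cases hk : k ≤ n
    · rw [if_pos hk, if_pos hk, inner_s_left]
    · rw [if_neg hk, if_neg hk, inner_zero_left]
  rw [← ContinuousLinearMap.adjoint_inner_right, ext_inner key]

lemma inner_WW (n : ℕ) (x y : H) : ⟪WW n x, y⟫_ℂ = ⟪x, WW n y⟫_ℂ := by
  have key : ∀ k, ⟪s k, ContinuousLinearMap.adjoint (WW n) y⟫_ℂ = ⟪s k, WW n y⟫_ℂ := by
    intro k
    rw [ContinuousLinearMap.adjoint_inner_right, WW_s, inner_s_left, WW_apply]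
    by_cases hk : k ≤ n
    · rw [if_pos hk, if_pos hk, inner_s_left]
    · rw [if_neg hk, if_neg hk, inner_zero_left]
  rw [← ContinuousLinearMap.adjoint_inner_right, ext_inner key]

lemma PP_PP (n : ℕ) (x : H) : PP n (PP n x) = PP n x := by
  ext j
  rw [PP_apply, PP_apply]
  split_ifs <;> rfl

lemma PP_WW (n : ℕ) (x : H) : PP n (WW n x) = WW n x := by
  ext j
  rw [PP_apply, WW_apply]
  split_ifs <;> rfl

lemma WW_PP (n : ℕ) (x : H) : WW n (PP n x) = WW n x := by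
  ext j
  rw [WW_apply, WW_apply, PP_apply]
  split_ifs with h1 h2
  · rfl
  · omega
  · rfl

lemma WW_WW (n : ℕ) (x : H) : WW n (WW n x) = PP n x := by
  ext j
  rw [WW_apply, PP_apply, WW_apply]
  by_cases h : j ≤ n
  · rw [if_pos h, if_pos h, if_pos (by omega), Nat.sub_sub_self h]
  · rw [if_neg h, if_neg h]

lemma norm_PP_le (n : ℕ) (x : H) : ‖PP n x‖ ≤ ‖x‖ := by
  have h1 : ‖PP n x‖ ^ 2 ≤ ‖PP n x‖ * ‖x‖ := by
    have h2 : ⟪PP n x, PP n x⟫_ℂ = ⟪PP n x, x⟫_ℂ := by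
      rw [← inner_PP, PP_PP]
    have h3 := norm_inner_le_norm (𝕜 := ℂ) (PP n x) x
    rw [← h2, inner_self_eq_norm_sq_to_K, norm_pow] at h3
    simpa using h3
  by_contra hcon
  push Not at hcon
  have h2 := norm_nonneg x
  nlinarith

lemma norm_WW_le (n : ℕ) (x : H) : ‖WW n x‖ ≤ ‖x‖ := by
  have h2 : ⟪WW n x, WW n x⟫_ℂ = ⟪PP n x, x⟫_ℂ := by
    rw [inner_WW, WW_WW, inner_PP]
  have h3 := norm_inner_le_norm (𝕜 := ℂ) (PP n x) x
  rw [← h2, inner_self_eq_norm_sq_to_K, norm_pow] at h3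
  have h4 : ‖WW n x‖ ^ 2 ≤ ‖PP n x‖ * ‖x‖ := by simpa using h3
  have h5 := norm_PP_le n x
  have h6 := norm_nonneg x
  have h7 := norm_nonneg (WW n x)
  nlinarith [mul_le_mul_of_nonneg_right h5 h6]

lemma PP_eq_sum (n : ℕ) (x : H) : PP n x = ∑ j ∈ Finset.range (n + 1), lp.single 2 j (x j) := by
  unfold PP
  rw [_root_.sum_apply]
  refine Finset.sum_congr rfl fun j _ => ?_
  rw [ContinuousLinearMap.smulRight_apply, innerSL_apply_apply, inner_s_left]
  ext i
  rw [lp.coeFn_smul, Pi.smul_apply, s_apply, lp.single_apply, Pi.single_apply]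
  by_cases h : i = j
  · subst h; simp
  · simp [h]

lemma PP_tendsto (x : H) : Tendsto (fun n => PP n x) atTop (𝓝 x) := by
  have h := (lp.hasSum_single (by norm_num) x).tendsto_sum_nat
  have h2 := h.comp (tendsto_add_atTop_nat 1)
  refine h2.congr fun n => ?_
  rw [PP_eq_sum]
  rfl

/-! ### Compact operators and the flips -/

lemma coord_tendsto (z : H) : Tendsto (fun n => z n) atTop (𝓝 (0:ℂ)) := by
  have h := lp.memℓp z
  rw [memℓp_gen_iff (by norm_num)] at h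
  have h2 := h.tendsto_atTop_zero
  simp only [ENNReal.toReal_ofNat, Real.rpow_ofNat] at h2
  rw [tendsto_zero_iff_norm_tendsto_zero]
  have h3 := (Real.continuous_sqrt.tendsto 0).comp h2
  rw [Real.sqrt_zero] at h3
  refine h3.congr fun n => ?_
  simp only [Function.comp_apply]
  exact Real.sqrt_sq (norm_nonneg _)

lemma inner_WW_tendsto (z x : H) : Tendsto (fun n => ⟪z, WW n x⟫_ℂ) atTop (𝓝 0) := by
  rw [Metric.tendsto_atTop]
  intro ε hε
  have h1 := PP_tendsto x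
  rw [Metric.tendsto_atTop] at h1
  obtain ⟨m, hm⟩ := h1 (ε / (2 * (‖z‖ + 1))) (by positivity)
  have hm' := hm m le_rfl
  rw [dist_comm, dist_eq_norm] at hm'
  have h2 : Tendsto (fun n => ⟪z, WW n (PP m x)⟫_ℂ) atTop (𝓝 0) := by
    have h3 : ∀ n, ⟪z, WW n (PP m x)⟫_ℂ =
        ∑ j ∈ Finset.range (m + 1), x j * ⟪z, WW n (s j)⟫_ℂ := by
      intro n
      have e : PP m x = ∑ j ∈ Finset.range (m + 1), (x j) • (s j : H) := by
        unfold PP
        rw [_root_.sum_apply]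
        refine Finset.sum_congr rfl fun j _ => ?_
        rw [ContinuousLinearMap.smulRight_apply, innerSL_apply_apply, inner_s_left]
      rw [e, map_sum, inner_sum]
      refine Finset.sum_congr rfl fun j _ => ?_
      rw [map_smul, inner_smul_right]
    simp only [h3]
    have h4 : Tendsto (fun n => ∑ j ∈ Finset.range (m + 1), x j * ⟪z, WW n (s j)⟫_ℂ) atTop
        (𝓝 (∑ j ∈ Finset.range (m + 1), x j * 0)) := by
      refine tendsto_finsetSum _ fun j _ => ?_
      refine Tendsto.const_mul _ ?_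
      have h5 : Tendsto (fun n : ℕ => conj (z (n - j))) atTop (𝓝 (conj (0:ℂ))) :=
        (Complex.continuous_conj.tendsto 0).comp ((coord_tendsto z).comp (tendsto_sub_atTop_nat j))
      rw [map_zero] at h5
      refine h5.congr' ?_
      filter_upwards [eventually_ge_atTop j] with n hn
      rw [WW_s, if_pos hn, inner_s_right]
    simpa using h4
  rw [Metric.tendsto_atTop] at h2
  obtain ⟨N, hN⟩ := h2 (ε / 2) (by positivity)
  refine ⟨N, fun n hn => ?_⟩
  have h3 := hN n hn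
  rw [dist_zero_right] at h3 ⊢
  have h4 : ⟪z, WW n x⟫_ℂ = ⟪z, WW n (x - PP m x)⟫_ℂ + ⟪z, WW n (PP m x)⟫_ℂ := by
    rw [← inner_add_right, ← map_add, sub_add_cancel]
  rw [h4]
  have h5 : ‖⟪z, WW n (x - PP m x)⟫_ℂ‖ ≤ ‖z‖ * ‖x - PP m x‖ :=
    (norm_inner_le_norm _ _).trans (mul_le_mul_of_nonneg_left (norm_WW_le _ _) (norm_nonneg _))
  have h6 : ‖z‖ * ‖x - PP m x‖ ≤ ‖z‖ * (ε / (2 * (‖z‖ + 1))) :=
    mul_le_mul_of_nonneg_left hm'.le (norm_nonneg _)
  have h7 : ‖z‖ * (ε / (2 * (‖z‖ + 1))) ≤ ε / 2 := by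
    rw [← mul_div_assoc, div_le_div_iff₀ (by positivity) (by norm_num)]
    nlinarith [norm_nonneg z]
  calc ‖⟪z, WW n (x - PP m x)⟫_ℂ + ⟪z, WW n (PP m x)⟫_ℂ‖
      ≤ ‖⟪z, WW n (x - PP m x)⟫_ℂ‖ + ‖⟪z, WW n (PP m x)⟫_ℂ‖ := norm_add_le _ _
    _ < ε := by linarith

lemma compact_WW {K : H →L[ℂ] H} (hK : IsCompactOperator K) (x : H) :
    Tendsto (fun n => K (WW n x)) atTop (𝓝 0) := by
  obtain ⟨S, hS, hsub⟩ := hK.image_closedBall_subset_compact (f := (K : H →ₗ[ℂ] H)) ‖x‖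
  refine hS.tendsto_nhds_of_unique_mapClusterPt (Eventually.of_forall fun n => hsub ⟨WW n x, by
    rw [mem_closedBall_zero_iff]; exact norm_WW_le n x, rfl⟩) ?_
  intro y _ hy
  have h1 : ∀ z : H, ⟪z, y⟫_ℂ = 0 := by
    intro z
    have h2 : Tendsto (fun n => ⟪z, K (WW n x)⟫_ℂ) atTop (𝓝 0) := by
      have h3 := inner_WW_tendsto (ContinuousLinearMap.adjoint K z) x
      refine h3.congr fun n => ?_
      rw [ContinuousLinearMap.adjoint_inner_left]
    have h4 : MapClusterPt (⟪z, y⟫_ℂ) atTop ((fun w : H => ⟪z, w⟫_ℂ) ∘ fun n => K (WW n x)) :=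
      hy.continuousAt_comp (by fun_prop)
    have h5 : (𝓝 (⟪z, y⟫_ℂ) ⊓ 𝓝 (0:ℂ)).NeBot := by
      have h6 : (𝓝 (⟪z, y⟫_ℂ) ⊓ Filter.map ((fun w : H => ⟪z, w⟫_ℂ) ∘ fun n => K (WW n x))
        atTop).NeBot := h4
      exact h6.mono (inf_le_inf_left _ h2)
    exact eq_of_nhds_neBot h5
  exact inner_self_eq_zero.1 (h1 y)

end Pool.Agent.W675.FS
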