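import Mathlib
import Pool.Agent.W675.FSc

set_option autoImplicit false

open MeasureTheory Filter Topology Set AddCircle
open scoped ComplexConjugate ENNReal InnerProductSpace

namespace Pool.Agent.W675.FS

/-! ### The finite sections -/

section alg

variable {R : Type*} [Ring R] {P W T S D : R}

lemma alg_flip (hPP : P * P = P) (hPW : P * W = W) (hWP : W * P = W) (hWW : W * W = P)
    (h1 : W * T * W = P * S * P) (h2 : W * S * W = P * T * P) :
    W * (P - (P * T * P) * (P * S * P)) * W = P - (P * S * P) * (P * T * P) := by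
  have h3 : W * ((P * T * P) * (P * S * P)) * W = (P * S * P) * (P * T * P) := by
    calc W * ((P * T * P) * (P * S * P)) * W
        = (W * P) * T * (P * P) * S * (P * W) := by simp only [mul_assoc]
      _ = W * T * P * S * W := by rw [hWP, hPP, hPW]
      _ = W * T * (W * W) * S * W := by rw [hWW]
      _ = (W * T * W) * (W * S * W) := by simp only [mul_assoc]
      _ = _ := by rw [h1, h2]
  rw [mul_sub, sub_mul, h3, hWP, hWW]

lemma alg_PAP (hPP : P * P = P) : (P - (P * T * P) * (P * S * P)) * P =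
    P - (P * T * P) * (P * S * P) := by
  rw [sub_mul, hPP]
  congr 1
  calc (P * T * P) * (P * S * P) * P = (P * T * P) * (P * S * (P * P)) := by simp only [mul_assoc]
    _ = _ := by rw [hPP]

lemma alg_DD (h : S * T = 1) : (1 - T * S) * (1 - T * S) = 1 - T * S := by
  have h2 : T * S * (T * S) = T * S := by
    calc T * S * (T * S) = T * (S * T) * S := by simp only [mul_assoc]
      _ = _ := by rw [h, mul_one]
  rw [mul_sub, sub_mul, sub_mul, h2]
  simp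

lemma alg_A (hPP : P * P = P) (h1 : P * T * P = P * T) (h2 : P * S * P = S * P) :
    P - (P * T * P) * (P * S * P) = P * (1 - T * S) * P := by
  rw [mul_sub, sub_mul, mul_one, hPP, h1, h2]
  congr 1
  simp only [mul_assoc]

lemma alg_K (hPW : P * W = W) (hWP : W * P = W) (hDD : D * D = D) :
    (D * W * D) * ((D * W * D) * (D * W * D)) =
      D * W * (((P * D * P) * (W * (P * D * P) * W)) * D) := by
  calc D * W * D * (D * W * D * (D * W * D))
      = D * W * (D * D) * W * (D * D) * W * D := by simp only [mul_assoc]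
    _ = D * W * D * W * D * W * D := by rw [hDD]
    _ = D * (W * P) * D * ((P * W) * P) * D * (P * W) * D := by rw [hWP, hPW, hWP]
    _ = _ := by simp only [mul_assoc]

end alg


/-- two operators agreeing on the basis vectors agree (on the range of `PP n`) -/
lemma ext_s {A B : H →L[ℂ] H} (h : ∀ k j, (A (s k)) j = (B (s k)) j) : A = B := by
  ext x j
  have h1 : ∀ n, (A (PP n x)) j = (B (PP n x)) j := by
    intro n
    have e : PP n x = ∑ j ∈ Finset.range (n + 1), (x j) • (s j : H) := by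
      unfold PP
      rw [_root_.sum_apply]
      refine Finset.sum_congr rfl fun j _ => ?_
      rw [ContinuousLinearMap.smulRight_apply, innerSL_apply_apply, inner_s_left]
    rw [e, map_sum, map_sum, coord_eq, map_sum, coord_eq, map_sum]
    refine Finset.sum_congr rfl fun k _ => ?_
    rw [map_smul, map_smul, map_smul, map_smul, ← coord_eq, ← coord_eq, h]
  have hA : Tendsto (fun n => innerSL ℂ (s j) (A (PP n x))) atTop (𝓝 (innerSL ℂ (s j) (A x))) :=
    ((innerSL ℂ (s j)).continuous.tendsto _).comp ((A.continuous.tendsto _).comp (PP_tendsto x))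
  have hB : Tendsto (fun n => innerSL ℂ (s j) (B (PP n x))) atTop (𝓝 (innerSL ℂ (s j) (B x))) :=
    ((innerSL ℂ (s j)).continuous.tendsto _).comp ((B.continuous.tendsto _).comp (PP_tendsto x))
  rw [coord_eq, coord_eq]
  refine tendsto_nhds_unique hA (hB.congr fun n => ?_)
  rw [← coord_eq, ← coord_eq, h1]

lemma flip_T (n : ℕ) : WW n * T * WW n = PP n * Ts * PP n := by
  apply ext_s
  intro k j
  simp only [mul_apply_eq_comp, WW_apply, PP_apply, WW_s, PP_s]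
  by_cases hk : k ≤ n
  · rw [if_pos hk, if_pos hk]
    by_cases hj : j ≤ n
    · rw [if_pos hj, if_pos hj, T_apply, Ts_apply]
      congr 1
      push_cast [Nat.cast_sub hk, Nat.cast_sub hj]
      ring
    · rw [if_neg hj, if_neg hj]
  · rw [if_neg hk, if_neg hk, map_zero, map_zero]
    simp

lemma flip_Ts (n : ℕ) : WW n * Ts * WW n = PP n * T * PP n := by
  apply ext_s
  intro k j
  simp only [mul_apply_eq_comp, WW_apply, PP_apply, WW_s, PP_s]
  by_cases hk : k ≤ n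
  · rw [if_pos hk, if_pos hk]
    by_cases hj : j ≤ n
    · rw [if_pos hj, if_pos hj, T_apply, Ts_apply]
      congr 1
      push_cast [Nat.cast_sub hk, Nat.cast_sub hj]
      ring
    · rw [if_neg hj, if_neg hj]
  · rw [if_neg hk, if_neg hk, map_zero, map_zero]
    simp

/-- `T` is lower triangular -/
lemma PT (n : ℕ) : PP n * T * PP n = PP n * T := by
  apply ext_s
  intro k j
  simp only [mul_apply_eq_comp, PP_apply, PP_s]
  by_cases hk : k ≤ n
  · rw [if_pos hk]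
  · rw [if_neg hk, map_zero]
    by_cases hj : j ≤ n
    · rw [if_pos hj, if_pos hj, T_apply, coeff_sy, if_neg (by omega)]
      simp
    · rw [if_neg hj, if_neg hj]

lemma TP (n : ℕ) : PP n * Ts * PP n = Ts * PP n := by
  apply ext_s
  intro k j
  simp only [mul_apply_eq_comp, PP_apply, PP_s]
  by_cases hk : k ≤ n
  · rw [if_pos hk]
    by_cases hj : j ≤ n
    · rw [if_pos hj]
    · rw [if_neg hj, Ts_apply, coeff_sy, if_neg (by omega)]
  · rw [if_neg hk, map_zero]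
    simp

noncomputable def A (n : ℕ) : H →L[ℂ] H := PP n - (PP n * T * PP n) * (PP n * Ts * PP n)

noncomputable def B (n : ℕ) : H →L[ℂ] H := PP n - (PP n * Ts * PP n) * (PP n * T * PP n)

noncomputable def Z (n : ℕ) : H →L[ℂ] H := A n * B n

lemma mPP (n : ℕ) : PP n * PP n = PP n := by ext1 x; exact PP_PP n x
lemma mPW (n : ℕ) : PP n * WW n = WW n := by ext1 x; exact PP_WW n x
lemma mWP (n : ℕ) : WW n * PP n = WW n := by ext1 x; exact WW_PP n x
lemma mWW (n : ℕ) : WW n * WW n = PP n := by ext1 x; exact WW_WW n x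

lemma WAW (n : ℕ) : WW n * A n * WW n = B n :=
  alg_flip (mPP n) (mPW n) (mWP n) (mWW n) (flip_T n) (flip_Ts n)

lemma WBW (n : ℕ) : WW n * B n * WW n = A n :=
  alg_flip (mPP n) (mPW n) (mWP n) (mWW n) (flip_Ts n) (flip_T n)

lemma AP (n : ℕ) : A n * PP n = A n := alg_PAP (mPP n)

lemma WZW (n : ℕ) : WW n * Z n * WW n = B n * A n := by
  have h1 : WW n * Z n * WW n = (WW n * (A n * PP n)) * (B n * WW n) := by
    rw [AP]
    unfold Z
    simp only [mul_assoc]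
  have h2 : (WW n * (A n * PP n)) * (B n * WW n) = (WW n * A n * WW n) * (WW n * B n * WW n) := by
    rw [← mWW n]
    simp only [mul_assoc]
  rw [h1, h2, WAW, WBW]

/-- the projection onto the kernel of `T*` -/
noncomputable def D : H →L[ℂ] H := 1 - T * Ts

lemma A_eq (n : ℕ) : A n = PP n * D * PP n := alg_A (mPP n) (PT n) (TP n)

lemma mTsT : Ts * T = 1 := by ext1 x; exact TsT x

lemma DD : D * D = D := alg_DD mTsT

lemma inner_D (x y : H) : ⟪D x, y⟫_ℂ = ⟪x, D y⟫_ℂ := by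
  unfold D Ts
  simp only [_root_.sub_apply, one_apply_eq_self, mul_apply_eq_comp,
    inner_sub_left, inner_sub_right]
  congr 1
  rw [← ContinuousLinearMap.adjoint_inner_right, ContinuousLinearMap.adjoint_inner_left]

lemma norm_T (x : H) : ‖T x‖ = ‖x‖ := by
  have h : ⟪T x, T x⟫_ℂ = ⟪x, x⟫_ℂ := by
    rw [← ContinuousLinearMap.adjoint_inner_right]
    exact congrArg (fun z => ⟪x, z⟫_ℂ) (TsT x)
  rw [inner_self_eq_norm_sq_to_K, inner_self_eq_norm_sq_to_K] at h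
  have h2 : ‖T x‖ ^ 2 = ‖x‖ ^ 2 := by exact_mod_cast h
  exact (pow_left_inj₀ (norm_nonneg _) (norm_nonneg _) two_ne_zero).1 h2

lemma norm_Ts_le (x : H) : ‖Ts x‖ ≤ ‖x‖ := by
  have h1 : ‖Ts x‖ ^ 2 ≤ ‖Ts x‖ * ‖x‖ := by
    have h2 : ⟪Ts x, Ts x⟫_ℂ = ⟪T (Ts x), x⟫_ℂ := by
      unfold Ts
      rw [ContinuousLinearMap.adjoint_inner_right]
    have h3 := norm_inner_le_norm (𝕜 := ℂ) (T (Ts x)) x
    rw [← h2, inner_self_eq_norm_sq_to_K, norm_pow, norm_T] at h3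
    simpa using h3
  by_contra hcon
  push Not at hcon
  have h2 := norm_nonneg x
  nlinarith

lemma norm_D_le (x : H) : ‖D x‖ ≤ ‖x‖ := by
  have h1 : ‖D x‖ ^ 2 ≤ ‖D x‖ * ‖x‖ := by
    have h2 : ⟪D x, D x⟫_ℂ = ⟪D x, x⟫_ℂ := by
      rw [← inner_D]
      congr 1
      exact congrArg (fun Q : H →L[ℂ] H => Q x) DD
    have h3 := norm_inner_le_norm (𝕜 := ℂ) (D x) x
    rw [← h2, inner_self_eq_norm_sq_to_K, norm_pow] at h3
    simpa using h3
  by_contra hcon
  push Not at hcon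
  have h2 := norm_nonneg x
  nlinarith

lemma norm_A_le (n : ℕ) (x : H) : ‖A n x‖ ≤ ‖x‖ := by
  rw [A_eq]
  simp only [mul_apply_eq_comp]
  exact (norm_PP_le _ _).trans ((norm_D_le _).trans (norm_PP_le _ _))

lemma norm_B_le (n : ℕ) (x : H) : ‖B n x‖ ≤ ‖x‖ := by
  rw [← WAW]
  simp only [mul_apply_eq_comp]
  exact (norm_WW_le _ _).trans ((norm_A_le _ _).trans (norm_WW_le _ _))

/-- strong convergence of products with the projections -/
lemma tendsto_PQ {Q : H →L[ℂ] H} {x : H} {y : ℕ → H} (hy : Tendsto y atTop (𝓝 x)) :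
    Tendsto (fun n => PP n (Q (PP n (y n)))) atTop (𝓝 (Q x)) := by
  have aux : ∀ {u : ℕ → H} {v : H}, Tendsto u atTop (𝓝 v) →
      Tendsto (fun n => PP n (u n)) atTop (𝓝 v) := by
    intro u v hu
    have h1 : Tendsto (fun n => PP n (u n - v)) atTop (𝓝 0) := by
      rw [tendsto_zero_iff_norm_tendsto_zero]
      have h2 : Tendsto (fun n => ‖u n - v‖) atTop (𝓝 0) := by
        rw [← tendsto_iff_norm_sub_tendsto_zero]
        exact hu
      exact squeeze_zero (fun n => norm_nonneg _) (fun n => norm_PP_le n _) h2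
    have h2 := h1.add (PP_tendsto v)
    rw [zero_add] at h2
    refine h2.congr fun n => ?_
    rw [← map_add, sub_add_cancel]
  exact aux ((Q.continuous.tendsto _).comp (aux hy))

lemma A_tendsto {x : H} {y : ℕ → H} (hy : Tendsto y atTop (𝓝 x)) :
    Tendsto (fun n => A n (y n)) atTop (𝓝 (D x)) := by
  refine (tendsto_PQ (Q := D) hy).congr fun n => ?_
  rw [A_eq]
  rfl

lemma B_tendsto {x : H} {y : ℕ → H} (hy : Tendsto y atTop (𝓝 x)) :
    Tendsto (fun n => B n (y n)) atTop (𝓝 0) := by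
  have h1 := tendsto_PQ (Q := (1 : H →L[ℂ] H)) hy
  have h2 := tendsto_PQ (Q := T) hy
  have h3 := tendsto_PQ (Q := Ts) h2
  rw [TsT] at h3
  have h4 := h1.sub h3
  have e : (1 : H →L[ℂ] H) x - x = 0 := by simp
  rw [e] at h4
  refine h4.congr fun n => ?_
  unfold B
  simp only [_root_.sub_apply, mul_apply_eq_comp, one_apply_eq_self, PP_PP]

lemma Z_tendsto (x : H) : Tendsto (fun n => Z n x) atTop (𝓝 0) := by
  have h := A_tendsto (B_tendsto (y := fun _ => x) (x := x) tendsto_const_nhds)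
  rw [map_zero] at h
  exact h

lemma WZW_tendsto (x : H) : Tendsto (fun n => (WW n * Z n * WW n) x) atTop (𝓝 0) := by
  have h := B_tendsto (A_tendsto (y := fun _ => x) (x := x) tendsto_const_nhds)
  refine h.congr fun n => ?_
  rw [WZW]
  rfl

/-! ### The norms do not tend to zero -/

lemma D_kr {r : ℝ} (h0 : 0 ≤ r) (h1 : r < 1) : D (kr h0 h1) = kr h0 h1 - F r • T (kr h0 h1) := by
  unfold D
  rw [_root_.sub_apply, one_apply_eq_self, mul_apply_eq_comp, Ts_kr, map_smul]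

lemma norm_F_real {r : ℝ} (h0 : 0 ≤ r) (h1 : r < 1) : ‖F r‖ ≤ 1 - r := by
  unfold F
  have e : -((1 + (r : ℂ)) / (1 - (r : ℂ))) = ((-((1 + r) / (1 - r)) : ℝ) : ℂ) := by
    push_cast; ring
  rw [e, ← Complex.ofReal_exp, Complex.norm_real, Real.norm_eq_abs, abs_of_pos (Real.exp_pos _),
    Real.exp_neg]
  have h2 : 0 < 1 - r := by linarith
  have h3 : (1 - r)⁻¹ ≤ Real.exp ((1 + r) / (1 - r)) := by
    have h4 := Real.add_one_le_exp ((1 + r) / (1 - r))
    refine le_trans ?_ h4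
    rw [inv_eq_one_div]
    have : (1:ℝ) / (1 - r) ≤ (1 + r) / (1 - r) := by
      apply div_le_div_of_nonneg_right _ h2.le
      linarith
    linarith
  calc (Real.exp ((1 + r) / (1 - r)))⁻¹ ≤ ((1 - r)⁻¹)⁻¹ :=
        inv_anti₀ (inv_pos.2 h2) h3
    _ = 1 - r := inv_inv _

lemma inner_WW_kr {r : ℝ} (h0 : 0 ≤ r) (h1 : r < 1) (n : ℕ) :
    ⟪WW n (kr h0 h1), kr h0 h1⟫_ℂ = (((n : ℝ) + 1) * r ^ n : ℝ) := by
  rw [lp.inner_eq_tsum, tsum_eq_sum (s := Finset.range (n + 1))]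
  · have h2 : ∀ j ∈ Finset.range (n + 1), ⟪(WW n (kr h0 h1)) j, (kr h0 h1) j⟫_ℂ = ((r ^ n : ℝ) : ℂ) := by
      intro j hj
      rw [Finset.mem_range, Nat.lt_succ_iff] at hj
      rw [WW_apply, if_pos hj, kr_apply, kr_apply, RCLike.inner_apply, map_pow, Complex.conj_ofReal,
        ← pow_add, Nat.add_sub_cancel' hj]
      push_cast
      rfl
    rw [Finset.sum_congr rfl h2, Finset.sum_const, Finset.card_range, nsmul_eq_mul]
    push_cast
    ring
  · intro j hj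
    rw [Finset.mem_range, Nat.lt_succ_iff] at hj
    rw [WW_apply, if_neg hj, inner_zero_left]

/-- lower bound of the bilinear form -/
lemma lower_form (n : ℕ) (hn : 100 ≤ n) :
    ∃ k : H, 0 < ‖k‖ ∧ (1 / 8 : ℝ) * ‖k‖ ^ 2 ≤ ‖⟪D (WW n (D k)), k⟫_ℂ‖ := by
  have hn0 : (0:ℝ) < (n : ℝ) + 1 := by positivity
  set δ : ℝ := 1 / (2 * ((n : ℝ) + 1)) with hδ
  have hδ0 : 0 < δ := by positivity
  have hδ1 : δ ≤ 1 / 200 := by
    rw [hδ]
    apply div_le_div_of_nonneg_left (by norm_num) (by norm_num)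
    have : (100:ℝ) ≤ n := by exact_mod_cast hn
    linarith
  set r : ℝ := 1 - δ with hr
  have h0 : 0 ≤ r := by rw [hr]; linarith
  have h1 : r < 1 := by rw [hr]; linarith
  set k := kr h0 h1 with hk
  have hN : ‖k‖ ^ 2 = (1 - r ^ 2)⁻¹ := norm_kr_sq h0 h1
  have hr2 : 0 < 1 - r ^ 2 := by nlinarith
  have hkpos : 0 < ‖k‖ := by
    have : 0 < ‖k‖ ^ 2 := by rw [hN]; exact inv_pos.2 hr2
    by_contra hcon
    have h5 : ‖k‖ = 0 := le_antisymm (not_lt.1 hcon) (norm_nonneg _)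
    rw [h5] at this
    norm_num at this
  refine ⟨k, hkpos, ?_⟩
  have hF : ‖F r‖ ≤ δ := by
    have := norm_F_real h0 h1
    rw [hr] at this ⊢
    linarith
  have hDk : ‖D k - k‖ ≤ δ * ‖k‖ := by
    rw [hk, D_kr, sub_sub_cancel_left, norm_neg, norm_smul, norm_T]
    exact mul_le_mul_of_nonneg_right hF (norm_nonneg _)
  have e1 : ⟪D (WW n (D k)), k⟫_ℂ = ⟪WW n (D k), D k⟫_ℂ := inner_D _ _
  have e2 : ⟪WW n (D k), D k⟫_ℂ = ⟪WW n k, k⟫_ℂ + ⟪WW n k, D k - k⟫_ℂ +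
      ⟪WW n (D k - k), D k⟫_ℂ := by
    rw [map_sub, inner_sub_left, inner_sub_right]
    ring
  have b1 : ‖⟪WW n k, D k - k⟫_ℂ‖ ≤ δ * ‖k‖ ^ 2 := by
    calc ‖⟪WW n k, D k - k⟫_ℂ‖ ≤ ‖WW n k‖ * ‖D k - k‖ := norm_inner_le_norm _ _
      _ ≤ ‖k‖ * (δ * ‖k‖) := mul_le_mul (norm_WW_le _ _) hDk (norm_nonneg _) (norm_nonneg _)
      _ = _ := by ring
  have b2 : ‖⟪WW n (D k - k), D k⟫_ℂ‖ ≤ δ * ‖k‖ ^ 2 := by
    calc ‖⟪WW n (D k - k), D k⟫_ℂ‖ ≤ ‖WW n (D k - k)‖ * ‖D k‖ := norm_inner_le_norm _ _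
      _ ≤ (δ * ‖k‖) * ‖k‖ := mul_le_mul ((norm_WW_le _ _).trans hDk) (norm_D_le _)
          (norm_nonneg _) (by positivity)
      _ = _ := by ring
  have b3 : (1 / 4 : ℝ) * ‖k‖ ^ 2 ≤ ‖⟪WW n k, k⟫_ℂ‖ := by
    rw [hk, inner_WW_kr h0 h1 n, ← hk, Complex.norm_real, Real.norm_eq_abs,
      abs_of_nonneg (by positivity), hN]
    have c1 : (1 / 2 : ℝ) ≤ r ^ n := by
      have := one_add_mul_le_pow (a := -δ) (by linarith) n
      have e : (1:ℝ) + -δ = r := by rw [hr]; ring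
      rw [e] at this
      have c2 : (n : ℝ) * δ ≤ 1 / 2 := by
        rw [hδ, mul_one_div, div_le_div_iff₀ (by positivity) (by norm_num)]
        linarith
      linarith
    have c3 : (1 - r ^ 2)⁻¹ ≤ 2 * ((n : ℝ) + 1) := by
      have c4 : δ ≤ 1 - r ^ 2 := by rw [hr]; nlinarith
      calc (1 - r ^ 2)⁻¹ ≤ δ⁻¹ := inv_anti₀ hδ0 c4
        _ = 2 * ((n : ℝ) + 1) := by rw [hδ]; field_simp
    nlinarith
  rw [e1, e2]
  have b4 : ‖⟪WW n k, k⟫_ℂ‖ ≤ ‖⟪WW n k, k⟫_ℂ + ⟪WW n k, D k - k⟫_ℂ + ⟪WW n (D k - k), D k⟫_ℂ‖ +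
      ‖⟪WW n k, D k - k⟫_ℂ‖ + ‖⟪WW n (D k - k), D k⟫_ℂ‖ := by
    have : ⟪WW n k, k⟫_ℂ = (⟪WW n k, k⟫_ℂ + ⟪WW n k, D k - k⟫_ℂ + ⟪WW n (D k - k), D k⟫_ℂ) -
      ⟪WW n k, D k - k⟫_ℂ - ⟪WW n (D k - k), D k⟫_ℂ := by ring
    calc ‖⟪WW n k, k⟫_ℂ‖ = ‖(⟪WW n k, k⟫_ℂ + ⟪WW n k, D k - k⟫_ℂ + ⟪WW n (D k - k), D k⟫_ℂ) -
      ⟪WW n k, D k - k⟫_ℂ - ⟪WW n (D k - k), D k⟫_ℂ‖ := by rw [← this]
      _ ≤ _ := (norm_sub_le _ _).trans (add_le_add_left (norm_sub_le _ _) _)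
  have b5 : 0 < ‖k‖ ^ 2 := by positivity
  nlinarith

lemma lower_norm (n : ℕ) (hn : 100 ≤ n) : (1 / 8 : ℝ) ^ 3 ≤ ‖Z n‖ := by
  obtain ⟨k, hk, hform⟩ := lower_form n hn
  set K : H →L[ℂ] H := D * WW n * D with hK
  have hKs : ∀ x y, ⟪K x, y⟫_ℂ = ⟪x, K y⟫_ℂ := by
    intro x y
    simp only [hK, mul_apply_eq_comp]
    rw [inner_D, inner_WW, inner_D]
  have hadj : ContinuousLinearMap.adjoint K = K := by
    symm
    rw [ContinuousLinearMap.eq_adjoint_iff]
    exact hKs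
  have hK2 : ‖K * K‖ = ‖K‖ * ‖K‖ := by
    have := CStarRing.norm_star_mul_self (x := K)
    rw [ContinuousLinearMap.star_eq_adjoint, hadj] at this
    exact this
  have hadj2 : ContinuousLinearMap.adjoint (K * K) = K * K := by
    rw [← ContinuousLinearMap.star_eq_adjoint, star_mul, ContinuousLinearMap.star_eq_adjoint, hadj]
  have hK4 : ‖(K * K) * (K * K)‖ = ‖K * K‖ * ‖K * K‖ := by
    have := CStarRing.norm_star_mul_self (x := K * K)
    rw [ContinuousLinearMap.star_eq_adjoint, hadj2] at this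
    exact this
  have hlow : (1 / 8 : ℝ) ≤ ‖K‖ := by
    have h1 : ‖⟪D (WW n (D k)), k⟫_ℂ‖ ≤ ‖K‖ * ‖k‖ ^ 2 := by
      calc ‖⟪D (WW n (D k)), k⟫_ℂ‖ = ‖⟪K k, k⟫_ℂ‖ := rfl
        _ ≤ ‖K k‖ * ‖k‖ := norm_inner_le_norm _ _
        _ ≤ (‖K‖ * ‖k‖) * ‖k‖ := mul_le_mul_of_nonneg_right (K.le_opNorm k) (norm_nonneg _)
        _ = _ := by ring
    have h2 : 0 < ‖k‖ ^ 2 := by positivity
    exact le_of_mul_le_mul_right (hform.trans h1) h2
  have hK3 : K * (K * K) = D * WW n * (Z n * D) := by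
    have h := alg_K (mPW n) (mWP n) DD
    rw [← A_eq, WAW] at h
    exact h
  have hDn : ‖D‖ ≤ 1 := ContinuousLinearMap.opNorm_le_bound _ zero_le_one fun x => by
    rw [one_mul]; exact norm_D_le x
  have hWn : ‖WW n‖ ≤ 1 := ContinuousLinearMap.opNorm_le_bound _ zero_le_one fun x => by
    rw [one_mul]; exact norm_WW_le n x
  have h3 : ‖K * (K * K)‖ ≤ ‖Z n‖ := by
    rw [hK3]
    have e1 : ‖D * WW n‖ ≤ 1 := (norm_mul_le D (WW n)).trans
      (mul_le_one₀ hDn (norm_nonneg _) hWn)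
    have e2 : ‖Z n * D‖ ≤ ‖Z n‖ := (norm_mul_le (Z n) D).trans
      (mul_le_of_le_one_right (norm_nonneg _) hDn)
    have e3 : ‖D * WW n‖ * ‖Z n * D‖ ≤ 1 * ‖Z n‖ :=
      mul_le_mul e1 e2 (norm_nonneg _) zero_le_one
    rw [one_mul] at e3
    exact (norm_mul_le (D * WW n) (Z n * D)).trans e3
  have h4 : ‖K‖ ^ 4 ≤ ‖Z n‖ * ‖K‖ := by
    calc ‖K‖ ^ 4 = (‖K‖ * ‖K‖) * (‖K‖ * ‖K‖) := by ring
      _ = ‖(K * K) * (K * K)‖ := by rw [hK4, hK2]
      _ = ‖(K * (K * K)) * K‖ := by simp only [mul_assoc]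
      _ ≤ ‖K * (K * K)‖ * ‖K‖ := norm_mul_le _ _
      _ ≤ ‖Z n‖ * ‖K‖ := mul_le_mul_of_nonneg_right h3 (norm_nonneg _)
  have hKpos : 0 < ‖K‖ := lt_of_lt_of_le (by norm_num) hlow
  have h5 : ‖K‖ ^ 3 ≤ ‖Z n‖ := by
    have : ‖K‖ ^ 3 * ‖K‖ ≤ ‖Z n‖ * ‖K‖ := by
      calc ‖K‖ ^ 3 * ‖K‖ = ‖K‖ ^ 4 := by ring
        _ ≤ _ := h4
    exact le_of_mul_le_mul_right this hKpos
  exact (pow_le_pow_left₀ (by norm_num) hlow 3).trans h5

end Pool.Agent.W675.FS
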