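import Pool.Agent.W217.BE.Stm2

/-! BE-2-QGR (for project BE of helper217). -/

set_option autoImplicit false

namespace Pool.Agent.W675.BEQGR

open Pool.Agent.W217.BE

section
variable {A I M M' : Type} [CommRing A] [DecidableEq I] [AddCommGroup M] [Module A M]
    [AddCommGroup M'] [Module A M'] (D : I → Submodule A M)

/-- the inverse of the sum map -/
noncomputable def ee (h : DirectSum.IsInternal D) : (DirectSum I (fun i => D i)) ≃ₗ[A] M :=
  LinearEquiv.ofBijective (DirectSum.coeLinearMap D) h

/-- component -/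
noncomputable def pp (h : DirectSum.IsInternal D) (b : I) : M →ₗ[A] M :=
  (D b).subtype ∘ₗ (DirectSum.component A I (fun i => D i) b) ∘ₗ (ee D h).symm.toLinearMap

theorem ee_symm (h : DirectSum.IsInternal D) (c : I) (x : M) (hx : x ∈ D c) :
    (ee D h).symm x = DirectSum.lof A I (fun i => D i) c ⟨x, hx⟩ := by
  rw [LinearEquiv.symm_apply_eq]
  show x = DirectSum.coeLinearMap D (DirectSum.lof A I (fun i => D i) c ⟨x, hx⟩)
  rw [DirectSum.coeLinearMap_lof]

theorem pp_same (h : DirectSum.IsInternal D) (b : I) (x : M) (hx : x ∈ D b) : pp D h b x = x := by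
  show ((DirectSum.component A I (fun i => D i) b ((ee D h).symm x) : D b) : M) = x
  rw [ee_symm D h b x hx, DirectSum.component.lof_self]

theorem pp_ne (h : DirectSum.IsInternal D) (b c : I) (hbc : c ≠ b) (x : M) (hx : x ∈ D c) :
    pp D h b x = 0 := by
  show ((DirectSum.component A I (fun i => D i) b ((ee D h).symm x) : D b) : M) = 0
  rw [ee_symm D h c x hx, DirectSum.component.of, dif_neg hbc]
  rfl

theorem pp_comm (h : DirectSum.IsInternal D) (φ : M →ₗ[A] M) (hφ : ∀ b x, x ∈ D b → φ x ∈ D b)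
    (b : I) (x : M) : pp D h b (φ x) = φ (pp D h b x) := by
  have hx : x ∈ ⨆ i, D i := by
    rw [h.submodule_iSup_eq_top]
    trivial
  refine Submodule.iSup_induction D (motive := fun x => pp D h b (φ x) = φ (pp D h b x)) hx ?_ ?_ ?_
  · intro c x hx
    by_cases hc : c = b
    · subst hc
      rw [pp_same D h c x hx, pp_same D h c (φ x) (hφ c x hx)]
    · rw [pp_ne D h b c hc x hx, pp_ne D h b c hc (φ x) (hφ c x hx), map_zero]
  · simp
  · intro x y hx hy
    simp only [map_add, hx, hy]

end

theorem main : QGR := by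
  intro A I _ _ M M' _ _ _ _ D φ ρ h hφ hρ hker
  rw [DirectSum.isInternal_submodule_iff_iSupIndep_and_iSup_eq_top]
  constructor
  · have hq : ∀ b : I, ∃ q : M' →ₗ[A] M', ∀ x, q (ρ x) = ρ (pp D h b x) := by
      intro b
      have hle : LinearMap.ker ρ ≤ LinearMap.ker (ρ ∘ₗ pp D h b) := by
        intro x hx
        rw [hker] at hx
        obtain ⟨y, rfl⟩ := hx
        rw [LinearMap.mem_ker, LinearMap.comp_apply, pp_comm D h φ hφ]
        have : φ (pp D h b y) ∈ LinearMap.ker ρ := by
          rw [hker]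
          exact ⟨_, rfl⟩
        exact this
      let e := ρ.quotKerEquivOfSurjective hρ
      refine ⟨((LinearMap.ker ρ).liftQ (ρ ∘ₗ pp D h b) hle) ∘ₗ e.symm.toLinearMap, ?_⟩
      intro x
      have he : e.symm (ρ x) = Submodule.Quotient.mk x := by
        rw [LinearEquiv.symm_apply_eq]
        rfl
      show ((LinearMap.ker ρ).liftQ (ρ ∘ₗ pp D h b) hle) (e.symm (ρ x)) = _
      rw [he]
      rfl
    intro b
    obtain ⟨q, hq⟩ := hq b
    rw [Submodule.disjoint_def]
    intro x hx1 hx2
    have h1 : q x = x := by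
      obtain ⟨m, hm, rfl⟩ := hx1
      rw [hq, pp_same D h b m hm]
    have h2 : (⨆ j, ⨆ (_ : j ≠ b), (D j).map ρ) ≤ LinearMap.ker q := by
      apply iSup_le
      intro j
      apply iSup_le
      intro hj
      rintro _ ⟨m, hm, rfl⟩
      rw [LinearMap.mem_ker, hq, pp_ne D h b j hj m hm, map_zero]
    have h3 : q x = 0 := h2 hx2
    rw [← h1, h3]
  · rw [← Submodule.map_iSup, h.submodule_iSup_eq_top, Submodule.map_top, LinearMap.range_eq_top]
    exact hρ

end Pool.Agent.W675.BEQGR
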