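import Pool.Agent.W675.PegD

/-! Inscribed squares in Jordan curves without any regularity: curves with a flat side, from which
they go on inside the square over that side. -/

namespace Pool.Agent.Results.MP_5a3ebe_gt.FlatSide

/-- Let `C` be a Jordan curve parametrised by `c : ℝ → ℂ` of period `1` that contains the segment
from `P = c 0` to `Q = c u = P + w`, `w ≠ 0`, `0 < u < 1`, as a part of its arc `c ([0, u])`. Let
`S = {P + (x + i y) w : 0 ≤ x ≤ 1, 0 ≤ y ≤ 1}` be the square over this segment (on its left). Suppose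
that the curve, followed from `Q` on (parameters from `u` upwards) and followed backwards from `P`
(parameters from `1` downwards), stays in `S` as long as it has not reached the height `y = 1` of
the side of `S` opposite to `PQ`. Then `C` contains the four vertices of a square two of whose
vertices are on the segment `PQ`. In particular this holds if `C` contains one side of a rectangle
that contains `C`. -/
theorem result (c : ℝ → ℂ) (hc : Continuous c) (hper : ∀ t, c (t + 1) = c t)
    (hinj : Set.InjOn c (Set.Ico 0 1)) (P w : ℂ) (hw : w ≠ 0) (u : ℝ) (hu0 : 0 < u) (hu1 : u < 1)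
    (hP : c 0 = P) (hQ : c u = P + w) (hseg : segment ℝ P (P + w) ⊆ c '' Set.Icc 0 u)
    (h1 : ∀ t ∈ Set.Icc u 1, (∀ s ∈ Set.Icc u t, ((c s - P) / w).im < 1) →
      0 ≤ ((c t - P) / w).re ∧ ((c t - P) / w).re ≤ 1 ∧ 0 ≤ ((c t - P) / w).im)
    (h2 : ∀ t ∈ Set.Icc u 1, (∀ s ∈ Set.Icc t 1, ((c s - P) / w).im < 1) →
      0 ≤ ((c t - P) / w).re ∧ ((c t - P) / w).re ≤ 1 ∧ 0 ≤ ((c t - P) / w).im) :
    ∃ z v : ℂ, v ≠ 0 ∧ z ∈ segment ℝ P (P + w) ∧ z + v ∈ segment ℝ P (P + w) ∧
      z ∈ Set.range c ∧ z + v ∈ Set.range c ∧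
      z + v + Complex.I * v ∈ Set.range c ∧ z + Complex.I * v ∈ Set.range c := by
  have hsegm : ∀ x : ℝ, 0 ≤ x → x ≤ 1 → P + x * w ∈ segment ℝ P (P + w) := by
    intro x h0 h1
    rw [segment_eq_image']
    exact ⟨x, ⟨h0, h1⟩, by simp⟩
  have hcc : ∀ t, P + ((c t - P) / w) * w = c t := fun t => by
    rw [div_mul_cancel₀ _ hw]; ring
  have hrg : ∀ x : ℝ, 0 ≤ x → x ≤ 1 → P + x * w ∈ Set.range c := fun x h0 h1 =>
    Set.image_subset_range _ _ (hseg (hsegm x h0 h1))
  obtain ⟨s, hs, r, hr, hy, hx, hxy, e1, e2⟩ :=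
    W675.Flat.flat_main (f := fun t => (c t - P) / w) (by fun_prop) hu1
    (by have := hper 0; rw [zero_add] at this; rw [this, hP]; simp)
    (by rw [hQ]; field_simp; ring)
    (by
      rintro t ht ⟨g1, g2, g3⟩
      have h3 : P + (((c t - P) / w).re : ℂ) * w = c t := by
        conv_rhs => rw [← hcc t]
        congr 2
        apply Complex.ext
        · simp
        · simp [g1]
      have h4 := hseg (hsegm _ g2 g3)
      rw [h3] at h4
      obtain ⟨t', ht', e⟩ := h4
      have := hinj ⟨ht'.1, by linarith [ht'.2]⟩ ⟨by linarith [ht.1], ht.2⟩ e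
      linarith [ht'.2, ht.1]) h1 h2
  set x := ((c r - P) / w).re with hxd
  set y := ((c r - P) / w).im with hyd
  have er : (c r - P) / w = x + Complex.I * y := by
    rw [mul_comm]; exact (Complex.re_add_im _).symm
  have es : (c s - P) / w = ((x + y : ℝ) : ℂ) + Complex.I * y := by
    rw [← e2, ← e1, mul_comm]; exact (Complex.re_add_im _).symm
  have hr' := hcc r
  have hs' := hcc s
  rw [er] at hr'
  rw [es] at hs'
  refine ⟨P + x * w, y * w, mul_ne_zero (by exact_mod_cast hy.ne') hw,
    hsegm x hx (by linarith), ?_, hrg x hx (by linarith), ?_, ⟨s, ?_⟩, ⟨r, ?_⟩⟩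
  · have := hsegm (x + y) (by linarith) hxy
    rw [show P + x * w + y * w = P + ((x + y : ℝ) : ℂ) * w by push_cast; ring]
    exact this
  · have := hrg (x + y) (by linarith) hxy
    rw [show P + x * w + y * w = P + ((x + y : ℝ) : ℂ) * w by push_cast; ring]
    exact this
  · rw [← hs']; push_cast; ring
  · rw [← hr']; ring

end Pool.Agent.Results.MP_5a3ebe_gt.FlatSide
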