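import Pool.Agent.W675.SqH

/-! Inscribed squares in Jordan curves one part of which is a nearly flat Lipschitz graph, the rest
being arbitrary. -/

namespace Pool.Agent.Results.MP_5a3ebe_gt.LipschitzSide

/-- Let `g` be a Lipschitz function on the line with constant `L < √2 - 1` that vanishes outside
`(0, 1)`, let `M` be an upper bound of `g`, and let `w ≠ 0`. We use the coordinates `x, y` with
`z = P + (x + i y) w`. Let `G` be the graph of `g` over `[0, 1]`; it joins `P` to `Q = P + w`. Let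
`R = {g x ≤ y, -g y ≤ x ≤ 1 + g (1 - y)}` be the region above the graph of `g` and between the copies
of this graph turned by a right angle about `P` and about `Q`. (If `g ≥ 0` then `R` contains all
points above the graph with `0 ≤ x ≤ 1`.)

Let `C` be a Jordan curve parametrised by `c : ℝ → ℂ` of period `1` with `c 0 = P`, `c u = Q`,
`0 < u < 1`, such that the arc `c ([0, u])` contains `G`. Suppose that the rest of the curve,
followed from `Q` on (parameters from `u` upwards) and followed backwards from `P` (parameters from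
`1` downwards), stays in `R` as long as it has not reached the height `y = 1 + M`. Then `C` contains
the four vertices of a square two adjacent ones of which are on `G`.

No regularity is assumed for the rest of the curve. -/
theorem result (c : ℝ → ℂ) (hc : Continuous c) (hper : ∀ t, c (t + 1) = c t)
    (hinj : Set.InjOn c (Set.Ico 0 1)) (P w : ℂ) (hw : w ≠ 0) (u : ℝ) (hu0 : 0 < u) (hu1 : u < 1)
    (hP : c 0 = P) (hQ : c u = P + w) (g : ℝ → ℝ) (L M : ℝ) (hL : 0 ≤ L) (hL2 : L < √2 - 1)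
    (hg : ∀ x y, |g x - g y| ≤ L * |x - y|) (hg0 : ∀ x ≤ 0, g x = 0) (hg1 : ∀ x, 1 ≤ x → g x = 0)
    (hM : ∀ x, g x ≤ M)
    (hG : ∀ x ∈ Set.Icc (0:ℝ) 1, P + (x + g x * Complex.I) * w ∈ c '' Set.Icc 0 u)
    (h1 : ∀ t ∈ Set.Icc u 1, (∀ s ∈ Set.Icc u t, ((c s - P) / w).im < 1 + M) →
      g ((c t - P) / w).re ≤ ((c t - P) / w).im ∧ -g ((c t - P) / w).im ≤ ((c t - P) / w).re ∧
        ((c t - P) / w).re ≤ 1 + g (1 - ((c t - P) / w).im))
    (h2 : ∀ t ∈ Set.Icc u 1, (∀ s ∈ Set.Icc t 1, ((c s - P) / w).im < 1 + M) →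
      g ((c t - P) / w).re ≤ ((c t - P) / w).im ∧ -g ((c t - P) / w).im ≤ ((c t - P) / w).re ∧
        ((c t - P) / w).re ≤ 1 + g (1 - ((c t - P) / w).im)) :
    ∃ z v : ℂ, v ≠ 0 ∧ (∃ x ∈ Set.Icc (0:ℝ) 1, z = P + (x + g x * Complex.I) * w) ∧
      (∃ x ∈ Set.Icc (0:ℝ) 1, z + v = P + (x + g x * Complex.I) * w) ∧
      z ∈ Set.range c ∧ z + v ∈ Set.range c ∧
      z + v + Complex.I * v ∈ Set.range c ∧ z + Complex.I * v ∈ Set.range c := by
  have hM0 : 0 ≤ M := by
    have := hM 0
    rwa [hg0 0 le_rfl] at this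
  have hL3 : 2 * L + L ^ 2 < 1 := by
    have h2 : √2 ^ 2 = 2 := Real.sq_sqrt (by norm_num)
    nlinarith [Real.sqrt_nonneg 2]
  have hcc : ∀ t, P + ((c t - P) / w) * w = c t := fun t => by
    rw [div_mul_cancel₀ _ hw]; ring
  have hReg : ∀ z : ℂ, g z.re ≤ z.im ∧ -g z.im ≤ z.re ∧ z.re ≤ 1 + g (1 - z.im) →
      W675.SqG.Reg g z := by
    rintro z ⟨k1, k2, k3⟩
    refine ⟨fun _ _ => k1, fun h => ⟨?_, ?_⟩, fun _ _ => ⟨k2, k3⟩, fun h => ⟨?_, ?_⟩⟩
    · rw [hg0 _ h.le] at k2; linarith
    · rw [hg1 _ (by linarith)] at k3; linarith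
    · rw [hg1 _ h] at k2; linarith
    · rw [hg0 _ (by linarith)] at k3; linarith
  have hc1 : c 1 = c 0 := by
    have := hper 0
    rwa [zero_add] at this
  obtain ⟨x, y, hx, hxy, hy, e1, e2⟩ := W675.SqG.lip_main (f := fun t => (c t - P) / w) hu0 hu1
    (by fun_prop)
    (by
      intro s hs t ht e
      have e' : c s = c t := by
        have := congrArg (fun z => P + z * w) e
        simpa only [hcc] using this
      rcases eq_or_lt_of_le hs.2 with hs1 | hs1 <;> rcases eq_or_lt_of_le ht.2 with ht1 | ht1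
      · rw [hs1, ht1]
      · exfalso
        rw [hs1, hc1] at e'
        have := hinj ⟨le_rfl, one_pos⟩ ⟨by linarith [ht.1], ht1⟩ e'
        linarith [ht.1]
      · exfalso
        rw [ht1, hc1] at e'
        have := hinj ⟨by linarith [hs.1], hs1⟩ ⟨le_rfl, one_pos⟩ e'
        linarith [hs.1]
      · exact hinj ⟨by linarith [hs.1], hs1⟩ ⟨by linarith [ht.1], ht1⟩ e')
    (by simp only [hc1, hP, sub_self, zero_div])
    (by simp only [hQ, add_sub_cancel_left]; exact div_self hw)
    hL hL3 (fun x _ y _ => hg x y) hM0 (fun x _ => hM x) (hg0 0 le_rfl) (hg1 1 le_rfl)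
    (by
      intro t ht x hx e
      obtain ⟨t', ht', e'⟩ := hG x hx
      have e2 : c t = c t' := by
        rw [e', ← hcc t, e]
        congr 2
        apply Complex.ext <;> simp
      have := hinj ⟨by linarith [ht.1], ht.2⟩ ⟨ht'.1, by linarith [ht'.2]⟩ e2
      linarith [ht'.2, ht.1])
    (fun t ht h => hReg _ (h1 t ht h)) (fun t ht h => hReg _ (h2 t ht h))
  obtain ⟨s, -, es⟩ := e1
  obtain ⟨r, -, er⟩ := e2
  simp only at es er
  have hs := hcc s
  have hr := hcc r
  rw [es] at hs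
  rw [er] at hr
  have hGx := hG x ⟨hx, by linarith⟩
  have hGy := hG y ⟨by linarith, hy⟩
  have ev : P + (x + g x * Complex.I) * w + ((y - x : ℝ) + (g y - g x : ℝ) * Complex.I) * w =
      P + (y + g y * Complex.I) * w := by
    push_cast; ring
  have hI : Complex.I * Complex.I = -1 := Complex.I_mul_I
  have mk : ∀ a b : ℝ, (⟨a, b⟩ : ℂ) = a + b * Complex.I := fun a b => by
    apply Complex.ext <;> simp
  refine ⟨P + (x + g x * Complex.I) * w, ((y - x : ℝ) + (g y - g x : ℝ) * Complex.I) * w, ?_,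
    ⟨x, ⟨hx, by linarith⟩, rfl⟩, ⟨y, ⟨by linarith, hy⟩, ev⟩, Set.image_subset_range _ _ hGx, ?_,
    ⟨r, ?_⟩, ⟨s, ?_⟩⟩
  · apply mul_ne_zero _ hw
    intro h
    have := congrArg Complex.re h
    simp at this
    linarith
  · rw [ev]
    exact Set.image_subset_range _ _ hGy
  · rw [ev, ← hr, mk]
    push_cast
    linear_combination (-(↑(g y) - ↑(g x)) * w) * hI
  · rw [← hs, mk]
    push_cast
    linear_combination (-(↑(g y) - ↑(g x)) * w) * hI

end Pool.Agent.Results.MP_5a3ebe_gt.LipschitzSide
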