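import Pool.Agent.H765R3.Peg.Conv

/-! Staircases of chords of a Jordan curve without inscribed squares. -/

set_option autoImplicit false
open Complex Set Topology Metric

namespace Pool.Agent.W675.Peg

open Pool.Agent.H763R2 Pool.Agent.H763R2.An Pool.Agent.H765R3.Peg
open Pool.Agent.H763R2.Dm (NoSq floor_const)

variable {c : ℝ → ℂ}

/-- `z` is on `C` or in an unbounded component of the complement of `C` -/
def Free (C : Set ℂ) (z : ℂ) : Prop :=
  z ∈ C ∨ ¬ Bornology.IsBounded (connectedComponentIn Cᶜ z)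

theorem mgc_le_of_free (L : Loop c) {z : ℂ} (h : Free (range c) z) : mgc c z ≤ 0 := by
  rcases h with h | h
  · exact ((mgc_sg L).zero L |>.2 h).le
  by_contra hpos
  push Not at hpos
  apply h
  have hzC : z ∈ (range c)ᶜ := fun hz => by
    rw [(mgc_sg L).zero L |>.2 hz] at hpos
    exact lt_irrefl _ hpos
  obtain ⟨R, hR⟩ := L.compact.isBounded.subset_closedBall 0
  refine (Metric.isBounded_closedBall (x := (0:ℂ)) (r := R)).subset fun w hw => ?_
  -- mgc is positive on the component
  have hcon : IsPreconnected (connectedComponentIn (range c)ᶜ z) := isPreconnected_connectedComponentIn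
  have hz : z ∈ connectedComponentIn (range c)ᶜ z := mem_connectedComponentIn hzC
  have hne : ∀ w ∈ connectedComponentIn (range c)ᶜ z, mgc c w ≠ 0 := fun w hw h0 =>
    (connectedComponentIn_subset _ _ hw) ((mgc_sg L).zero L |>.1 h0)
  have hw0 : 0 < mgc c w := by
    by_contra hneg
    push Not at hneg
    obtain ⟨v, hv, hv0⟩ := hcon.intermediate_value hw hz (mgc_sg L).cont.continuousOn
      (show (0:ℝ) ∈ Icc (mgc c w) (mgc c z) from ⟨hneg, hpos.le⟩)
    exact hne v hv hv0
  by_contra hball
  rw [mem_closedBall, dist_zero_right, not_le] at hball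
  have hR0 : 0 ≤ R := by
    have := hR (mem_range_self 0)
    rw [mem_closedBall, dist_zero_right] at this
    exact (norm_nonneg _).trans this
  have hw1 : w ≠ 0 := by
    rintro rfl
    rw [norm_zero] at hball
    linarith
  obtain ⟨s, hs, t, ht⟩ := ray L hw1 hw0.le
  have h1 := hR (mem_range_self t)
  rw [mem_closedBall, dist_zero_right, ht, show w + s * w = ((1 + s : ℝ) : ℂ) * w by
    push_cast; ring, norm_mul, norm_real, Real.norm_of_nonneg (by linarith)] at h1
  have := mul_nonneg hs (norm_nonneg w)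
  nlinarith

/-- along a path of chords with never both further vertices inside, the branch of the angle does
not change -/
theorem path_floor {θ : ℝ → ℝ → ℝ} {g : ℤ} (A : Ang c (mgc c) θ g) {p : ℝ → ℝ × ℝ}
    (hp : Continuous p) (hU : ∀ s, (p s).1 < (p s).2 ∧ (p s).2 < (p s).1 + 1)
    (h : ∀ s, mgc c (DD c (p s).1 (p s).2) ≤ 0 ∨ mgc c (CC c (p s).1 (p s).2) ≤ 0) (s t : ℝ) :
    ⌊(θ (p s).1 (p s).2 - Real.pi / 2) / (2 * Real.pi)⌋ =
      ⌊(θ (p t).1 (p t).2 - Real.pi / 2) / (2 * Real.pi)⌋ := by
  have hc : Continuous fun s => θ (p s).1 (p s).2 := A.path hp hU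
  refine floor_const (ψ := fun s => θ (p s).1 (p s).2 - Real.pi / 2) (hc.sub continuous_const)
    (fun s => ?_) s t
  rintro ⟨h1, h2⟩
  simp only [Real.sin_sub_pi_div_two, Real.cos_sub_pi_div_two] at h1 h2
  obtain ⟨ρ, hρ, e1, e2⟩ := A.ex _ _ (hU s).1 (hU s).2
  rcases h s with h | h
  · rw [e1] at h
    have := mul_pos hρ (show 0 < Real.cos (θ (p s).1 (p s).2) by linarith)
    linarith
  · rw [e2] at h
    have := mul_pos hρ h2
    linarith

/-- staircases of chords -/
theorem staircase (L : Loop c) (J : Inj c) (nosq : NoSq (range c)) (m : ℕ) (x y : ℕ → ℝ)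
    (hx : ∀ j < m, x j ≤ x (j + 1)) (hy : ∀ j < m, y j ≤ y (j + 1))
    (hxm : x m = x 0 + 1) (hym : y m = y 0 + 1)
    (h1 : ∀ j < m, x (j + 1) < y j) (h2 : ∀ j < m, y j < x j + 1)
    (hE : ∀ j < m, ∀ t ∈ Icc (x j) (x (j + 1)),
      mgc c (DD c t (y j)) ≤ 0 ∨ mgc c (CC c t (y j)) ≤ 0)
    (hD : ∀ j < m, ∀ t ∈ Icc (y j) (y (j + 1)),
      mgc c (DD c (x (j + 1)) t) ≤ 0 ∨ mgc c (CC c (x (j + 1)) t) ≤ 0) : False := by
  obtain ⟨θ, g, A, ho⟩ := exists_odd L J nosq
  have hπ := Real.pi_pos
  set F : ℝ → ℝ → ℤ := fun a b => ⌊(θ a b - Real.pi / 2) / (2 * Real.pi)⌋ with hF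
  have h2' : ∀ j ≤ m, y j < x j + 1 := by
    intro j hj
    rcases hj.lt_or_eq with h | h
    · exact h2 j h
    · rw [h, hym, hxm]
      rcases Nat.eq_zero_or_pos m with h0 | h0
      · rw [h0] at hxm; linarith
      · have := h2 0 h0; linarith
  have step : ∀ j < m, F (x j) (y j) = F (x (j + 1)) (y (j + 1)) := by
    intro j hj
    have a1 := hx j hj
    have a2 := hy j hj
    have a3 := h1 j hj
    have a4 := h2 j hj
    have a5 := h2' (j + 1) hj
    have s1 : F (x j) (y j) = F (x (j + 1)) (y j) := by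
      have := path_floor A (p := fun s => (max (x j) (min (x (j + 1)) s), y j)) (by fun_prop)
        (fun s => by
          simp only
          have b1 := le_max_left (x j) (min (x (j + 1)) s)
          have b2 : max (x j) (min (x (j + 1)) s) ≤ x (j + 1) := max_le a1 (min_le_left _ _)
          exact ⟨by linarith, by linarith⟩)
        (fun s => hE j hj _ ⟨le_max_left _ _, max_le a1 (min_le_left _ _)⟩) (x j) (x (j + 1))
      simp only [min_self, min_eq_right a1, max_self, max_eq_right a1] at this
      exact this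
    have s2 : F (x (j + 1)) (y j) = F (x (j + 1)) (y (j + 1)) := by
      have := path_floor A (p := fun s => (x (j + 1), max (y j) (min (y (j + 1)) s))) (by fun_prop)
        (fun s => by
          simp only
          have b1 := le_max_left (y j) (min (y (j + 1)) s)
          have b2 : max (y j) (min (y (j + 1)) s) ≤ y (j + 1) := max_le a2 (min_le_left _ _)
          exact ⟨by linarith, by linarith⟩)
        (fun s => hD j hj _ ⟨le_max_left _ _, max_le a2 (min_le_left _ _)⟩) (y j) (y (j + 1))
      simp only [min_self, min_eq_right a2, max_self, max_eq_right a2] at this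
      exact this
    exact s1.trans s2
  have all : ∀ j ≤ m, F (x 0) (y 0) = F (x j) (y j) := by
    intro j
    induction j with
    | zero => intro _; rfl
    | succ j ih => intro hj; exact (ih (by omega)).trans (step j hj)
  have h3 := all m le_rfl
  have m0 : 0 < m := by
    rcases Nat.eq_zero_or_pos m with h0 | h0
    · rw [h0] at hxm; linarith
    · exact h0
  have h4 : x 0 < y 0 := lt_of_le_of_lt (hx 0 m0) (h1 0 m0)
  rw [hxm, hym] at h3
  simp only [hF] at h3
  rw [A.per _ _ h4 (h2 0 m0)] at h3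
  have h5 : (θ (x 0) (y 0) + g * (2 * Real.pi) - Real.pi / 2) / (2 * Real.pi) =
      (θ (x 0) (y 0) - Real.pi / 2) / (2 * Real.pi) + g := by
    field_simp; ring
  rw [h5, Int.floor_add_intCast] at h3
  have h6 : g = 0 := by omega
  rw [h6] at ho
  exact absurd ho (by decide)

end Pool.Agent.W675.Peg
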