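import Pool.Agent.W675.PegA

/-! Two consequences of the staircase principle. -/

set_option autoImplicit false
open Complex Set Topology Metric

namespace Pool.Agent.W675.Peg

open Pool.Agent.H763R2 Pool.Agent.H763R2.An Pool.Agent.H765R3.Peg
open Pool.Agent.H763R2.Dm (NoSq floor_const)

variable {c : ℝ → ℂ}

theorem DD_eq (c : ℝ → ℂ) (x y : ℝ) : DD c x y = c x + I * (c y - c x) := by
  unfold DD Sq.Dv; ring

theorem CC_eq (c : ℝ → ℂ) (x y : ℝ) : CC c x y = c y + I * (c y - c x) := by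
  unfold CC Sq.Cv; ring

/-- an odd number of points and the opposite arcs -/
theorem opposite (L : Loop c) (J : Inj c) (nosq : NoSq (range c)) (k : ℕ) (hk : 1 ≤ k)
    (p : ℤ → ℝ) (hp : StrictMono p) (hpn : ∀ j : ℤ, p (j + (2 * k + 1)) = p j + 1)
    (h : ∀ j : ℤ, ∀ t ∈ Icc (p (j + k)) (p (j + k + 1)), ∀ ε : ℂ, ε = I ∨ ε = -I →
      mgc c (c (p j) + ε * (c t - c (p j))) ≤ 0 ∨ mgc c (c t + ε * (c t - c (p j))) ≤ 0) :
    False := by
  have hk' : (1 : ℤ) ≤ k := by exact_mod_cast hk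
  refine staircase L J nosq (2 * k + 1) (fun j => p (j + k)) (fun j => p (j + (2 * k + 1)))
    (fun j _ => hp.monotone (by push_cast; omega)) (fun j _ => hp.monotone (by push_cast; omega))
    ?_ ?_ (fun j _ => hp (by push_cast; omega)) (fun j _ => ?_) (fun j _ t ht => ?_)
    (fun j _ t ht => ?_)
  · have := hpn (k : ℤ)
    rw [← show ((0:ℕ) : ℤ) + k = k by simp] at this
    rw [← this]
    congr 1; push_cast; ring
  · have := hpn (2 * k + 1 : ℤ)
    simp only [Nat.cast_zero, zero_add]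
    rw [← this]
    congr 1
  · have := hpn (j + k : ℤ)
    rw [← this]
    exact hp (by omega)
  · rw [DD_eq, CC_eq]
    have e := hpn j
    rw [e, L.per]
    have e2 : ((j : ℕ) : ℤ) + k + 1 = ((j + 1 : ℕ) : ℤ) + k := by push_cast; ring
    have := h j t ⟨ht.1, by rw [e2]; exact ht.2⟩ (-I) (Or.inr rfl)
    rw [show c t + I * (c (p j) - c t) = c t + -I * (c t - c (p j)) by ring,
      show c (p j) + I * (c (p j) - c t) = c (p j) + -I * (c t - c (p j)) by ring]
    exact this.symm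
  · rw [DD_eq, CC_eq]
    have e1 : (j : ℤ) + (2 * k + 1) = (((j + 1 : ℕ) : ℤ) + k) + k := by push_cast; ring
    have e2 : ((j + 1 : ℕ) : ℤ) + (2 * k + 1) = (((j + 1 : ℕ) : ℤ) + k) + k + 1 := by
      push_cast; ring
    rw [e1, e2] at ht
    exact h _ t ht I (Or.inl rfl)

end Pool.Agent.W675.Peg
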