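import Pool.Agent.W675.PegB

/-! Jordan curves touching the four sides of a square. -/

set_option autoImplicit false
open Complex Set Topology Metric

namespace Pool.Agent.W675.Peg

open Pool.Agent.H763R2 Pool.Agent.H763R2.An Pool.Agent.H765R3.Peg
open Pool.Agent.H763R2.Dm (NoSq floor_const)

variable {c : ℝ → ℂ}

/-- a point from which some ray misses the curve, or begins on it, is not inside -/
theorem mgc_le_of_dir (L : Loop c) {z v : ℂ} (hv : v ≠ 0)
    (h : ∀ s : ℝ, 0 ≤ s → ∀ t, c t = z + s * v → s = 0) : mgc c z ≤ 0 := by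
  by_contra hpos
  push Not at hpos
  obtain ⟨s, hs, t, ht⟩ := ray L hv hpos.le
  have := h s hs t ht
  rw [this] at ht
  have h0 : mgc c z = 0 := ((mgc_sg L).zero L).2 ⟨t, by rw [ht]; simp⟩
  rw [h0] at hpos
  exact lt_irrefl _ hpos

theorem mgc_le_left (L : Loop c) {a : ℝ} (h : ∀ t, a ≤ (c t).re) {z : ℂ} (hz : z.re ≤ a) :
    mgc c z ≤ 0 := by
  refine mgc_le_of_dir L (v := -1) (by simp) fun s hs t ht => ?_
  have h1 := h t
  rw [ht] at h1
  simp at h1
  linarith

theorem mgc_le_right (L : Loop c) {a : ℝ} (h : ∀ t, (c t).re ≤ a) {z : ℂ} (hz : a ≤ z.re) :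
    mgc c z ≤ 0 := by
  refine mgc_le_of_dir L (v := 1) (by simp) fun s hs t ht => ?_
  have h1 := h t
  rw [ht] at h1
  simp at h1
  linarith

theorem mgc_le_below (L : Loop c) {a : ℝ} (h : ∀ t, a ≤ (c t).im) {z : ℂ} (hz : z.im ≤ a) :
    mgc c z ≤ 0 := by
  refine mgc_le_of_dir L (v := -I) (by simp) fun s hs t ht => ?_
  have h1 := h t
  rw [ht] at h1
  simp at h1
  linarith

theorem mgc_le_above (L : Loop c) {a : ℝ} (h : ∀ t, (c t).im ≤ a) {z : ℂ} (hz : a ≤ z.im) :
    mgc c z ≤ 0 := by
  refine mgc_le_of_dir L (v := I) (by simp) fun s hs t ht => ?_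
  have h1 := h t
  rw [ht] at h1
  simp at h1
  linarith

/-- the theorem on curves touching the four sides of a rectangle -/
theorem four_sides (L : Loop c) (J : Inj c) (nosq : NoSq (range c)) (a b : ℝ)
    (box : ∀ u, 0 ≤ (c u).re ∧ (c u).re ≤ a ∧ 0 ≤ (c u).im ∧ (c u).im ≤ b)
    (pS pR pT pL : ℝ) (h1 : pS < pR) (h2 : pR < pT) (h3 : pT < pL) (h4 : pL < pS + 1)
    (hS : (c pS).im = 0) (hR : (c pR).re = a) (hT : (c pT).im = b) (hL : (c pL).re = 0)
    (hRT : ∀ u ∈ Icc pR pT,
      ((c pS).re ≤ (c u).re ∨ a - (c pS).re ≤ (c u).im ∨ b - (c pS).re ≤ (c u).im - (c u).re) ∧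
      ((c pL).im ≤ (c u).im ∨ b - (c pL).im ≤ (c u).re ∨ a - (c pL).im ≤ (c u).re - (c u).im))
    (hTL : ∀ u ∈ Icc pT pL,
      ((c pR).im ≤ (c u).im ∨ (c u).re ≤ a - b + (c pR).im ∨ (c u).re + (c u).im ≤ (c pR).im) ∧
      ((c u).re ≤ (c pS).re ∨ (c pS).re ≤ (c u).im ∨ b + (c pS).re ≤ (c u).re + (c u).im))
    (hLS : ∀ u ∈ Icc pL (pS + 1),
      ((c u).re ≤ (c pT).re ∨ (c u).im ≤ b - (c pT).re ∨ (c pT).re ≤ (c u).re - (c u).im) ∧
      ((c u).im ≤ (c pR).im ∨ (c u).re ≤ a - (c pR).im ∨ (c pR).im ≤ (c u).im - (c u).re))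
    (hSR : ∀ u ∈ Icc pS pR,
      ((c u).im ≤ (c pL).im ∨ (c pL).im ≤ (c u).re ∨ a + (c pL).im ≤ (c u).re + (c u).im) ∧
      ((c pT).re ≤ (c u).re ∨ (c u).im ≤ b - a + (c pT).re ∨ (c u).re + (c u).im ≤ (c pT).re)) :
    False := by
  have bl : ∀ z : ℂ, z.re ≤ 0 → mgc c z ≤ 0 := fun z hz => mgc_le_left L (fun t => (box t).1) hz
  have br : ∀ z : ℂ, a ≤ z.re → mgc c z ≤ 0 := fun z hz =>
    mgc_le_right L (fun t => (box t).2.1) hz
  have bb : ∀ z : ℂ, z.im ≤ 0 → mgc c z ≤ 0 := fun z hz =>
    mgc_le_below L (fun t => (box t).2.2.1) hz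
  have bt : ∀ z : ℂ, b ≤ z.im → mgc c z ≤ 0 := fun z hz =>
    mgc_le_above L (fun t => (box t).2.2.2) hz
  have pS1 : c (pS + 1) = c pS := L.per _
  have pR1 : c (pR + 1) = c pR := L.per _
  have pT1 : c (pT + 1) = c pT := L.per _
  have pL1 : c (pL + 1) = c pL := L.per _
  have shift : ∀ t, c (t - 1) = c t := fun t => by
    have := L.per (t - 1); rw [sub_add_cancel] at this; exact this.symm
  refine staircase L J nosq 4 (fun j => [pR, pT, pL, pS + 1, pR + 1].getD j 0)
    (fun j => [pS + 1, pR + 1, pT + 1, pL + 1, pS + 1 + 1].getD j 0) ?_ ?_ ?_ ?_ ?_ ?_ ?_ ?_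
  · intro j hj
    interval_cases j <;> simp <;> linarith
  · intro j hj
    interval_cases j <;> simp <;> linarith
  · simp
  · simp
  · intro j hj
    interval_cases j <;> simp <;> linarith
  · intro j hj
    interval_cases j <;> simp <;> linarith
  · intro j hj t ht
    interval_cases j <;> simp only [List.getD_cons_zero, List.getD_cons_succ] at ht ⊢ <;>
      rw [DD_eq, CC_eq]
    · -- chord from the arc RT to S
      rw [pS1]
      rcases (hRT t ht).1 with e | e | e
      · right; apply bb; simp [hS]; linarith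
      · right; apply br; simp [hS]; linarith
      · left; apply bt; simp [hS]; linarith
    · -- chord from the arc TL to R
      rw [pR1]
      rcases (hTL t ht).1 with e | e | e
      · right; apply br; simp [hR]; linarith
      · right; apply bt; simp [hR]; linarith
      · left; apply bl; simp [hR]; linarith
    · -- chord from the arc LS to T
      rw [pT1]
      rcases (hLS t ht).1 with e | e | e
      · right; apply bt; simp [hT]; linarith
      · right; apply bl; simp [hT]; linarith
      · left; apply bb; simp [hT]; linarith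
    · -- chord from the arc SR to L
      rw [pL1]
      have e := (hSR (t - 1) ⟨by linarith [ht.1], by linarith [ht.2]⟩).1
      rw [shift] at e
      rcases e with e | e | e
      · right; apply bl; simp [hL]; linarith
      · right; apply bb; simp [hL]; linarith
      · left; apply br; simp [hL]; linarith
  · intro j hj t ht
    interval_cases j <;> simp only [List.getD_cons_zero, List.getD_cons_succ] at ht ⊢ <;>
      rw [DD_eq, CC_eq]
    · -- chord from T to the arc SR
      have e := (hSR (t - 1) ⟨by linarith [ht.1], by linarith [ht.2]⟩).2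
      rw [shift] at e
      rcases e with e | e | e
      · left; apply bt; simp [hT]; linarith
      · left; apply br; simp [hT]; linarith
      · right; apply bb; simp [hT]; linarith
    · -- chord from L to the arc RT
      have e := (hRT (t - 1) ⟨by linarith [ht.1], by linarith [ht.2]⟩).2
      rw [shift] at e
      rcases e with e | e | e
      · left; apply bl; simp [hL]; linarith
      · left; apply bt; simp [hL]; linarith
      · right; apply br; simp [hL]; linarith
    · -- chord from S to the arc TL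
      rw [pS1]
      have e := (hTL (t - 1) ⟨by linarith [ht.1], by linarith [ht.2]⟩).2
      rw [shift] at e
      rcases e with e | e | e
      · left; apply bb; simp [hS]; linarith
      · left; apply bl; simp [hS]; linarith
      · right; apply bt; simp [hS]; linarith
    · -- chord from R to the arc LS
      rw [pR1]
      have e := (hLS (t - 1) ⟨by linarith [ht.1], by linarith [ht.2]⟩).2
      rw [shift] at e
      rcases e with e | e | e
      · left; apply br; simp [hR]; linarith
      · left; apply bb; simp [hR]; linarith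
      · right; apply bl; simp [hR]; linarith

end Pool.Agent.W675.Peg
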