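import Pool.Agent.Helper475.Miranda

/-! Squares on a flat side of a curve. -/

set_option autoImplicit false
open Complex Set Topology Metric

namespace Pool.Agent.W675.Flat

/-- the crossing lemma -/
theorem cross {f : ℝ → ℂ} (hf : Continuous f) {u t1 t2 H : ℝ} (a1 : u ≤ t1) (a3 : t2 ≤ 1)
    (b1 : ∀ s ∈ Icc u t1, 0 ≤ (f s).re ∧ (f s).re ≤ 1)
    (b2 : ∀ s ∈ Icc t2 1, 0 ≤ (f s).im ∧ (f s).im ≤ H)
    (c0 : f 1 = 0) (c1 : (f u).im = 0) (c2 : (f t1).im = H) (c3 : (f t2).im = H)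
    (c4 : 0 ≤ (f t2).re) (H0 : 0 ≤ H)
    (key : ∀ s ∈ Icc u t1, (f s).im = H → (f s).re ≤ (f t2).re + H) :
    ∃ s ∈ Icc u t1, ∃ r ∈ Icc t2 1, (f s).im = (f r).im ∧ (f s).re = (f r).re + (f r).im := by
  set S : ℝ → ℝ := fun x => u + (t1 - u) * x with hS
  set R : ℝ → ℝ := fun x => 1 - (1 - t2) * min 1 (2 * x) with hR
  have mS : ∀ x, 0 ≤ x → x ≤ 1 → S x ∈ Icc u t1 := fun x h0 h1 => by
    simp only [hS]
    constructor <;> nlinarith
  have mR : ∀ x, 0 ≤ x → x ≤ 1 → R x ∈ Icc t2 1 := fun x h0 h1 => by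
    simp only [hR]
    have e0 : 0 ≤ min 1 (2 * x) := le_min zero_le_one (by linarith)
    have e1 : min 1 (2 * x) ≤ 1 := min_le_left _ _
    constructor <;> nlinarith
  have cS : Continuous S := by fun_prop
  have cR : Continuous R := by fun_prop
  obtain ⟨x, hx, hF⟩ := Pool.Agent.Helper475.Miranda.poincare_miranda 2
    (fun x => ![(f (S (x 0))).im - (f (R (x 1))).im,
      (f (R (x 1))).re + (f (R (x 1))).im + max 0 (2 * x 1 - 1) - (f (S (x 0))).re])
    (by
      apply Continuous.continuousOn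
      refine continuous_pi fun i => ?_
      fin_cases i
      · simp only [Fin.zero_eta, Matrix.cons_val_zero]
        exact (continuous_im.comp (hf.comp (cS.comp (continuous_apply 0)))).sub
          (continuous_im.comp (hf.comp (cR.comp (continuous_apply 1))))
      · simp only [Fin.mk_one, Matrix.cons_val_one]
        have g1 := hf.comp (cR.comp (continuous_apply (A := fun _ : Fin 2 => ℝ) 1))
        have g2 := hf.comp (cS.comp (continuous_apply (A := fun _ : Fin 2 => ℝ) 0))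
        exact (((continuous_re.comp g1).add (continuous_im.comp g1)).add (by fun_prop)).sub
          (continuous_re.comp g2))
    (by
      intro x hx i hi
      fin_cases i
      · simp only [Fin.zero_eta, Matrix.cons_val_zero] at hi ⊢
        have e : S (x 0) = u := by simp [hS, hi]
        rw [e, c1]
        have := (b2 _ (mR _ (hx 1).1 (hx 1).2)).1
        linarith
      · simp only [Fin.mk_one, Matrix.cons_val_one] at hi ⊢
        have e : R (x 1) = 1 := by simp [hR, hi]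
        rw [e, c0, hi]
        have := (b1 _ (mS _ (hx 0).1 (hx 0).2)).1
        simp
        linarith)
    (by
      intro x hx i hi
      fin_cases i
      · simp only [Fin.zero_eta, Matrix.cons_val_zero] at hi ⊢
        have e : S (x 0) = t1 := by simp [hS, hi]
        rw [e, c2]
        have := (b2 _ (mR _ (hx 1).1 (hx 1).2)).2
        linarith
      · simp only [Fin.mk_one, Matrix.cons_val_one, Matrix.cons_val_fin_one] at hi ⊢
        have e : R (x 1) = t2 := by simp [hR, hi]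
        rw [e, hi, c3]
        have := (b1 _ (mS _ (hx 0).1 (hx 0).2)).2
        have h5 : max (0:ℝ) (2 * 1 - 1) = 1 := by norm_num
        rw [h5]
        linarith)
  have e0 := congrFun hF 0
  have e1 := congrFun hF 1
  simp only [Matrix.cons_val_zero, Matrix.cons_val_one, Pi.zero_apply] at e0 e1
  have ms := mS _ (hx 0).1 (hx 0).2
  have mr := mR _ (hx 1).1 (hx 1).2
  rcases le_or_gt (2 * x 1) 1 with h | h
  · rw [max_eq_left (by linarith)] at e1
    exact ⟨_, ms, _, mr, by linarith, by linarith⟩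
  · exfalso
    have e : R (x 1) = t2 := by simp only [hR]; rw [min_eq_left h.le]; ring
    rw [e, c3] at e0 e1
    rw [max_eq_right (by linarith)] at e1
    have := key _ ms (by linarith)
    linarith


/-- a common core of both cases -/
theorem core {f : ℝ → ℂ} (hf : Continuous f) {u t1 t2 H : ℝ} (a1 : u < t1) (a2 : t1 ≤ t2)
    (a3 : t2 < 1) (H0 : 0 < H)
    (b1 : ∀ s ∈ Icc u t1, 0 ≤ (f s).re ∧ (f s).re ≤ 1)
    (b2 : ∀ s ∈ Icc t2 1, 0 ≤ (f s).im ∧ (f s).im ≤ H)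
    (b3 : ∀ s ∈ Icc t2 1, 0 ≤ (f s).re)
    (b4 : ∀ s ∈ Icc t2 1, (f s).re ≤ 1)
    (c0 : f 1 = 0) (c1 : f u = 1) (c2 : (f t1).im = H) (c3 : (f t2).im = H)
    (off : ∀ t ∈ Ioo u 1, ¬ ((f t).im = 0 ∧ 0 ≤ (f t).re ∧ (f t).re ≤ 1))
    (key : ∀ s ∈ Icc u t1, (f s).im = H → (f s).re ≤ (f t2).re + H) :
    ∃ s ∈ Icc u 1, ∃ r ∈ Icc u 1, 0 < (f r).im ∧ 0 ≤ (f r).re ∧ (f r).re + (f r).im ≤ 1 ∧
      (f s).im = (f r).im ∧ (f s).re = (f r).re + (f r).im := by
  obtain ⟨s, hs, r, hr, e1, e2⟩ := cross hf a1.le a3.le b1 b2 c0 (by rw [c1]; simp) c2 c3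
    (b3 t2 ⟨le_rfl, a3.le⟩) H0.le key
  refine ⟨s, ⟨hs.1, by linarith [hs.2]⟩, r, ⟨by linarith [hr.1], hr.2⟩, ?_, b3 r hr, ?_, e1, e2⟩
  · rcases (b2 r hr).1.lt_or_eq with h | h
    · exact h
    exfalso
    rcases hr.2.lt_or_eq with h' | h'
    · exact off r ⟨by linarith [hr.1], h'⟩ ⟨h.symm, b3 r hr, b4 r hr⟩
    · rw [h', c0] at e1 e2
      simp at e1 e2
      rcases hs.1.lt_or_eq with h'' | h''
      · exact off s ⟨h'', by linarith [hs.2]⟩ ⟨e1, by rw [e2], by rw [e2]; exact zero_le_one⟩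
      · rw [← h'', c1] at e2
        simp at e2
  · rw [← e2]; exact (b1 s hs).2

/-- the square on the flat side -/
theorem flat_main {f : ℝ → ℂ} (hf : Continuous f) {u : ℝ} (hu1 : u < 1)
    (c0 : f 1 = 0) (c1 : f u = 1)
    (off : ∀ t ∈ Ioo u 1, ¬ ((f t).im = 0 ∧ 0 ≤ (f t).re ∧ (f t).re ≤ 1))
    (h1 : ∀ t ∈ Icc u 1, (∀ s ∈ Icc u t, (f s).im < 1) →
      0 ≤ (f t).re ∧ (f t).re ≤ 1 ∧ 0 ≤ (f t).im)
    (h2 : ∀ t ∈ Icc u 1, (∀ s ∈ Icc t 1, (f s).im < 1) →
      0 ≤ (f t).re ∧ (f t).re ≤ 1 ∧ 0 ≤ (f t).im) :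
    ∃ s ∈ Icc u 1, ∃ r ∈ Icc u 1, 0 < (f r).im ∧ 0 ≤ (f r).re ∧ (f r).re + (f r).im ≤ 1 ∧
      (f s).im = (f r).im ∧ (f s).re = (f r).re + (f r).im := by
  have cim : Continuous fun t => (f t).im := continuous_im.comp hf
  have cre : Continuous fun t => (f t).re := continuous_re.comp hf
  by_cases hK : ∃ t ∈ Icc u 1, 1 ≤ (f t).im
  · -- the curve reaches the opposite side
    set K : Set ℝ := Icc u 1 ∩ {t | 1 ≤ (f t).im} with hKdef
    have cK : IsCompact K := isCompact_Icc.inter_right (isClosed_le continuous_const cim)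
    have nK : K.Nonempty := by
      obtain ⟨t, h1, h2⟩ := hK; exact ⟨t, h1, h2⟩
    obtain ⟨t1, ht1, m1⟩ := cK.exists_isMinOn nK continuousOn_id
    obtain ⟨t2, ht2, m2⟩ := cK.exists_isMaxOn nK continuousOn_id
    have m1' : ∀ t ∈ K, t1 ≤ t := fun t ht => m1 ht
    have m2' : ∀ t ∈ K, t ≤ t2 := fun t ht => m2 ht
    have u1 : u < t1 := by
      rcases ht1.1.1.lt_or_eq with h | h
      · exact h
      · have := ht1.2
        rw [mem_ofPred_eq, ← h, c1] at this
        simp at this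
        linarith
    have u2 : t2 < 1 := by
      rcases ht2.1.2.lt_or_eq with h | h
      · exact h
      · have := ht2.2
        rw [mem_ofPred_eq, h, c0] at this
        simp at this
        linarith
    have lt1 : ∀ s ∈ Icc u 1, s < t1 → (f s).im < 1 := fun s hs h => by
      by_contra hc
      push Not at hc
      linarith [m1' s ⟨hs, hc⟩]
    have lt2 : ∀ s ∈ Icc u 1, t2 < s → (f s).im < 1 := fun s hs h => by
      by_contra hc
      push Not at hc
      linarith [m2' s ⟨hs, hc⟩]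
    have in1 : ∀ s ∈ Ico u t1, 0 ≤ (f s).re ∧ (f s).re ≤ 1 ∧ 0 ≤ (f s).im ∧ (f s).im ≤ 1 := by
      intro s hs
      have hs1 : s ∈ Icc u 1 := ⟨hs.1, by linarith [hs.2, ht1.1.2]⟩
      obtain ⟨g1, g2, g3⟩ := h1 s hs1
        (fun r hr => lt1 r ⟨hr.1, by linarith [hr.2, hs.2, ht1.1.2]⟩ (by linarith [hr.2, hs.2]))
      exact ⟨g1, g2, g3, (lt1 s hs1 hs.2).le⟩
    have in2 : ∀ s ∈ Ioc t2 1, 0 ≤ (f s).re ∧ (f s).re ≤ 1 ∧ 0 ≤ (f s).im ∧ (f s).im ≤ 1 := by
      intro s hs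
      have hs1 : s ∈ Icc u 1 := ⟨by linarith [hs.1, ht2.1.1], hs.2⟩
      obtain ⟨g1, g2, g3⟩ := h2 s hs1
        (fun r hr => lt2 r ⟨by linarith [hr.1, hs.1, ht2.1.1], hr.2⟩ (by linarith [hr.1, hs.1]))
      exact ⟨g1, g2, g3, (lt2 s hs1 hs.1).le⟩
    have clS : IsClosed {t | 0 ≤ (f t).re ∧ (f t).re ≤ 1 ∧ 0 ≤ (f t).im ∧ (f t).im ≤ 1} :=
      (isClosed_le continuous_const cre).inter ((isClosed_le cre continuous_const).inter
        ((isClosed_le continuous_const cim).inter (isClosed_le cim continuous_const)))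
    have in1' : ∀ s ∈ Icc u t1, 0 ≤ (f s).re ∧ (f s).re ≤ 1 ∧ 0 ≤ (f s).im ∧ (f s).im ≤ 1 := by
      intro s hs
      rw [← closure_Ico u1.ne] at hs
      exact (clS.closure_subset_iff.2 in1) hs
    have in2' : ∀ s ∈ Icc t2 1, 0 ≤ (f s).re ∧ (f s).re ≤ 1 ∧ 0 ≤ (f s).im ∧ (f s).im ≤ 1 := by
      intro s hs
      rw [← closure_Ioc u2.ne] at hs
      exact (clS.closure_subset_iff.2 in2) hs
    have e1 : (f t1).im = 1 := le_antisymm (in1' t1 ⟨u1.le, le_rfl⟩).2.2.2 ht1.2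
    have e2 : (f t2).im = 1 := le_antisymm (in2' t2 ⟨le_rfl, u2.le⟩).2.2.2 ht2.2
    refine core hf u1 (m1' t2 ht2) u2 one_pos (fun s hs => ⟨(in1' s hs).1, (in1' s hs).2.1⟩)
      (fun s hs => (in2' s hs).2.2) (fun s hs => (in2' s hs).1) (fun s hs => (in2' s hs).2.1)
      c0 c1 e1 e2 off (fun s hs _ => ?_)
    have := (in1' s hs).2.1
    have := (in2' t2 ⟨le_rfl, u2.le⟩).1
    linarith
  · -- the curve stays in the square
    push Not at hK
    have inS : ∀ s ∈ Icc u 1, 0 ≤ (f s).re ∧ (f s).re ≤ 1 ∧ 0 ≤ (f s).im := fun s hs =>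
      h1 s hs (fun r hr => hK r ⟨hr.1, by linarith [hr.2, hs.2]⟩)
    obtain ⟨tm, htm, hmax⟩ := (isCompact_Icc (a := u) (b := 1)).exists_isMaxOn
      (nonempty_Icc.2 hu1.le) cim.continuousOn
    have hmax' : ∀ s ∈ Icc u 1, (f s).im ≤ (f tm).im := fun s hs => hmax hs
    set M := (f tm).im with hM
    have M0 : 0 < M := by
      have hmid : (u + 1) / 2 ∈ Ioo u 1 := ⟨by linarith, by linarith⟩
      have h3 := inS _ ⟨hmid.1.le, hmid.2.le⟩
      have h4 := hmax' _ ⟨hmid.1.le, hmid.2.le⟩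
      rcases h3.2.2.lt_or_eq with h | h
      · linarith
      · exact absurd ⟨h.symm, h3.1, h3.2.1⟩ (off _ hmid)
    set K : Set ℝ := Icc u 1 ∩ {t | (f t).im = M} with hKdef
    have cK : IsCompact K := isCompact_Icc.inter_right (isClosed_eq cim continuous_const)
    obtain ⟨t, ht, mt⟩ := cK.exists_isMaxOn ⟨tm, htm, rfl⟩ cre.continuousOn
    have mt' : ∀ s ∈ K, (f s).re ≤ (f t).re := fun s hs => mt hs
    have et : (f t).im = M := ht.2
    have ut : u < t := by
      rcases ht.1.1.lt_or_eq with h | h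
      · exact h
      · rw [← h, c1] at et
        simp at et
        linarith
    have t1 : t < 1 := by
      rcases ht.1.2.lt_or_eq with h | h
      · exact h
      · rw [h, c0] at et
        simp at et
        linarith
    refine core hf ut le_rfl t1 M0
      (fun s hs => ⟨(inS s ⟨hs.1, by linarith [hs.2]⟩).1, (inS s ⟨hs.1, by linarith [hs.2]⟩).2.1⟩)
      (fun s hs => ⟨(inS s ⟨by linarith [hs.1], hs.2⟩).2.2, hmax' s ⟨by linarith [hs.1], hs.2⟩⟩)
      (fun s hs => (inS s ⟨by linarith [hs.1], hs.2⟩).1)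
      (fun s hs => (inS s ⟨by linarith [hs.1], hs.2⟩).2.1) c0 c1 et et off
      (fun s hs h => ?_)
    have := mt' s ⟨⟨hs.1, by linarith [hs.2]⟩, h⟩
    linarith

end Pool.Agent.W675.Flat
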