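import Mathlib

/-! The squares over the chords of a Lipschitz graph: the map `A` from pairs of points of the graph to
the upper left vertices is a homeomorphism of the plane. -/

set_option autoImplicit false
open Set Filter Topology MeasureTheory

namespace Pool.Agent.W675.SqG

/-- `L`-Lipschitz -/
def Lip (L : ℝ) (g : ℝ → ℝ) : Prop := ∀ x y, |g x - g y| ≤ L * |x - y|

theorem Lip.cont {L : ℝ} {g : ℝ → ℝ} (h : Lip L g) (hL : 0 ≤ L) : Continuous g := by
  have : LipschitzWith ⟨L, hL⟩ g := LipschitzWith.of_dist_le_mul fun x y => by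
    rw [Real.dist_eq, Real.dist_eq]; exact h x y
  exact this.continuous

/-- upper left vertex of the square over the chord from `(s, g s)` to `(t, g t)` -/
def mA (g : ℝ → ℝ) (q : ℝ × ℝ) : ℝ × ℝ := (q.1 - g q.2 + g q.1, g q.1 + q.2 - q.1)
/-- upper right vertex -/
def mB (g : ℝ → ℝ) (q : ℝ × ℝ) : ℝ × ℝ := (q.2 - g q.2 + g q.1, g q.2 + q.2 - q.1)

/-- the function whose zero is `s` -/
def eqn (g : ℝ → ℝ) (x y s : ℝ) : ℝ := s + g s - x - g (s - g s + y)

theorem eqn_mono {L : ℝ} {g : ℝ → ℝ} (h : Lip L g) (hL : 0 ≤ L) (x y : ℝ) {s s' : ℝ}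
    (hs : s ≤ s') : (1 - 2 * L - L ^ 2) * (s' - s) ≤ eqn g x y s' - eqn g x y s := by
  unfold eqn
  have h1 := h s' s
  have h2 := h (s' - g s' + y) (s - g s + y)
  have e : s' - g s' + y - (s - g s + y) = (s' - s) - (g s' - g s) := by ring
  rw [e] at h2
  rw [abs_of_nonneg (by linarith : 0 ≤ s' - s)] at h1
  have h3 : |s' - s - (g s' - g s)| ≤ (s' - s) + L * (s' - s) := by
    refine (abs_sub _ _).trans ?_
    rw [abs_of_nonneg (by linarith : 0 ≤ s' - s)]
    linarith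
  have h4 : L * |s' - s - (g s' - g s)| ≤ L * ((s' - s) + L * (s' - s)) :=
    mul_le_mul_of_nonneg_left h3 hL
  have h5 := (abs_le.1 h1).1
  have h6 := (abs_le.1 (h2.trans h4)).2
  nlinarith

theorem eqn_cont {L : ℝ} {g : ℝ → ℝ} (h : Lip L g) (hL : 0 ≤ L) (x y : ℝ) :
    Continuous (eqn g x y) := by
  have := h.cont hL
  unfold eqn
  fun_prop

theorem exists_root {L : ℝ} {g : ℝ → ℝ} (h : Lip L g) (hL : 0 ≤ L) (hL2 : 2 * L + L ^ 2 < 1)
    (x y : ℝ) : ∃ s, eqn g x y s = 0 := by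
  set κ := 1 - 2 * L - L ^ 2 with hκ
  have hκ0 : 0 < κ := by rw [hκ]; linarith
  set M := |eqn g x y 0| / κ with hM
  have hM0 : 0 ≤ M := by positivity
  have hMκ : κ * M = |eqn g x y 0| := by rw [hM]; field_simp
  have h1 : 0 ≤ eqn g x y M := by
    have := eqn_mono h hL x y hM0
    rw [← hκ, sub_zero, hMκ] at this
    have := neg_abs_le (eqn g x y 0)
    linarith
  have h2 : eqn g x y (-M) ≤ 0 := by
    have := eqn_mono h hL x y (neg_nonpos.2 hM0)
    rw [← hκ, zero_sub, neg_neg, hMκ] at this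
    have := le_abs_self (eqn g x y 0)
    linarith
  obtain ⟨s, -, hs⟩ := intermediate_value_Icc (by linarith : -M ≤ M)
    (eqn_cont h hL x y).continuousOn ⟨h2, h1⟩
  exact ⟨s, hs⟩

theorem mA_inj {L : ℝ} {g : ℝ → ℝ} (h : Lip L g) (hL : 0 ≤ L) (hL2 : 2 * L + L ^ 2 < 1) :
    Function.Injective (mA g) := by
  rintro ⟨s, t⟩ ⟨s', t'⟩ e
  simp only [mA, Prod.mk.injEq] at e
  obtain ⟨e1, e2⟩ := e
  have k1 : eqn g (s - g t + g s) (g s + t - s) s = 0 := by
    unfold eqn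
    have : s - g s + (g s + t - s) = t := by ring
    rw [this]; ring
  have k2 : eqn g (s - g t + g s) (g s + t - s) s' = 0 := by
    unfold eqn
    rw [e2, e1]
    have : s' - g s' + (g s' + t' - s') = t' := by ring
    rw [this]; ring
  have : s = s' := by
    rcases le_total s s' with hs | hs
    · have := eqn_mono h hL (s - g t + g s) (g s + t - s) hs
      rw [k1, k2] at this
      nlinarith
    · have := eqn_mono h hL (s - g t + g s) (g s + t - s) hs
      rw [k1, k2] at this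
      nlinarith
  subst this
  have : t = t' := by linarith
  rw [this]

theorem mA_surj {L : ℝ} {g : ℝ → ℝ} (h : Lip L g) (hL : 0 ≤ L) (hL2 : 2 * L + L ^ 2 < 1) :
    Function.Surjective (mA g) := by
  rintro ⟨x, y⟩
  obtain ⟨s, hs⟩ := exists_root h hL hL2 x y
  refine ⟨(s, s - g s + y), ?_⟩
  unfold eqn at hs
  simp only [mA, Prod.mk.injEq]
  constructor <;> linarith

/-- expansion -/
theorem mA_exp {L : ℝ} {g : ℝ → ℝ} (h : Lip L g) (hL : 0 ≤ L) (hL2 : 2 * L + L ^ 2 < 1)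
    (q q' : ℝ × ℝ) : (1 - 2 * L - L ^ 2) * dist q q' ≤ 4 * dist (mA g q) (mA g q') := by
  obtain ⟨s, t⟩ := q
  obtain ⟨s', t'⟩ := q'
  simp only [mA, Prod.dist_eq, Real.dist_eq]
  set X := |s - g t + g s - (s' - g t' + g s')| with hX
  set Y := |g s + t - s - (g s' + t' - s')| with hY
  have hκ0 : 0 < 1 - 2 * L - L ^ 2 := by linarith
  have hL1 : L < 1 := by nlinarith
  have a1 := h s s'
  have a2 := h t t'
  have hXle : X ≤ max X Y := le_max_left _ _
  have hYle : Y ≤ max X Y := le_max_right _ _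
  -- t - t' = (s - s') - (g s - g s') ± Y
  have b1 : |t - t'| ≤ Y + (1 + L) * |s - s'| := by
    have e : t - t' = (g s + t - s - (g s' + t' - s')) + (s - s') - (g s - g s') := by ring
    rw [e]
    refine (abs_sub _ _).trans ?_
    refine (add_le_add (abs_add_le _ _) a1).trans ?_
    rw [← hY]; linarith
  have b2 : |s - s'| ≤ X + L * |t - t'| + L * |s - s'| := by
    have e : s - s' = (s - g t + g s - (s' - g t' + g s')) + (g t - g t') - (g s - g s') := by ring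
    have : |s - s'| ≤ X + |g t - g t'| + |g s - g s'| := by
      conv_lhs => rw [e]
      refine (abs_sub _ _).trans ?_
      refine add_le_add ?_ le_rfl
      exact (abs_add_le _ _).trans le_rfl
    linarith
  have b3 : (1 - 2 * L - L ^ 2) * |s - s'| ≤ X + L * Y := by
    have : L * |t - t'| ≤ L * (Y + (1 + L) * |s - s'|) := mul_le_mul_of_nonneg_left b1 hL
    nlinarith
  have hX0 : 0 ≤ X := abs_nonneg _
  have hY0 : 0 ≤ Y := abs_nonneg _
  have c1 : (1 - 2 * L - L ^ 2) * |s - s'| ≤ 2 * max X Y := by nlinarith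
  have c2 : (1 - 2 * L - L ^ 2) * |t - t'| ≤ 4 * max X Y := by
    have : (1 - 2 * L - L ^ 2) * |t - t'| ≤
        (1 - 2 * L - L ^ 2) * (Y + (1 + L) * |s - s'|) := mul_le_mul_of_nonneg_left b1 hκ0.le
    have h3 : (1 + L) * ((1 - 2 * L - L ^ 2) * |s - s'|) ≤ (1 + L) * (X + L * Y) :=
      mul_le_mul_of_nonneg_left b3 (by linarith)
    have hL3 : L < 1 / 2 := by nlinarith
    have h4 : (1 + L) * (X + L * Y) ≤ 9 / 4 * max X Y := by
      have : (1 + L) * (X + L * Y) ≤ (3 / 2) * (max X Y + 1 / 2 * max X Y) := by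
        apply mul_le_mul (by linarith) _ (by positivity) (by norm_num)
        nlinarith
      linarith
    have h5 : (1 - 2 * L - L ^ 2) * Y ≤ max X Y := by nlinarith [sq_nonneg L]
    nlinarith
  have hm : (1 - 2 * L - L ^ 2) * max |s - s'| |t - t'| =
      max ((1 - 2 * L - L ^ 2) * |s - s'|) ((1 - 2 * L - L ^ 2) * |t - t'|) :=
    mul_max_of_nonneg _ _ hκ0.le
  rw [hm]
  refine max_le ?_ c2
  have : 0 ≤ max X Y := hX0.trans hXle
  linarith

theorem mA_cont {L : ℝ} {g : ℝ → ℝ} (h : Lip L g) (hL : 0 ≤ L) : Continuous (mA g) := by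
  have := h.cont hL
  unfold mA
  fun_prop

/-- the homeomorphism -/
noncomputable def hA {L : ℝ} {g : ℝ → ℝ} (h : Lip L g) (hL : 0 ≤ L) (hL2 : 2 * L + L ^ 2 < 1) :
    (ℝ × ℝ) ≃ₜ (ℝ × ℝ) where
  toEquiv := Equiv.ofBijective (mA g) ⟨mA_inj h hL hL2, mA_surj h hL hL2⟩
  continuous_toFun := mA_cont h hL
  continuous_invFun := by
    have hκ0 : 0 < 1 - 2 * L - L ^ 2 := by linarith
    refine (LipschitzWith.of_dist_le_mul (K := ⟨4 / (1 - 2 * L - L ^ 2), by positivity⟩) ?_).continuous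
    intro p p'
    obtain ⟨q, rfl⟩ := mA_surj h hL hL2 p
    obtain ⟨q', rfl⟩ := mA_surj h hL hL2 p'
    have e : ∀ q, (Equiv.ofBijective (mA g) ⟨mA_inj h hL hL2, mA_surj h hL hL2⟩).invFun (mA g q) = q :=
      fun q => (Equiv.ofBijective (mA g) ⟨mA_inj h hL hL2, mA_surj h hL hL2⟩).left_inv q
    rw [e, e]
    have := mA_exp h hL hL2 q q'
    show dist q q' ≤ 4 / (1 - 2 * L - L ^ 2) * dist (mA g q) (mA g q')
    rw [div_mul_eq_mul_div, le_div_iff₀ hκ0]
    linarith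

theorem hA_apply {L : ℝ} {g : ℝ → ℝ} (h : Lip L g) (hL : 0 ≤ L) (hL2 : 2 * L + L ^ 2 < 1)
    (q : ℝ × ℝ) : hA h hL hL2 q = mA g q := rfl

theorem Lip.refl {L : ℝ} {g : ℝ → ℝ} (h : Lip L g) : Lip L (fun x => g (-x)) := by
  intro x y
  have := h (-x) (-y)
  rwa [show -x - -y = -(x - y) by ring, abs_neg] at this

/-- reflection -/
def rho : (ℝ × ℝ) ≃ₜ (ℝ × ℝ) := (Homeomorph.neg ℝ).prodCongr (Homeomorph.refl ℝ)

/-- `(s, t) ↦ (-t, -s)` -/
def sig : (ℝ × ℝ) ≃ₜ (ℝ × ℝ) :=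
  (Homeomorph.prodComm ℝ ℝ).trans ((Homeomorph.neg ℝ).prodCongr (Homeomorph.neg ℝ))

/-- the homeomorphism for the upper right vertices -/
noncomputable def hB {L : ℝ} {g : ℝ → ℝ} (h : Lip L g) (hL : 0 ≤ L) (hL2 : 2 * L + L ^ 2 < 1) :
    (ℝ × ℝ) ≃ₜ (ℝ × ℝ) := (sig.trans (hA h.refl hL hL2)).trans rho

theorem hB_apply {L : ℝ} {g : ℝ → ℝ} (h : Lip L g) (hL : 0 ≤ L) (hL2 : 2 * L + L ^ 2 < 1)
    (q : ℝ × ℝ) : hB h hL hL2 q = mB g q := by
  obtain ⟨s, t⟩ := q
  show rho (hA h.refl hL hL2 (sig (s, t))) = _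
  rw [hA_apply]
  simp only [mA, mB, rho, sig]
  ext
  · simp; ring
  · simp; ring

end Pool.Agent.W675.SqG
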