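import Pool.Agent.W675.SqA

/-! The two maps have the same Jacobian, so the map from upper left to upper right vertices preserves
the area. -/

set_option autoImplicit false
open Set Filter Topology MeasureTheory

namespace Pool.Agent.W675.SqG

noncomputable def dA (a b : ℝ) : (ℝ × ℝ) →L[ℝ] (ℝ × ℝ) :=
  (ContinuousLinearMap.fst ℝ ℝ ℝ - b • ContinuousLinearMap.snd ℝ ℝ ℝ
    + a • ContinuousLinearMap.fst ℝ ℝ ℝ).prod
  (a • ContinuousLinearMap.fst ℝ ℝ ℝ + ContinuousLinearMap.snd ℝ ℝ ℝ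
    - ContinuousLinearMap.fst ℝ ℝ ℝ)

noncomputable def dB (a b : ℝ) : (ℝ × ℝ) →L[ℝ] (ℝ × ℝ) :=
  (ContinuousLinearMap.snd ℝ ℝ ℝ - b • ContinuousLinearMap.snd ℝ ℝ ℝ
    + a • ContinuousLinearMap.fst ℝ ℝ ℝ).prod
  (b • ContinuousLinearMap.snd ℝ ℝ ℝ + ContinuousLinearMap.snd ℝ ℝ ℝ
    - ContinuousLinearMap.fst ℝ ℝ ℝ)

theorem det_dA (a b : ℝ) : (dA a b).det = 1 + a - b + a * b := by
  rw [ContinuousLinearMap.det, ← LinearMap.det_toMatrix (Module.Basis.finTwoProd ℝ),
    Matrix.det_fin_two]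
  simp [LinearMap.toMatrix_apply, dA]
  ring

theorem det_dB (a b : ℝ) : (dB a b).det = 1 + a - b + a * b := by
  rw [ContinuousLinearMap.det, ← LinearMap.det_toMatrix (Module.Basis.finTwoProd ℝ),
    Matrix.det_fin_two]
  simp [LinearMap.toMatrix_apply, dB]
  ring

theorem hasD_A {g : ℝ → ℝ} {q : ℝ × ℝ} {a b : ℝ} (ha : HasDerivAt g a q.1)
    (hb : HasDerivAt g b q.2) : HasFDerivAt (mA g) (dA a b) q := by
  have f1 : HasFDerivAt (fun q : ℝ × ℝ => g q.1) (a • ContinuousLinearMap.fst ℝ ℝ ℝ) q :=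
    ha.comp_hasFDerivAt q hasFDerivAt_fst
  have f2 : HasFDerivAt (fun q : ℝ × ℝ => g q.2) (b • ContinuousLinearMap.snd ℝ ℝ ℝ) q :=
    hb.comp_hasFDerivAt q hasFDerivAt_snd
  exact ((hasFDerivAt_fst.sub f2).add f1).prodMk ((f1.add hasFDerivAt_snd).sub hasFDerivAt_fst)

theorem hasD_B {g : ℝ → ℝ} {q : ℝ × ℝ} {a b : ℝ} (ha : HasDerivAt g a q.1)
    (hb : HasDerivAt g b q.2) : HasFDerivAt (mB g) (dB a b) q := by
  have f1 : HasFDerivAt (fun q : ℝ × ℝ => g q.1) (a • ContinuousLinearMap.fst ℝ ℝ ℝ) q :=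
    ha.comp_hasFDerivAt q hasFDerivAt_fst
  have f2 : HasFDerivAt (fun q : ℝ × ℝ => g q.2) (b • ContinuousLinearMap.snd ℝ ℝ ℝ) q :=
    hb.comp_hasFDerivAt q hasFDerivAt_snd
  exact ((hasFDerivAt_snd.sub f2).add f1).prodMk ((f2.add hasFDerivAt_snd).sub hasFDerivAt_fst)

/-- the bad set -/
def bad (g : ℝ → ℝ) : Set (ℝ × ℝ) := {q | ¬ (DifferentiableAt ℝ g q.1 ∧ DifferentiableAt ℝ g q.2)}

theorem bad_null {L : ℝ} {g : ℝ → ℝ} (h : Lip L g) (hL : 0 ≤ L) : volume (bad g) = 0 := by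
  have hl : LipschitzWith ⟨L, hL⟩ g := LipschitzWith.of_dist_le_mul fun x y => by
    rw [Real.dist_eq, Real.dist_eq]; exact h x y
  have h0 : volume {x : ℝ | ¬ DifferentiableAt ℝ g x} = 0 := ae_iff.1 hl.ae_differentiableAt
  have : bad g ⊆ ({x : ℝ | ¬ DifferentiableAt ℝ g x} ×ˢ univ) ∪
      (univ ×ˢ {x : ℝ | ¬ DifferentiableAt ℝ g x}) := by
    rintro ⟨s, t⟩ hq
    simp only [bad, mem_ofPred_eq, not_and_or] at hq
    rcases hq with h | h
    · exact Or.inl ⟨h, mem_univ _⟩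
    · exact Or.inr ⟨mem_univ _, h⟩
  refine measure_mono_null this (measure_union_null ?_ ?_)
  · rw [Measure.volume_eq_prod, Measure.prod_prod, h0, zero_mul]
  · rw [Measure.volume_eq_prod, Measure.prod_prod, h0, mul_zero]

theorem null_image {f : ℝ × ℝ → ℝ × ℝ} {K : NNReal} (hf : LipschitzWith K f) {E : Set (ℝ × ℝ)}
    (hE : volume E = 0) : volume (f '' E) = 0 := by
  rw [← hausdorffMeasure_prod_real] at hE ⊢
  have := (hf.lipschitzOnWith (s := E)).hausdorffMeasure_image_le (d := 2) (by norm_num)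
  rw [hE, mul_zero] at this
  exact le_antisymm this bot_le

theorem lip_A {L : ℝ} {g : ℝ → ℝ} (h : Lip L g) (hL : 0 ≤ L) :
    ∃ K : NNReal, LipschitzWith K (mA g) := by
  have hl : LipschitzWith ⟨L, hL⟩ g := LipschitzWith.of_dist_le_mul fun x y => by
    rw [Real.dist_eq, Real.dist_eq]; exact h x y
  have h1 := hl.comp (LipschitzWith.prod_fst (α := ℝ) (β := ℝ))
  have h2 := hl.comp (LipschitzWith.prod_snd (α := ℝ) (β := ℝ))
  exact ⟨_, ((LipschitzWith.prod_fst.sub h2).add h1).prodMk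
    ((h1.add LipschitzWith.prod_snd).sub LipschitzWith.prod_fst)⟩

theorem lip_B {L : ℝ} {g : ℝ → ℝ} (h : Lip L g) (hL : 0 ≤ L) :
    ∃ K : NNReal, LipschitzWith K (mB g) := by
  have hl : LipschitzWith ⟨L, hL⟩ g := LipschitzWith.of_dist_le_mul fun x y => by
    rw [Real.dist_eq, Real.dist_eq]; exact h x y
  have h1 := hl.comp (LipschitzWith.prod_fst (α := ℝ) (β := ℝ))
  have h2 := hl.comp (LipschitzWith.prod_snd (α := ℝ) (β := ℝ))
  exact ⟨_, ((LipschitzWith.prod_snd.sub h2).add h1).prodMk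
    ((h2.add LipschitzWith.prod_snd).sub LipschitzWith.prod_fst)⟩

/-- area of the image -/
theorem area_image {f : ℝ × ℝ → ℝ × ℝ} {K : NNReal} (hf : LipschitzWith K f)
    (hinj : Function.Injective f) {g : ℝ → ℝ} {f' : ℝ → ℝ → ((ℝ × ℝ) →L[ℝ] (ℝ × ℝ))}
    (hd : ∀ q : ℝ × ℝ, DifferentiableAt ℝ g q.1 → DifferentiableAt ℝ g q.2 →
      HasFDerivAt f (f' (deriv g q.1) (deriv g q.2)) q)
    (hbad : volume (bad g) = 0) {E : Set (ℝ × ℝ)} (hE : MeasurableSet E) :
    volume (f '' E) = ∫⁻ q in E, ENNReal.ofReal |(f' (deriv g q.1) (deriv g q.2)).det| := by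
  set N := toMeasurable volume (bad g) with hN
  have hN0 : volume N = 0 := by rw [hN, measure_toMeasurable, hbad]
  have hNm : MeasurableSet N := measurableSet_toMeasurable _ _
  have hsub : bad g ⊆ N := subset_toMeasurable _ _
  have h1 : volume (f '' (E \ N)) =
      ∫⁻ q in E \ N, ENNReal.ofReal |(f' (deriv g q.1) (deriv g q.2)).det| := by
    symm
    apply lintegral_abs_det_fderiv_eq_addHaar_image (μ := volume) (hE.diff hNm)
    · intro q hq
      have : q ∉ bad g := fun h => hq.2 (hsub h)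
      simp only [bad, mem_ofPred_eq, not_not] at this
      exact (hd q this.1 this.2).hasFDerivWithinAt
    · exact hinj.injOn
  have h2 : volume (f '' E) = volume (f '' (E \ N)) := by
    apply le_antisymm
    · have : f '' E ⊆ f '' (E \ N) ∪ f '' N := by
        rw [← image_union]
        apply image_mono
        intro q hq
        by_cases h : q ∈ N
        · exact Or.inr h
        · exact Or.inl ⟨hq, h⟩
      refine (measure_mono this).trans ((measure_union_le _ _).trans ?_)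
      rw [null_image hf hN0, add_zero]
    · exact measure_mono (image_mono sdiff_subset)
  rw [h2, h1]
  apply setLIntegral_congr
  exact sdiff_null_ae_eq_self hN0

/-- the map from upper left to upper right vertices -/
noncomputable def phi {L : ℝ} {g : ℝ → ℝ} (h : Lip L g) (hL : 0 ≤ L) (hL2 : 2 * L + L ^ 2 < 1) :
    (ℝ × ℝ) ≃ₜ (ℝ × ℝ) := (hA h hL hL2).symm.trans (hB h hL hL2)

theorem phi_area {L : ℝ} {g : ℝ → ℝ} (h : Lip L g) (hL : 0 ≤ L) (hL2 : 2 * L + L ^ 2 < 1)
    {E : Set (ℝ × ℝ)} (hE : MeasurableSet E) : volume (phi h hL hL2 '' E) = volume E := by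
  set S := (hA h hL hL2).symm '' E with hS
  have hSm : MeasurableSet S := by
    rw [hS, ← Homeomorph.preimage_symm, Homeomorph.symm_symm]
    exact (hA h hL hL2).measurable hE
  have e1 : phi h hL hL2 '' E = mB g '' S := by
    rw [hS, image_image]
    apply image_congr
    intro q _
    rw [← hB_apply h hL hL2]
    rfl
  have e2 : E = mA g '' S := by
    rw [hS, image_image]
    have : (fun x => mA g ((hA h hL hL2).symm x)) = fun x => x := by
      funext x
      rw [← hA_apply h hL hL2]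
      exact (hA h hL hL2).apply_symm_apply x
    rw [this, image_id']
  obtain ⟨KA, hKA⟩ := lip_A h hL
  obtain ⟨KB, hKB⟩ := lip_B h hL
  have hBinj : Function.Injective (mB g) := by
    have : mB g = hB h hL hL2 := by funext q; rw [hB_apply]
    rw [this]; exact (hB h hL hL2).injective
  conv_rhs => rw [e2]
  rw [e1, area_image hKB hBinj (f' := dB) (fun q h1 h2 => hasD_B h1.hasDerivAt h2.hasDerivAt)
    (bad_null h hL) hSm, area_image hKA (mA_inj h hL hL2) (f' := dA)
    (fun q h1 h2 => hasD_A h1.hasDerivAt h2.hasDerivAt) (bad_null h hL) hSm]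
  simp only [det_dA, det_dB]

/-- description of `phi` -/
theorem phi_spec {L : ℝ} {g : ℝ → ℝ} (h : Lip L g) (hL : 0 ≤ L) (hL2 : 2 * L + L ^ 2 < 1)
    (p : ℝ × ℝ) : ∃ s t : ℝ, p = mA g (s, t) ∧ phi h hL hL2 p = mB g (s, t) := by
  obtain ⟨⟨s, t⟩, rfl⟩ := mA_surj h hL hL2 p
  refine ⟨s, t, rfl, ?_⟩
  show hB h hL hL2 ((hA h hL hL2).symm (mA g (s, t))) = _
  rw [← hA_apply h hL hL2, Homeomorph.symm_apply_apply, hB_apply]

/-- above the graph means `s < t` -/
theorem above_iff {L : ℝ} {g : ℝ → ℝ} (h : Lip L g) (hL : 0 ≤ L) (hL2 : 2 * L + L ^ 2 < 1)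
    (s t : ℝ) : (g (mA g (s, t)).1 < (mA g (s, t)).2 ↔ s < t) ∧
      (g (mB g (s, t)).1 < (mB g (s, t)).2 ↔ s < t) := by
  have hL1 : L * L < 1 := by nlinarith
  have a1 := h t s
  have b1 := h s (mA g (s, t)).1
  have b2 := h t (mB g (s, t)).1
  simp only [mA, mB] at *
  rw [show s - (s - g t + g s) = g t - g s by ring] at b1
  rw [show t - (t - g t + g s) = g t - g s by ring] at b2
  have c : L * |g t - g s| ≤ L * (L * |t - s|) := mul_le_mul_of_nonneg_left a1 hL
  have c1 := abs_le.1 (b1.trans c)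
  have c2 := abs_le.1 (b2.trans c)
  have d : L * (L * |t - s|) = (L * L) * |t - s| := by ring
  rw [d] at c1 c2
  constructor
  · constructor
    · intro hh
      by_contra hst
      push Not at hst
      rw [abs_of_nonpos (by linarith : t - s ≤ 0)] at c1
      nlinarith [mul_nonneg (by linarith : 0 ≤ 1 - L * L) (by linarith : 0 ≤ s - t)]
    · intro hst
      rw [abs_of_pos (by linarith : 0 < t - s)] at c1
      nlinarith [mul_pos (by linarith : 0 < 1 - L * L) (by linarith : 0 < t - s)]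
  · constructor
    · intro hh
      by_contra hst
      push Not at hst
      rw [abs_of_nonpos (by linarith : t - s ≤ 0)] at c2
      nlinarith [mul_nonneg (by linarith : 0 ≤ 1 - L * L) (by linarith : 0 ≤ s - t)]
    · intro hst
      rw [abs_of_pos (by linarith : 0 < t - s)] at c2
      nlinarith [mul_pos (by linarith : 0 < 1 - L * L) (by linarith : 0 < t - s)]

theorem phi_graph {L : ℝ} {g : ℝ → ℝ} (h : Lip L g) (hL : 0 ≤ L) (hL2 : 2 * L + L ^ 2 < 1)
    (x : ℝ) : phi h hL hL2 (x, g x) = (x, g x) := by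
  have e : mA g (x, x) = (x, g x) := by simp [mA]
  have e2 : mB g (x, x) = (x, g x) := by simp [mB]
  have : phi h hL hL2 (mA g (x, x)) = mB g (x, x) := by
    show hB h hL hL2 ((hA h hL hL2).symm (mA g (x, x))) = _
    rw [← hA_apply h hL hL2, Homeomorph.symm_apply_apply, hB_apply]
  rwa [e, e2] at this

theorem phi_above {L : ℝ} {g : ℝ → ℝ} (h : Lip L g) (hL : 0 ≤ L) (hL2 : 2 * L + L ^ 2 < 1)
    (p : ℝ × ℝ) : g (phi h hL hL2 p).1 < (phi h hL hL2 p).2 ↔ g p.1 < p.2 := by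
  obtain ⟨s, t, rfl, e⟩ := phi_spec h hL hL2 p
  rw [e, (above_iff h hL hL2 s t).1, (above_iff h hL hL2 s t).2]

end Pool.Agent.W675.SqG
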