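import Pool.Agent.Helper265.JcF
import Pool.Agent.H763R2.An.G

/-! Facts on Jordan curves: crossing a curve changes the winding number; the boundary of the inside is
the whole curve; two Jordan domains of the same area. -/

set_option autoImplicit false
open Complex Set Filter Topology MeasureTheory Metric

namespace Pool.Agent.W675.SqG

open Pool.Agent.H763R2.An Pool.Agent.Helper265.Br

/-- Two Jordan domains of the same area: if the boundary of the first one lies in the closure of the
second one, it does not meet the second one. -/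
theorem pair {γ γ' : Circle → ℂ} (hγ : Continuous γ) (hi : Function.Injective γ)
    (hγ' : Continuous γ') (hi' : Function.Injective γ') {D D' : Set ℂ}
    (hDo : IsOpen D) (hDc : IsConnected D) (hDb : Bornology.IsBounded D) (hfr : frontier D = range γ)
    (hDo' : IsOpen D') (hDc' : IsConnected D') (hDb' : Bornology.IsBounded D')
    (hfr' : frontier D' = range γ') (hvol : volume D = volume D')
    (hsub : range γ ⊆ closure D') {x : ℂ} (hx : x ∈ range γ) (hx' : x ∈ D') : False := by
  obtain ⟨-, -, h3⟩ := jordan_facts hγ hi hDo hDc hDb hfr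
  obtain ⟨k1, k2, k3⟩ := jordan_facts hγ' hi' hDo' hDc' hDb' hfr'
  -- the exterior of `D'` does not meet `D`
  have hEsub : (closure D')ᶜ ⊆ D ∪ (closure D)ᶜ := by
    intro z hz
    by_contra hcon
    rw [mem_union, not_or, mem_compl_iff, not_not] at hcon
    apply hz
    apply hsub
    rw [← hfr, hDo.frontier_eq]
    exact ⟨hcon.2, hcon.1⟩
  have hdis : Disjoint D (closure D)ᶜ := by
    rw [Set.disjoint_left]
    intro z hz hz'
    exact hz' (subset_closure hz)
  have hnD : Disjoint (closure D')ᶜ D := by
    rw [Set.disjoint_left]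
    intro z hz hzD
    apply k2
    refine hDb.subset ?_
    exact IsPreconnected.subset_left_of_subset_union hDo isClosed_closure.isOpen_compl hdis hEsub
      ⟨z, hz, hzD⟩ k1.isPreconnected
  have hDD' : D ⊆ D' := by
    intro z hz
    by_contra hzD
    have h5 := k3 hzD
    rw [_root_.mem_closure_iff] at h5
    obtain ⟨w, hw, hw'⟩ := h5 D hDo hz
    exact Set.disjoint_left.1 hnD hw' hw
  have hxD : x ∉ D := by
    rw [← hfr, hDo.frontier_eq] at hx
    exact hx.2
  have h6 := h3 hxD
  rw [_root_.mem_closure_iff] at h6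
  have hop : IsOpen (D' ∩ (closure D)ᶜ) := hDo'.inter isClosed_closure.isOpen_compl
  have hpos : 0 < volume (D' ∩ (closure D)ᶜ) := hop.measure_pos volume (h6 D' hDo' hx')
  have hfin : volume D ≠ ⊤ := hDb.measure_lt_top.ne
  have h7 : volume D + volume (D' ∩ (closure D)ᶜ) ≤ volume D' := by
    rw [← measure_union (by
      rw [Set.disjoint_left]
      intro z hz hz'
      exact hz'.2 (subset_closure hz)) hop.measurableSet]
    exact measure_mono (union_subset hDD' inter_subset_left)
  rw [← hvol] at h7
  have h8 : volume D + volume (D' ∩ (closure D)ᶜ) ≤ volume D + 0 := by simpa using h7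
  have := (ENNReal.add_le_add_iff_left hfin).1 h8
  exact absurd hpos (not_lt.2 this)

/-- The boundary of a bounded open set in the complement of a Jordan curve with boundary in the curve
is the whole curve. -/
theorem frontier_all {c : ℝ → ℂ} (L : Loop c) (J : Inj c) {D : Set ℂ} (hDo : IsOpen D)
    (hDn : D.Nonempty) (hDb : Bornology.IsBounded D) (hdis : Disjoint D (range c))
    (hfr : frontier D ⊆ range c) : frontier D = range c := by
  apply Subset.antisymm hfr
  rintro _ ⟨t0, rfl⟩
  by_contra hq
  have hc := L.cont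
  have hper : Function.Periodic c 1 := L.per
  have hop : IsOpen (c ⁻¹' (frontier D)ᶜ) := isClosed_frontier.isOpen_compl.preimage hc
  obtain ⟨ε, hε, hball⟩ := Metric.isOpen_iff.1 hop t0 hq
  set η := min ε (1 / 2) with hη
  have hη0 : 0 < η := lt_min hε (by norm_num)
  have hη1 : η ≤ 1 / 2 := min_le_right _ _
  have hηε : η ≤ ε := min_le_left _ _
  -- the arc
  set d : ℝ → ℂ := fun s => c (t0 + η / 2 + s) with hd
  have hdc : Continuous d := by rw [hd]; fun_prop
  have hinj : InjOn d (Icc 0 (1 - η)) := by
    intro x hx y hy hxy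
    rcases lt_trichotomy x y with h | h | h
    · exact absurd hxy (J _ _ (by linarith) (by linarith [hx.1, hy.2]))
    · exact h
    · exact absurd hxy.symm (J _ _ (by linarith) (by linarith [hy.1, hx.2]))
  have hconn := arc_conn (γ := d) (c := 1 - η) (by linarith) hdc.continuousOn hinj
  have hKsub : frontier D ⊆ d '' Icc 0 (1 - η) := by
    intro z hz
    obtain ⟨t, rfl⟩ := hfr hz
    -- move `t` to `[t0, t0 + 1)`
    obtain ⟨n, hn, -⟩ := existsUnique_add_zsmul_mem_Ico (one_pos : (0:ℝ) < 1) t t0
    have ec : c (t + n • (1:ℝ)) = c t := hper.zsmul n t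
    set t' := t + n • (1:ℝ) with ht'
    rw [← ec] at hz ⊢
    by_cases h1 : t' < t0 + η / 2
    · exfalso
      have : t' ∈ ball t0 ε := by
        rw [mem_ball, Real.dist_eq, abs_of_nonneg (by linarith [hn.1])]
        linarith
      exact hball this hz
    · by_cases h2 : t0 + 1 - η / 2 < t'
      · exfalso
        have : t' - 1 ∈ ball t0 ε := by
          rw [mem_ball, Real.dist_eq, abs_of_neg (by linarith [hn.2])]
          linarith
        have h3 := hball this
        have : c (t' - 1) = c t' := by
          have := hper (t' - 1)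
          rwa [sub_add_cancel, eq_comm] at this
        rw [mem_preimage, this] at h3
        exact h3 hz
      · push Not at h1 h2
        refine ⟨t' - (t0 + η / 2), ⟨by linarith, by linarith⟩, ?_⟩
        rw [hd]
        simp only
        congr 1
        ring
  have hKc : IsCompact (d '' Icc 0 (1 - η)) := isCompact_Icc.image hdc
  have hDK : D ⊆ (d '' Icc 0 (1 - η))ᶜ := by
    intro z hz hz'
    obtain ⟨s, -, rfl⟩ := hz'
    exact Set.disjoint_left.1 hdis hz ⟨_, rfl⟩
  have hall : (d '' Icc 0 (1 - η))ᶜ ⊆ D := by
    have hcov : (d '' Icc 0 (1 - η))ᶜ ⊆ D ∪ (closure D)ᶜ := by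
      intro z hz
      by_contra hcon
      rw [mem_union, not_or, mem_compl_iff, not_not] at hcon
      apply hz
      apply hKsub
      rw [hDo.frontier_eq]
      exact ⟨hcon.2, hcon.1⟩
    have hdis2 : Disjoint D (closure D)ᶜ := by
      rw [Set.disjoint_left]
      intro z hz hz'
      exact hz' (subset_closure hz)
    obtain ⟨z, hz⟩ := hDn
    exact IsPreconnected.subset_left_of_subset_union hDo isClosed_closure.isOpen_compl hdis2 hcov
      ⟨z, hDK hz, hz⟩ hconn.isPreconnected
  have : Bornology.IsBounded (univ : Set ℂ) := by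
    rw [← union_compl_self (d '' Icc 0 (1 - η))]
    exact hKc.isBounded.union (hDb.subset hall)
  exact absurd this (NormedSpace.unbounded_univ ℝ ℂ)

/-- the two points next to a crossing have different winding numbers -/
theorem crossing {c : ℝ → ℂ} (L : Loop c) {t0 δ : ℝ} (h0 : 0 < t0) (h1 : t0 < 1) (hδ : 0 < δ)
    (hseg : ∀ t ∈ Icc (0:ℝ) 1, t ≠ t0 → (c t).re = (c t0).re → δ < |(c t).im - (c t0).im|)
    (hr : ∀ᶠ t in 𝓝[>] t0, (c t0).re < (c t).re) (hl : ∀ᶠ t in 𝓝[<] t0, (c t).re < (c t0).re)
    {n : ℤ} (hp : IsWc c (c t0 + δ * I) n) (hm : IsWc c (c t0 - δ * I) n) : False := by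
  obtain ⟨k, hk, ek, e⟩ := hp
  obtain ⟨k', hk', ek', e'⟩ := hm
  set K : ℝ → ℂ := fun t => k t - k' t with hK
  have hKc : Continuous K := hk.sub hk'
  have hK01 : K 1 = K 0 := by
    simp only [hK]
    have : k 1 - k 0 = k' 1 - k' 0 := by rw [e, e']
    linear_combination this
  have hKe : ∀ t, exp (K t) * (c t - (c t0 - δ * I)) = c t - (c t0 + δ * I) := by
    intro t
    simp only [hK]
    rw [exp_sub, ek, ek', div_mul_cancel₀]
    rw [← ek']
    exact exp_ne_zero _
  -- real and imaginary part of exp K, multiplied by the square of the norm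
  have hKri : ∀ t, exp (K t) * (normSq (c t - (c t0 - δ * I)) : ℂ) =
      ((normSq (c t - c t0) - δ * δ : ℝ) : ℂ) - 2 * δ * ((c t - c t0).re : ℂ) * I := by
    intro t
    rw [normSq_eq_conj_mul_self, mul_comm ((starRingEnd ℂ) _), ← mul_assoc, hKe]
    apply Complex.ext
    · simp [normSq_apply]; ring
    · simp [normSq_apply]; ring
  have hnorm : ∀ t, 0 < normSq (c t - (c t0 - δ * I)) := by
    intro t
    rw [normSq_pos]
    rw [← ek']
    exact exp_ne_zero _
  set y0 := (K t0).im with hy0
  -- at `t0` the value of exp is -1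
  have hcos0 : Real.cos y0 = -1 := by
    have h2 := hKe t0
    have h3 : c t0 - (c t0 - δ * I) = δ * I := by ring
    have h4 : c t0 - (c t0 + δ * I) = -(δ * I) := by ring
    rw [h3, h4] at h2
    have hδI : (δ * I : ℂ) ≠ 0 := by simp [hδ.ne']
    have h5 : exp (K t0) = -1 := by
      have : exp (K t0) * (δ * I) = -1 * (δ * I) := by rw [h2]; ring
      exact mul_right_cancel₀ hδI this
    have h6 := congrArg Complex.re h5
    have h7 := congrArg Complex.im h5
    rw [exp_re] at h6
    rw [exp_im] at h7
    simp at h6 h7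
    have h8 : Real.sin y0 = 0 := by rw [hy0]; exact h7
    have h9 := Real.sin_sq_add_cos_sq y0
    rw [h8] at h9
    have h10 : Real.cos y0 < 0 := by
      by_contra hcon
      push Not at hcon
      have := mul_nonneg (Real.exp_pos (K t0).re).le hcon
      rw [hy0] at this
      linarith
    nlinarith
  have hsin0 : Real.sin y0 = 0 := by
    have := Real.sin_sq_add_cos_sq y0
    rw [hcos0] at this
    nlinarith
  -- the value y0 of the imaginary part is not attained at other times
  have hno : ∀ t ∈ Icc (0:ℝ) 1, t ≠ t0 → (K t).im ≠ y0 := by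
    intro t ht hne hcon
    have h2 := hKri t
    have h3 := congrArg Complex.im h2
    have h4 := congrArg Complex.re h2
    simp only [mul_im, mul_re, ofReal_im, ofReal_re, exp_im, exp_re, sub_im, sub_re, I_re, I_im] at h3 h4
    rw [hcon, hsin0] at h3
    rw [hcon, hcos0] at h4
    simp at h3 h4
    have h5 : (c t).re = (c t0).re := by
      rcases h3 with h3 | h3
      · exact absurd h3 hδ.ne'
      · linarith
    have h6 := hseg t ht hne h5
    have h7 : normSq (c t - c t0) < δ * δ := by
      have := mul_pos (Real.exp_pos (K t).re) (hnorm t)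
      linarith
    rw [normSq_apply] at h7
    simp only [sub_re, sub_im, h5, sub_self, mul_zero, zero_add] at h7
    have h8 := abs_lt_of_sq_lt_sq (a := (c t).im - (c t0).im) (b := δ) (by nlinarith) hδ.le
    linarith
  -- direction of the crossing
  have hsgn : ∀ t, Real.exp (K t).re * Real.sin (K t).im * normSq (c t - (c t0 - δ * I)) =
      - (2 * δ * ((c t).re - (c t0).re)) := by
    intro t
    have h3 := congrArg Complex.im (hKri t)
    simp only [mul_im, mul_re, ofReal_im, ofReal_re, exp_im, exp_re, sub_im, sub_re, I_re, I_im] at h3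
    simp at h3
    linarith
  have hnear : ∀ᶠ t in 𝓝 t0, |(K t).im - y0| < Real.pi := by
    have : Continuous fun t => |(K t).im - y0| := by fun_prop
    have h2 := this.tendsto t0
    simp only [hy0, sub_self, abs_zero] at h2
    exact h2.eventually (gt_mem_nhds Real.pi_pos)
  have hsinε : ∀ t, Real.sin (K t).im = - Real.sin ((K t).im - y0) := by
    intro t
    have : (K t).im = y0 + ((K t).im - y0) := by ring
    conv_lhs => rw [this, Real.sin_add, hsin0, hcos0]
    ring
  have hright : y0 < (K 1).im := by
    by_contra hcon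
    push Not at hcon
    have h2 : ∀ᶠ t in 𝓝[>] t0, t < 1 := by
      filter_upwards [Ioo_mem_nhdsGT h1] with t ht using ht.2
    have h3 : ∀ᶠ t in 𝓝[>] t0, t0 < t := eventually_mem_nhdsWithin
    obtain ⟨t, a1, a2, a3, a4⟩ :=
      (hr.and (h2.and (h3.and (hnear.filter_mono nhdsWithin_le_nhds)))).exists
    have a5 : y0 < (K t).im := by
      by_contra hc
      push Not at hc
      have h4 := hsgn t
      have h5 : Real.sin ((K t).im - y0) ≤ 0 :=
        Real.sin_nonpos_of_nonpos_of_neg_pi_le (by linarith) (by linarith [(abs_lt.1 a4).1])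
      have h6 : 0 ≤ Real.sin (K t).im := by rw [hsinε]; linarith
      have h7 : 0 ≤ Real.exp (K t).re * Real.sin (K t).im * normSq (c t - (c t0 - δ * I)) :=
        mul_nonneg (mul_nonneg (Real.exp_pos _).le h6) (normSq_nonneg _)
      rw [h4] at h7
      have : 0 < δ * ((c t).re - (c t0).re) := mul_pos hδ (by linarith)
      linarith
    obtain ⟨s, hs, hs'⟩ := intermediate_value_Icc' a2.le
      (f := fun t => (K t).im) (by fun_prop) ⟨hcon, a5.le⟩
    exact hno s ⟨by linarith [hs.1], hs.2⟩ (by linarith [hs.1] : t0 < s).ne' hs'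
  have hleft : (K 0).im < y0 := by
    by_contra hcon
    push Not at hcon
    have h2 : ∀ᶠ t in 𝓝[<] t0, 0 < t := by
      filter_upwards [Ioo_mem_nhdsLT h0] with t ht using ht.1
    have h3 : ∀ᶠ t in 𝓝[<] t0, t < t0 := eventually_mem_nhdsWithin
    obtain ⟨t, a1, a2, a3, a4⟩ :=
      (hl.and (h2.and (h3.and (hnear.filter_mono nhdsWithin_le_nhds)))).exists
    have a5 : (K t).im < y0 := by
      by_contra hc
      push Not at hc
      have h4 := hsgn t
      have h5 : 0 ≤ Real.sin ((K t).im - y0) :=
        Real.sin_nonneg_of_nonneg_of_le_pi (by linarith) (by linarith [(abs_lt.1 a4).2])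
      have h6 : Real.sin (K t).im ≤ 0 := by rw [hsinε]; linarith
      have h7 : Real.exp (K t).re * Real.sin (K t).im * normSq (c t - (c t0 - δ * I)) ≤ 0 :=
        mul_nonpos_of_nonpos_of_nonneg (mul_nonpos_of_nonneg_of_nonpos (Real.exp_pos _).le h6)
          (normSq_nonneg _)
      rw [h4] at h7
      have : δ * ((c t).re - (c t0).re) < 0 := mul_neg_of_pos_of_neg hδ (by linarith)
      linarith
    obtain ⟨s, hs, hs'⟩ := intermediate_value_Icc' a2.le
      (f := fun t => (K t).im) (by fun_prop) ⟨a5.le, hcon⟩
    exact hno s ⟨hs.1, by linarith [hs.2]⟩ (by linarith [hs.2] : s < t0).ne hs'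
  rw [hK01] at hright
  linarith

end Pool.Agent.W675.SqG
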