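import Pool.Agent.W675.SqE

/-! Cutting off the part of the arc above a given height; the final theorem in coordinates. -/

set_option autoImplicit false
open Complex Set Filter Topology MeasureTheory Metric

namespace Pool.Agent.W675.SqG

/-- the region over the graph of `g` -/
def Reg (g : ℝ → ℝ) (z : ℂ) : Prop :=
  (0 ≤ z.re → z.re ≤ 1 → g z.re ≤ z.im) ∧ (z.im < 0 → 0 ≤ z.re ∧ z.re ≤ 1) ∧
  (0 ≤ z.im → z.im ≤ 1 → -g z.im ≤ z.re ∧ z.re ≤ 1 + g (1 - z.im)) ∧
  (1 ≤ z.im → 0 ≤ z.re ∧ z.re ≤ 1)

/-- cutting off -/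
theorem cut {f : ℝ → ℂ} {u : ℝ} (hf : ContinuousOn f (Icc u 1))
    (hi : InjOn f (Icc u 1)) {g : ℝ → ℝ} {M : ℝ} (hM : 0 ≤ M) (hgM : ∀ x ∈ Icc (0:ℝ) 1, g x ≤ M)
    (hg0 : g 0 = 0) (hg1 : g 1 = 0)
    (h0 : (f u).im < 1 + M) (h0' : (f 1).im < 1 + M)
    (h1 : ∀ t ∈ Icc u 1, (∀ s ∈ Icc u t, (f s).im < 1 + M) → Reg g (f t))
    (h2 : ∀ t ∈ Icc u 1, (∀ s ∈ Icc t 1, (f s).im < 1 + M) → Reg g (f t)) :
    ∃ b : ℝ → ℂ, ContinuousOn b (Icc u 1) ∧ InjOn b (Icc u 1) ∧ b u = f u ∧ b 1 = f 1 ∧
      ∀ t ∈ Icc u 1, Reg g (b t) ∧ (b t ∈ f '' Icc u 1 ∧ ((b t ∈ f '' Ioo u 1) ∨ t = u ∨ t = 1) ∨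
        (b t).im = 1 + M ∧ 0 < (b t).re ∧ (b t).re < 1) := by
  set H := 1 + M with hH
  set T : Set ℝ := {t ∈ Icc u 1 | H ≤ (f t).im} with hT
  have hTc : IsClosed T := by
    have : T = Icc u 1 ∩ f ⁻¹' {z | H ≤ z.im} := rfl
    rw [this]
    exact hf.preimage_isClosed_of_isClosed isClosed_Icc
      (isClosed_le continuous_const Complex.continuous_im)
  have hTcomp : IsCompact T := isCompact_Icc.of_isClosed_subset hTc (fun t ht => ht.1)
  rcases T.eq_empty_or_nonempty with hE | hne
  · have hlt : ∀ s ∈ Icc u 1, (f s).im < H := by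
      intro s hs
      by_contra hcon
      push Not at hcon
      have : s ∈ T := ⟨hs, hcon⟩
      rw [hE] at this
      exact this
    refine ⟨f, hf, hi, rfl, rfl, fun t ht => ⟨h1 t ht fun s hs => hlt s ⟨hs.1, hs.2.trans ht.2⟩,
      Or.inl ⟨⟨t, ht, rfl⟩, ?_⟩⟩⟩
    rcases eq_or_lt_of_le ht.1 with h | h
    · exact Or.inr (Or.inl h.symm)
    · rcases eq_or_lt_of_le ht.2 with h' | h'
      · exact Or.inr (Or.inr h')
      · exact Or.inl ⟨t, ⟨h, h'⟩, rfl⟩
  · obtain ⟨p, hp, hpmin⟩ := hTcomp.exists_isLeast hne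
    obtain ⟨q, hq, hqmax⟩ := hTcomp.exists_isGreatest hne
    have hpq : p ≤ q := hpmin hq
    have hup : u < p := lt_of_le_of_ne hp.1.1 (fun h => by
      have := hp.2; rw [← h] at this; linarith)
    have hq1 : q < 1 := lt_of_le_of_ne hq.1.2 (fun h => by
      have := hq.2; rw [h] at this; linarith)
    have hbelow1 : ∀ s ∈ Ico u p, (f s).im < H := by
      intro s hs
      by_contra hcon
      push Not at hcon
      have := hpmin (⟨⟨hs.1, by linarith [hs.2, hp.1.2]⟩, hcon⟩ : s ∈ T)
      linarith [hs.2]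
    have hbelow2 : ∀ s ∈ Ioc q 1, (f s).im < H := by
      intro s hs
      by_contra hcon
      push Not at hcon
      have := hqmax (⟨⟨by linarith [hs.1, hq.1.1], hs.2⟩, hcon⟩ : s ∈ T)
      linarith [hs.1]
    -- closedness of the region
    have hR1 : ∀ t ∈ Ico u p, Reg g (f t) := fun t ht =>
      h1 t ⟨ht.1, by linarith [ht.2, hp.1.2]⟩ fun s hs => hbelow1 s ⟨hs.1, by linarith [hs.2, ht.2]⟩
    have hR2 : ∀ t ∈ Ioc q 1, Reg g (f t) := fun t ht =>
      h2 t ⟨by linarith [ht.1, hq.1.1], ht.2⟩ fun s hs => hbelow2 s ⟨by linarith [hs.1, ht.1], hs.2⟩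
    have hpI : p ∈ Icc u 1 := hp.1
    have hqI : q ∈ Icc u 1 := hq.1
    have hMH : 1 ≤ H := by rw [hH]; linarith
    -- heights at p and q
    have limp : Tendsto f (𝓝[Ico u p] p) (𝓝 (f p)) :=
      (hf p hpI).mono (fun s hs => ⟨hs.1, by linarith [hs.2, hp.1.2]⟩)
    have limq : Tendsto f (𝓝[Ioc q 1] q) (𝓝 (f q)) :=
      (hf q hqI).mono (fun s hs => ⟨by linarith [hs.1, hq.1.1], hs.2⟩)
    have nbp : (𝓝[Ico u p] p).NeBot := by
      rw [← mem_closure_iff_nhdsWithin_neBot, closure_Ico hup.ne]
      exact ⟨hup.le, le_rfl⟩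
    have nbq : (𝓝[Ioc q 1] q).NeBot := by
      rw [← mem_closure_iff_nhdsWithin_neBot, closure_Ioc hq1.ne]
      exact ⟨le_rfl, hq1.le⟩
    have himp : (f p).im = H := by
      apply le_antisymm _ hp.2
      exact le_of_tendsto ((Complex.continuous_im.tendsto _).comp limp)
        (eventually_nhdsWithin_of_forall fun s hs => (hbelow1 s hs).le)
    have himq : (f q).im = H := by
      apply le_antisymm _ hq.2
      exact le_of_tendsto ((Complex.continuous_im.tendsto _).comp limq)
        (eventually_nhdsWithin_of_forall fun s hs => (hbelow2 s hs).le)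
    have hrep : (0 ≤ (f p).re ∧ (f p).re ≤ 1) := by
      by_cases hM0 : M = 0
      · -- here `g ≤ 0` and the height is one
        have hlow : ∀ᶠ s in 𝓝[Ico u p] p, 0 < (f s).im := by
          have : Tendsto (fun s => (f s).im) (𝓝[Ico u p] p) (𝓝 H) := by
            have := (Complex.continuous_im.tendsto _).comp limp
            rwa [himp] at this
          exact this.eventually (lt_mem_nhds (by linarith))
        have hgood : ∀ᶠ s in 𝓝[Ico u p] p, 0 ≤ (f s).re ∧ (f s).re ≤ 1 := by
          filter_upwards [hlow, self_mem_nhdsWithin] with s hs hs'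
          obtain ⟨-, -, k3, -⟩ := hR1 s hs'
          have hs1 : (f s).im ≤ 1 := by have := hbelow1 s hs'; rw [hH, hM0] at this; linarith
          obtain ⟨k4, k5⟩ := k3 hs.le hs1
          have k6 := hgM (f s).im ⟨hs.le, hs1⟩
          have k7 := hgM (1 - (f s).im) ⟨by linarith, by linarith⟩
          rw [hM0] at k6 k7
          constructor <;> linarith
        constructor
        · exact ge_of_tendsto ((Complex.continuous_re.tendsto _).comp limp)
            (hgood.mono fun s hs => hs.1)
        · exact le_of_tendsto ((Complex.continuous_re.tendsto _).comp limp)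
            (hgood.mono fun s hs => hs.2)
      · have hMpos : 0 < M := lt_of_le_of_ne hM (Ne.symm hM0)
        have hlow : ∀ᶠ s in 𝓝[Ico u p] p, 1 < (f s).im := by
          have : Tendsto (fun s => (f s).im) (𝓝[Ico u p] p) (𝓝 H) := by
            have := (Complex.continuous_im.tendsto _).comp limp
            rwa [himp] at this
          exact this.eventually (lt_mem_nhds (by rw [hH]; linarith))
        have hgood : ∀ᶠ s in 𝓝[Ico u p] p, 0 ≤ (f s).re ∧ (f s).re ≤ 1 := by
          filter_upwards [hlow, self_mem_nhdsWithin] with s hs hs'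
          exact (hR1 s hs').2.2.2 hs.le
        constructor
        · exact ge_of_tendsto ((Complex.continuous_re.tendsto _).comp limp)
            (hgood.mono fun s hs => hs.1)
        · exact le_of_tendsto ((Complex.continuous_re.tendsto _).comp limp)
            (hgood.mono fun s hs => hs.2)
    have hreq : (0 ≤ (f q).re ∧ (f q).re ≤ 1) := by
      by_cases hM0 : M = 0
      · have hlow : ∀ᶠ s in 𝓝[Ioc q 1] q, 0 < (f s).im := by
          have : Tendsto (fun s => (f s).im) (𝓝[Ioc q 1] q) (𝓝 H) := by
            have := (Complex.continuous_im.tendsto _).comp limq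
            rwa [himq] at this
          exact this.eventually (lt_mem_nhds (by linarith))
        have hgood : ∀ᶠ s in 𝓝[Ioc q 1] q, 0 ≤ (f s).re ∧ (f s).re ≤ 1 := by
          filter_upwards [hlow, self_mem_nhdsWithin] with s hs hs'
          obtain ⟨-, -, k3, -⟩ := hR2 s hs'
          have hs1 : (f s).im ≤ 1 := by have := hbelow2 s hs'; rw [hH, hM0] at this; linarith
          obtain ⟨k4, k5⟩ := k3 hs.le hs1
          have k6 := hgM (f s).im ⟨hs.le, hs1⟩
          have k7 := hgM (1 - (f s).im) ⟨by linarith, by linarith⟩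
          rw [hM0] at k6 k7
          constructor <;> linarith
        constructor
        · exact ge_of_tendsto ((Complex.continuous_re.tendsto _).comp limq)
            (hgood.mono fun s hs => hs.1)
        · exact le_of_tendsto ((Complex.continuous_re.tendsto _).comp limq)
            (hgood.mono fun s hs => hs.2)
      · have hMpos : 0 < M := lt_of_le_of_ne hM (Ne.symm hM0)
        have hlow : ∀ᶠ s in 𝓝[Ioc q 1] q, 1 < (f s).im := by
          have : Tendsto (fun s => (f s).im) (𝓝[Ioc q 1] q) (𝓝 H) := by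
            have := (Complex.continuous_im.tendsto _).comp limq
            rwa [himq] at this
          exact this.eventually (lt_mem_nhds (by rw [hH]; linarith))
        have hgood : ∀ᶠ s in 𝓝[Ioc q 1] q, 0 ≤ (f s).re ∧ (f s).re ≤ 1 := by
          filter_upwards [hlow, self_mem_nhdsWithin] with s hs hs'
          exact (hR2 s hs').2.2.2 hs.le
        constructor
        · exact ge_of_tendsto ((Complex.continuous_re.tendsto _).comp limq)
            (hgood.mono fun s hs => hs.1)
        · exact le_of_tendsto ((Complex.continuous_re.tendsto _).comp limq)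
            (hgood.mono fun s hs => hs.2)
    -- the region at height `H`
    have hRegH : ∀ z : ℂ, z.im = H → 0 ≤ z.re → z.re ≤ 1 → Reg g z := by
      intro z hz r0 r1
      refine ⟨fun _ _ => by rw [hz, hH]; linarith [hgM z.re ⟨r0, r1⟩], fun h => by linarith,
        fun _ h => ?_, fun _ => ⟨r0, r1⟩⟩
      have hz1 : z.im = 1 := by linarith
      have hM0 : M = 0 := by linarith
      rw [hz1, sub_self, hg0, hg1]
      constructor <;> linarith
    rcases eq_or_lt_of_le hpq with hpq' | hpq'
    · -- nothing to do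
      refine ⟨f, hf, hi, rfl, rfl, fun t ht => ⟨?_, Or.inl ⟨⟨t, ht, rfl⟩, ?_⟩⟩⟩
      · rcases lt_trichotomy t p with h | h | h
        · exact hR1 t ⟨ht.1, h⟩
        · rw [h]; exact hRegH _ himp hrep.1 hrep.2
        · exact hR2 t ⟨by rw [← hpq']; exact h, ht.2⟩
      · rcases eq_or_lt_of_le ht.1 with h | h
        · exact Or.inr (Or.inl h.symm)
        · rcases eq_or_lt_of_le ht.2 with h' | h'
          · exact Or.inr (Or.inr h')
          · exact Or.inl ⟨t, ⟨h, h'⟩, rfl⟩
    · set ℓ : ℝ → ℂ := fun t => f p + (((t - p) / (q - p) : ℝ) : ℂ) * (f q - f p) with hℓ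
      have hℓc : Continuous ℓ := by rw [hℓ]; fun_prop
      have hqp : 0 < q - p := by linarith
      have hℓp : ℓ p = f p := by simp [hℓ]
      have hℓq : ℓ q = f q := by
        simp only [hℓ]
        rw [div_self hqp.ne', ofReal_one]
        ring
      have hfne : (f p).re ≠ (f q).re := by
        intro h
        have : f p = f q := Complex.ext h (by rw [himp, himq])
        have := hi hpI hqI this
        linarith
      have hℓim : ∀ t, (ℓ t).im = H := by
        intro t
        simp only [hℓ, add_im, im_ofReal_mul, sub_im, himp, himq]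
        ring
      have hℓre : ∀ t, (ℓ t).re = (f p).re + (t - p) / (q - p) * ((f q).re - (f p).re) := by
        intro t
        simp only [hℓ, add_re, re_ofReal_mul, sub_re]
      classical
      set b : ℝ → ℂ := fun t => if t ≤ p then f t else if t ≤ q then ℓ t else f t with hb
      have hb1 : ∀ t, t ≤ p → b t = f t := fun t ht => by simp only [hb, if_pos ht]
      have hb2 : ∀ t ∈ Icc p q, b t = ℓ t := by
        intro t ht
        rcases eq_or_lt_of_le ht.1 with h | h
        · rw [← h, hb1 _ le_rfl, hℓp]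
        · simp only [hb, if_neg (not_le.2 h), if_pos ht.2]
      have hb3 : ∀ t, q ≤ t → b t = f t := by
        intro t ht
        rcases eq_or_lt_of_le ht with h | h
        · rw [← h, hb2 q ⟨hpq'.le, le_rfl⟩, hℓq]
        · simp only [hb, if_neg (not_le.2 (by linarith : p < t)), if_neg (not_le.2 h)]
      have hbc : ContinuousOn b (Icc u 1) := by
        have e : Icc u 1 = Icc u p ∪ (Icc p q ∪ Icc q 1) := by
          rw [Icc_union_Icc_eq_Icc hpq'.le hq1.le, Icc_union_Icc_eq_Icc hup.le (by linarith)]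
        rw [e]
        apply ContinuousOn.union_of_isClosed _ _ isClosed_Icc (isClosed_Icc.union isClosed_Icc)
        · apply (hf.mono (Icc_subset_Icc_right hpI.2)).congr
          intro t ht
          exact hb1 t ht.2
        · apply ContinuousOn.union_of_isClosed _ _ isClosed_Icc isClosed_Icc
          · apply hℓc.continuousOn.congr
            intro t ht
            exact hb2 t ht
          · apply (hf.mono (Icc_subset_Icc_left hqI.1)).congr
            intro t ht
            exact hb3 t ht.1
      -- the two kinds of points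
      have hkind : ∀ t ∈ Icc u 1, (b t = f t ∧ (f t).im < H ∧ t ∉ Icc p q) ∨ t ∈ Icc p q := by
        intro t ht
        by_cases h1 : t < p
        · exact Or.inl ⟨hb1 t h1.le, hbelow1 t ⟨ht.1, h1⟩, fun h => absurd h.1 (not_le.2 h1)⟩
        · by_cases h2 : q < t
          · exact Or.inl ⟨hb3 t h2.le, hbelow2 t ⟨h2, ht.2⟩, fun h => absurd h.2 (not_le.2 h2)⟩
          · exact Or.inr ⟨not_lt.1 h1, not_lt.1 h2⟩
      refine ⟨b, hbc, ?_, hb1 u hup.le, hb3 1 hq1.le, ?_⟩
      · intro s hs t ht e
        rcases hkind s hs with ⟨s1, s2, s3⟩ | s1 <;> rcases hkind t ht with ⟨t1, t2, t3⟩ | t1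
        · rw [s1, t1] at e
          exact hi hs ht e
        · exfalso
          rw [s1, hb2 t t1] at e
          have := hℓim t
          rw [← e] at this
          linarith
        · exfalso
          rw [t1, hb2 s s1] at e
          have := hℓim s
          rw [e] at this
          linarith
        · rw [hb2 s s1, hb2 t t1] at e
          have := congrArg Complex.re e
          rw [hℓre, hℓre] at this
          have h3 : (s - p) / (q - p) * ((f q).re - (f p).re) =
            (t - p) / (q - p) * ((f q).re - (f p).re) := by linarith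
          have h4 : (f q).re - (f p).re ≠ 0 := sub_ne_zero.2 (Ne.symm hfne)
          have h5 := mul_right_cancel₀ h4 h3
          rw [div_left_inj' hqp.ne'] at h5
          linarith
      · intro t ht
        by_cases h1 : t ≤ p
        · rw [hb1 t h1]
          refine ⟨?_, Or.inl ⟨⟨t, ht, rfl⟩, ?_⟩⟩
          · rcases eq_or_lt_of_le h1 with h | h
            · rw [h]; exact hRegH _ himp hrep.1 hrep.2
            · exact hR1 t ⟨ht.1, h⟩
          · rcases eq_or_lt_of_le ht.1 with h | h
            · exact Or.inr (Or.inl h.symm)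
            · exact Or.inl ⟨t, ⟨h, by linarith⟩, rfl⟩
        · by_cases h2 : q ≤ t
          · rw [hb3 t h2]
            refine ⟨?_, Or.inl ⟨⟨t, ht, rfl⟩, ?_⟩⟩
            · rcases eq_or_lt_of_le h2 with h | h
              · rw [← h]; exact hRegH _ himq hreq.1 hreq.2
              · exact hR2 t ⟨h, ht.2⟩
            · rcases eq_or_lt_of_le ht.2 with h' | h'
              · exact Or.inr (Or.inr h')
              · exact Or.inl ⟨t, ⟨by linarith [not_le.1 h1], h'⟩, rfl⟩
          · push Not at h1 h2
            rw [hb2 t ⟨h1.le, h2.le⟩]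
            have w0 : 0 < (t - p) / (q - p) := div_pos (by linarith) hqp
            have w1 : (t - p) / (q - p) < 1 := (div_lt_one hqp).2 (by linarith)
            have hre := hℓre t
            have r0 : 0 < (ℓ t).re := by
              rcases lt_or_gt_of_ne hfne with h | h
              · nlinarith [hrep.1, mul_pos w0 (sub_pos.2 h)]
              · nlinarith [hreq.1, mul_pos (sub_pos.2 w1) (sub_pos.2 h)]
            have r1 : (ℓ t).re < 1 := by
              rcases lt_or_gt_of_ne hfne with h | h
              · nlinarith [hreq.2, mul_pos (sub_pos.2 w1) (sub_pos.2 h)]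
              · nlinarith [hrep.2, mul_pos w0 (sub_pos.2 h)]
            exact ⟨hRegH _ (hℓim t) r0.le r1.le, Or.inr ⟨hℓim t, r0, r1⟩⟩

/-- the extension of `g` by its values at the end points -/
noncomputable def extn (g : ℝ → ℝ) (x : ℝ) : ℝ := g (max 0 (min 1 x))

theorem extn_of_mem {g : ℝ → ℝ} {x : ℝ} (hx : x ∈ Icc (0:ℝ) 1) : extn g x = g x := by
  unfold extn
  rw [min_eq_right hx.2, max_eq_right hx.1]

theorem extn_le {g : ℝ → ℝ} {x : ℝ} (hx : x ≤ 0) : extn g x = g 0 := by
  unfold extn
  rw [min_eq_right (by linarith), max_eq_left hx]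

theorem extn_ge {g : ℝ → ℝ} {x : ℝ} (hx : 1 ≤ x) : extn g x = g 1 := by
  unfold extn
  rw [min_eq_left hx, max_eq_right zero_le_one]

theorem extn_lip {g : ℝ → ℝ} {L : ℝ} (hL : 0 ≤ L)
    (h : ∀ x ∈ Icc (0:ℝ) 1, ∀ y ∈ Icc (0:ℝ) 1, |g x - g y| ≤ L * |x - y|) : Lip L (extn g) := by
  intro x y
  have hm : ∀ x : ℝ, max 0 (min 1 x) ∈ Icc (0:ℝ) 1 := fun x =>
    ⟨le_max_left _ _, max_le zero_le_one (min_le_left _ _)⟩
  refine (h _ (hm x) _ (hm y)).trans (mul_le_mul_of_nonneg_left ?_ hL)
  refine (abs_max_sub_max_le_max 0 _ 0 _).trans ?_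
  rw [sub_self, abs_zero, max_eq_right (abs_nonneg _)]
  refine (abs_min_sub_min_le_max 1 x 1 y).trans ?_
  rw [sub_self, abs_zero, max_eq_right (abs_nonneg _)]

end Pool.Agent.W675.SqG
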