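import Pool.Agent.W675.SqF

/-! The final theorem in coordinates. -/

set_option autoImplicit false
open Complex Set Filter Topology MeasureTheory Metric

namespace Pool.Agent.W675.SqG

theorem lip_main {f : ℝ → ℂ} {u : ℝ} (hu0 : 0 < u) (hu1 : u < 1) (hf : ContinuousOn f (Icc u 1))
    (hi : InjOn f (Icc u 1)) (hP : f 1 = 0) (hQ : f u = 1) {g : ℝ → ℝ} {L M : ℝ}
    (hL : 0 ≤ L) (hL2 : 2 * L + L ^ 2 < 1)
    (hlip : ∀ x ∈ Icc (0:ℝ) 1, ∀ y ∈ Icc (0:ℝ) 1, |g x - g y| ≤ L * |x - y|)
    (hM : 0 ≤ M) (hgM : ∀ x ∈ Icc (0:ℝ) 1, g x ≤ M) (hg0 : g 0 = 0) (hg1 : g 1 = 0)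
    (hoff : ∀ t ∈ Ioo u 1, ∀ x ∈ Icc (0:ℝ) 1, f t ≠ ⟨x, g x⟩)
    (h1 : ∀ t ∈ Icc u 1, (∀ s ∈ Icc u t, (f s).im < 1 + M) → Reg g (f t))
    (h2 : ∀ t ∈ Icc u 1, (∀ s ∈ Icc t 1, (f s).im < 1 + M) → Reg g (f t)) :
    ∃ x y : ℝ, 0 ≤ x ∧ x < y ∧ y ≤ 1 ∧
      (⟨x - (g y - g x), g x + (y - x)⟩ : ℂ) ∈ f '' Icc u 1 ∧
      (⟨y - (g y - g x), g y + (y - x)⟩ : ℂ) ∈ f '' Icc u 1 := by
  obtain ⟨b, hbc, hbi, hbu, hb1, hb⟩ := cut hf hi hM hgM hg0 hg1
    (by rw [hQ]; simp; linarith) (by rw [hP]; simp; linarith) h1 h2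
  have hlip' := extn_lip hL hlip
  set gg := extn g with hgg
  have hneg : ∀ x ≤ 0, gg x = 0 := fun x hx => (extn_le hx).trans hg0
  have hpos : ∀ x, 1 ≤ x → gg x = 0 := fun x hx => (extn_ge hx).trans hg1
  have hmem : ∀ x ∈ Icc (0:ℝ) 1, gg x = g x := fun x hx => extn_of_mem hx
  have hL1 : L < 1 := by nlinarith
  -- the parametrisation by `[0, 1]`
  have hu' : 0 < 1 - u := by linarith
  have hpar : ∀ τ ∈ Icc (0:ℝ) 1, 1 - τ * (1 - u) ∈ Icc u 1 := by
    intro τ hτ
    constructor
    · nlinarith [hτ.2]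
    · nlinarith [hτ.1]
  have hpar' : ∀ τ ∈ Ioo (0:ℝ) 1, 1 - τ * (1 - u) ∈ Ioo u 1 := by
    intro τ hτ
    constructor
    · nlinarith [hτ.2]
    · nlinarith [hτ.1]
  have C : Cfg L gg (fun τ => b (1 - τ * (1 - u))) := by
    refine ⟨hlip', hL, hL2, ?_, ?_, ?_, ?_, ?_⟩
    · exact hbc.comp (by fun_prop) hpar
    · intro s hs t ht e
      have := hbi (hpar s hs) (hpar t ht) e
      have h3 : s * (1 - u) = t * (1 - u) := by linarith
      exact mul_right_cancel₀ hu'.ne' h3
    · simp only [zero_mul, sub_zero]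
      rw [hb1, hP, hneg 0 le_rfl]
      rfl
    · simp only [one_mul, sub_sub_cancel]
      rw [hbu, hQ, hpos 1 le_rfl]
      rfl
    · intro τ hτ
      have ht := hpar' τ hτ
      set t := 1 - τ * (1 - u) with htd
      change gg (b t).re < (b t).im
      obtain ⟨hR, hc⟩ := hb t ⟨ht.1.le, ht.2.le⟩
      rcases hc with ⟨-, hc⟩ | ⟨hc1, hc2, hc3⟩
      · rcases hc with hc | hc | hc
        · by_cases hx : (b t).re ∈ Icc (0:ℝ) 1
          · rw [hmem _ hx]
            apply lt_of_le_of_ne (hR.1 hx.1 hx.2)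
            intro he
            obtain ⟨s, hs, hsb⟩ := hc
            apply hoff s hs _ hx
            rw [hsb]
            exact Complex.ext rfl he.symm
          · rw [mem_Icc, not_and_or, not_le, not_le] at hx
            rcases hx with hx | hx
            · rw [hneg _ hx.le]
              rcases lt_trichotomy (b t).im 0 with h | h | h
              · linarith [(hR.2.1 h).1]
              · have := (hR.2.2.1 h.ge (by linarith)).1
                rw [h, hg0] at this
                linarith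
              · exact h
            · rw [hpos _ hx.le]
              rcases lt_trichotomy (b t).im 0 with h | h | h
              · linarith [(hR.2.1 h).2]
              · have := (hR.2.2.1 h.ge (by linarith)).2
                rw [h, sub_zero, hg1] at this
                linarith
              · exact h
        · exact absurd hc ht.1.ne'
        · exact absurd hc ht.2.ne
      · rw [hmem _ ⟨hc2.le, hc3.le⟩, hc1]
        linarith [hgM _ ⟨hc2.le, hc3.le⟩]
  obtain ⟨τ, hτ, τ', hτ', x, y, hxy, e1, e2, e3, e4⟩ := core' C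
  have ht := hpar' τ hτ
  have ht' := hpar' τ' hτ'
  set t := 1 - τ * (1 - u) with htd
  set t' := 1 - τ' * (1 - u) with htd'
  change (b t).re = _ at e1
  change (b t).im = _ at e2
  change (b t').re = _ at e3
  change (b t').im = _ at e4
  obtain ⟨hR, hc⟩ := hb t ⟨ht.1.le, ht.2.le⟩
  obtain ⟨hR', hc'⟩ := hb t' ⟨ht'.1.le, ht'.2.le⟩
  have hx : 0 ≤ x := by
    by_contra hx
    push Not at hx
    have hgx := hneg x hx.le
    rw [hgx, zero_add] at e2
    rw [hgx, sub_zero] at e1
    have k1 : -gg (y - x) ≤ x - gg y := by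
      rcases le_total (y - x) 1 with h | h
      · have := (hR.2.2.1 (by rw [e2]; linarith) (by rw [e2]; exact h)).1
        rw [e1, e2, ← hmem _ ⟨by linarith, h⟩] at this
        exact this
      · have := (hR.2.2.2 (by rw [e2]; exact h)).1
        rw [e1] at this
        rw [hpos _ h]
        linarith
    have k2 := hlip' (y - x) y
    rw [show y - x - y = -x by ring, abs_neg, abs_of_neg hx] at k2
    have k3 := (abs_le.1 k2).2
    nlinarith
  have hy : y ≤ 1 := by
    by_contra hy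
    push Not at hy
    have hgy := hpos y hy.le
    rw [hgy, zero_add] at e4
    rw [hgy] at e3
    have k1 : y + gg x ≤ 1 + gg (1 - (y - x)) := by
      rcases le_total (y - x) 1 with h | h
      · have := (hR'.2.2.1 (by rw [e4]; linarith) (by rw [e4]; exact h)).2
        rw [e3, e4, ← hmem _ ⟨by linarith, by linarith⟩] at this
        linarith
      · have := (hR'.2.2.2 (by rw [e4]; exact h)).2
        rw [e3] at this
        rw [hneg (1 - (y - x)) (by linarith)]
        linarith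
    have k2 := hlip' (1 - (y - x)) x
    rw [show 1 - (y - x) - x = -(y - 1) by ring, abs_neg,
      abs_of_pos (show 0 < y - 1 by linarith)] at k2
    have k3 := (abs_le.1 k2).2
    nlinarith
  have hxm := hmem x ⟨hx, by linarith⟩
  have hym := hmem y ⟨by linarith, hy⟩
  rw [hxm, hym] at e1 e3
  rw [hxm] at e2
  rw [hym] at e4
  have hgx := hgM x ⟨hx, by linarith⟩
  have hgy := hgM y ⟨by linarith, hy⟩
  refine ⟨x, y, hx, hxy, hy, ?_, ?_⟩
  · rcases hc with ⟨⟨s, hs, hsb⟩, -⟩ | ⟨hc1, hc2, hc3⟩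
    · exact ⟨s, hs, hsb.trans (Complex.ext e1 e2)⟩
    · exfalso
      have x0 : x = 0 := by linarith
      have y1 : y = 1 := by linarith
      rw [e1, x0, y1, hg0, hg1] at hc2
      simp at hc2
  · rcases hc' with ⟨⟨s, hs, hsb⟩, -⟩ | ⟨hc1, hc2, hc3⟩
    · exact ⟨s, hs, hsb.trans (Complex.ext e3 e4)⟩
    · exfalso
      have x0 : x = 0 := by linarith
      have y1 : y = 1 := by linarith
      rw [e3, x0, y1, hg0, hg1] at hc3
      simp at hc3

end Pool.Agent.W675.SqG
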