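import Pool.Agent.W675.SqB

/-! The squares over the chords of a Lipschitz graph whose direction turns to the left by less than
45 degrees and to the right by less than 135 degrees: the maps to the upper vertices, continued below
the graph, are homeomorphisms of the plane. -/

set_option autoImplicit false
open Set Filter Topology MeasureTheory

namespace Pool.Agent.W675.SqT

open Pool.Agent.W675.SqG (Lip rho sig)

/-- the condition on the chords -/
def Bc (κ : ℝ) (g : ℝ → ℝ) : Prop := ∀ x x' y y' : ℝ, x ≤ x' → x' ≤ y → y ≤ y' →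
  κ * (x' - x) * (y' - y) ≤ (x' - x) * (y' - y) + (g x' - g x) * (g y' - g y)
    + (g x' - g x) * (y' - y) - (x' - x) * (g y' - g y)

variable {κ Λ : ℝ} {g : ℝ → ℝ}

/-- overlapping chords -/
theorem Bc.over (h : Bc κ g) (hκ1 : κ ≤ 1) {x x' y y' : ℝ} (h1 : x ≤ x') (h2 : x ≤ y)
    (h3 : x' ≤ y') (h4 : y ≤ y') :
    κ * (x' - x) * (y' - y) ≤ (x' - x) * (y' - y) + (g x' - g x) * (g y' - g y)
      + (g x' - g x) * (y' - y) - (x' - x) * (g y' - g y) := by
  rcases le_total x' y with h5 | h5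
  · exact h x x' y y' h1 h5 h4
  · have k1 := h x y y x' h2 le_rfl h5
    have k2 := h x y x' y' h2 h5 h3
    have k3 := h y x' x' y' h5 le_rfl h3
    have k4 : 0 ≤ (1 - κ) * (x' - y) ^ 2 := mul_nonneg (by linarith) (sq_nonneg _)
    have k5 := sq_nonneg (g x' - g y)
    nlinarith

/-- the function whose value is the first coordinate of the upper left vertex -/
def Fn (g : ℝ → ℝ) (Y s : ℝ) : ℝ := s + g s - g (max s (s - g s + Y))

theorem aux1 (h : Bc κ g) (hκ1 : κ ≤ 1) {Y s s' : ℝ} (hs : s ≤ s')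
    (h1 : s ≤ s - g s + Y) (h2 : s' ≤ s' - g s' + Y) :
    κ * (s' - s) ≤ (s' + g s' - g (s' - g s' + Y)) - (s + g s - g (s - g s + Y)) := by
  set t := s - g s + Y with ht
  set t' := s' - g s' + Y with ht'
  set p := s' - s with hp
  have hp0 : 0 ≤ p := by rw [hp]; linarith
  set α := g s' - g s with hα
  have hq : t' - t = p - α := by rw [ht, ht', hp, hα]; ring
  set β := g t' - g t with hβ
  have goal : κ * p ≤ p + α - β → κ * (s' - s) ≤ (s' + g s' - g t') - (s + g s - g t) := by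
    intro h'
    have : (s' + g s' - g t') - (s + g s - g t) = p + α - β := by rw [hp, hα, hβ]; ring
    rw [this]; exact h'
  apply goal
  rcases lt_trichotomy (t' - t) 0 with hlt | heq | hgt
  · have k := h s s' t' t hs h2 (by linarith)
    rw [← hp, ← hα] at k
    have e1 : t - t' = -(p - α) := by linarith
    have e2 : g t - g t' = -β := by rw [hβ]; ring
    rw [e1, e2] at k
    have e3 : 0 < α - p := by linarith
    have : (α - p) * (κ * p) ≤ (α - p) * (p + α - β) := by nlinarith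
    exact le_of_mul_le_mul_left this e3
  · have e1 : t' = t := by linarith
    have e2 : β = 0 := by rw [hβ, e1, sub_self]
    have e3 : α = p := by linarith
    rw [e2, e3]
    nlinarith
  · have k := h.over hκ1 hs h1 h2 (by linarith : t ≤ t')
    rw [← hp, ← hα, ← hβ, hq] at k
    have e3 : 0 < p - α := by linarith
    have : (p - α) * (κ * p) ≤ (p - α) * (p + α - β) := by nlinarith
    exact le_of_mul_le_mul_left this e3

theorem Fn_exp (h : Bc κ g) (hκ1 : κ ≤ 1) (hg : Continuous g) (Y : ℝ) {s s' : ℝ} (hs : s ≤ s') :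
    κ * (s' - s) ≤ Fn g Y s' - Fn g Y s := by
  unfold Fn
  rcases le_total s (s - g s + Y) with a | a <;> rcases le_total s' (s' - g s' + Y) with b | b
  · rw [max_eq_right a, max_eq_right b]
    exact aux1 h hκ1 hs a b
  · obtain ⟨c, hc, hc'⟩ := intermediate_value_Icc' hs (f := fun x => Y - g x)
      (by fun_prop) (show (0:ℝ) ∈ Icc _ _ from ⟨by linarith, by linarith⟩)
    simp only at hc'
    have ec : c - g c + Y = c := by linarith
    rw [max_eq_right a, max_eq_left b]
    have := aux1 h hκ1 hc.1 a (by rw [ec])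
    rw [ec] at this
    nlinarith [hc.2]
  · obtain ⟨c, hc, hc'⟩ := intermediate_value_Icc hs (f := fun x => Y - g x)
      (by fun_prop) (show (0:ℝ) ∈ Icc _ _ from ⟨by linarith, by linarith⟩)
    simp only at hc'
    have ec : c - g c + Y = c := by linarith
    rw [max_eq_left a, max_eq_right b]
    have := aux1 h hκ1 hc.2 (by rw [ec]) b
    rw [ec] at this
    nlinarith [hc.1]
  · rw [max_eq_left a, max_eq_left b]
    nlinarith

theorem Fn_cont (hg : Continuous g) (Y : ℝ) : Continuous (Fn g Y) := by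
  unfold Fn
  fun_prop

theorem exists_root (h : Bc κ g) (hκ : 0 < κ) (hκ1 : κ ≤ 1) (hg : Continuous g) (X Y : ℝ) :
    ∃ s, Fn g Y s = X := by
  set M := |X - Fn g Y 0| / κ with hM
  have hM0 : 0 ≤ M := by positivity
  have hMκ : κ * M = |X - Fn g Y 0| := by rw [hM]; field_simp
  have h1 : X ≤ Fn g Y M := by
    have := Fn_exp h hκ1 hg Y hM0
    rw [sub_zero, hMκ] at this
    have := le_abs_self (X - Fn g Y 0)
    linarith
  have h2 : Fn g Y (-M) ≤ X := by
    have := Fn_exp h hκ1 hg Y (neg_nonpos.2 hM0)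
    rw [zero_sub, neg_neg, hMκ] at this
    have := neg_abs_le (X - Fn g Y 0)
    linarith
  obtain ⟨s, -, hs⟩ := intermediate_value_Icc (by linarith : -M ≤ M)
    (Fn_cont hg Y).continuousOn ⟨h2, h1⟩
  exact ⟨s, hs⟩

/-- upper left vertex of the square over the chord from `(s, g s)` to `(t, g t)` if `s ≤ t` -/
def mA (g : ℝ → ℝ) (q : ℝ × ℝ) : ℝ × ℝ := (q.1 - g (max q.1 q.2) + g q.1, g q.1 + q.2 - q.1)
/-- upper right vertex -/
def mB (g : ℝ → ℝ) (q : ℝ × ℝ) : ℝ × ℝ := (q.2 - g q.2 + g (min q.1 q.2), g q.2 + q.2 - q.1)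

theorem mA_fst (s t : ℝ) : (mA g (s, t)).1 = Fn g (mA g (s, t)).2 s := by
  simp only [mA, Fn]
  have : s - g s + (g s + t - s) = t := by ring
  rw [this]; ring

theorem mA_surj (h : Bc κ g) (hκ : 0 < κ) (hκ1 : κ ≤ 1) (hg : Continuous g) :
    Function.Surjective (mA g) := by
  rintro ⟨x, y⟩
  obtain ⟨s, hs⟩ := exists_root h hκ hκ1 hg x y
  refine ⟨(s, s - g s + y), ?_⟩
  unfold Fn at hs
  simp only [mA, Prod.mk.injEq]
  constructor <;> linarith

/-- expansion -/
theorem mA_exp (h : Bc κ g) (hκ : 0 < κ) (hκ1 : κ ≤ 1) (hl : Lip Λ g) (hΛ : 0 ≤ Λ)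
    (q q' : ℝ × ℝ) : dist q q' ≤ ((1 + Λ) ^ 2 / κ + 1) * dist (mA g q) (mA g q') := by
  have hg := hl.cont hΛ
  obtain ⟨s, t⟩ := q
  obtain ⟨s', t'⟩ := q'
  set D := dist (mA g (s, t)) (mA g (s', t')) with hD
  have hX : |(mA g (s, t)).1 - (mA g (s', t')).1| ≤ D := by
    rw [hD, Prod.dist_eq, ← Real.dist_eq]; exact le_max_left _ _
  have hY : |(mA g (s, t)).2 - (mA g (s', t')).2| ≤ D := by
    rw [hD, Prod.dist_eq, ← Real.dist_eq]; exact le_max_right _ _
  have hD0 : 0 ≤ D := dist_nonneg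
  rw [mA_fst, mA_fst] at hX
  set Y := (mA g (s, t)).2 with hYd
  set Y' := (mA g (s', t')).2 with hYd'
  have ht : t = s - g s + Y := by rw [hYd]; simp only [mA]; ring
  have ht' : t' = s' - g s' + Y' := by rw [hYd']; simp only [mA]; ring
  have k1 : |Fn g Y' s' - Fn g Y s'| ≤ Λ * D := by
    unfold Fn
    have : s' + g s' - g (max s' (s' - g s' + Y')) - (s' + g s' - g (max s' (s' - g s' + Y))) =
      g (max s' (s' - g s' + Y)) - g (max s' (s' - g s' + Y')) := by ring
    rw [this]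
    refine (hl _ _).trans (mul_le_mul_of_nonneg_left ?_ hΛ)
    refine (abs_max_sub_max_le_max _ _ _ _).trans ?_
    rw [sub_self, abs_zero, max_eq_right (abs_nonneg _)]
    rw [show s' - g s' + Y - (s' - g s' + Y') = Y - Y' by ring]
    exact hY
  have k2 : κ * |s - s'| ≤ (1 + Λ) * D := by
    have e : κ * |s - s'| ≤ |Fn g Y s - Fn g Y s'| := by
      rcases le_total s s' with hs | hs
      · have := Fn_exp h hκ1 hg Y hs
        rw [abs_of_nonpos (by linarith : s - s' ≤ 0)]
        refine le_trans ?_ (neg_le_abs _)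
        linarith
      · have := Fn_exp h hκ1 hg Y hs
        rw [abs_of_nonneg (by linarith : 0 ≤ s - s')]
        exact this.trans (le_abs_self _)
    have e2 : |Fn g Y s - Fn g Y s'| ≤ |Fn g Y s - Fn g Y' s'| + |Fn g Y' s' - Fn g Y s'| := by
      have : Fn g Y s - Fn g Y s' = (Fn g Y s - Fn g Y' s') + (Fn g Y' s' - Fn g Y s') := by ring
      rw [this]; exact abs_add_le _ _
    linarith
  have k3 : |s - s'| ≤ (1 + Λ) / κ * D := by
    rw [div_mul_eq_mul_div, le_div_iff₀ hκ]
    linarith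
  have k4 : |t - t'| ≤ ((1 + Λ) ^ 2 / κ + 1) * D := by
    have e : t - t' = (s - s') - (g s - g s') + (Y - Y') := by rw [ht, ht']; ring
    have e2 : |t - t'| ≤ |s - s'| + |g s - g s'| + |Y - Y'| := by
      rw [e]
      exact (abs_add_le _ _).trans (add_le_add (abs_sub _ _) le_rfl)
    have e3 := hl s s'
    have e4 : (1 + Λ) * |s - s'| ≤ (1 + Λ) * ((1 + Λ) / κ * D) :=
      mul_le_mul_of_nonneg_left k3 (by linarith)
    have e5 : (1 + Λ) * ((1 + Λ) / κ * D) = (1 + Λ) ^ 2 / κ * D := by ring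
    rw [e5] at e4
    linarith
  rw [Prod.dist_eq, Real.dist_eq, Real.dist_eq]
  refine max_le ?_ k4
  refine k3.trans (mul_le_mul_of_nonneg_right ?_ hD0)
  have : (1 + Λ) / κ ≤ (1 + Λ) ^ 2 / κ := by
    apply div_le_div_of_nonneg_right _ hκ.le
    nlinarith
  linarith

theorem mA_inj (h : Bc κ g) (hκ : 0 < κ) (hκ1 : κ ≤ 1) (hl : Lip Λ g) (hΛ : 0 ≤ Λ) :
    Function.Injective (mA g) := by
  intro q q' e
  have := mA_exp h hκ hκ1 hl hΛ q q'
  rw [e, dist_self, mul_zero] at this
  exact dist_le_zero.1 this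

theorem mA_cont (hg : Continuous g) : Continuous (mA g) := by
  unfold mA
  fun_prop

/-- the homeomorphism -/
noncomputable def hA (h : Bc κ g) (hκ : 0 < κ) (hκ1 : κ ≤ 1) (hl : Lip Λ g) (hΛ : 0 ≤ Λ) :
    (ℝ × ℝ) ≃ₜ (ℝ × ℝ) where
  toEquiv := Equiv.ofBijective (mA g) ⟨mA_inj h hκ hκ1 hl hΛ, mA_surj h hκ hκ1 (hl.cont hΛ)⟩
  continuous_toFun := mA_cont (hl.cont hΛ)
  continuous_invFun := by
    refine (LipschitzWith.of_dist_le_mul (K := ⟨(1 + Λ) ^ 2 / κ + 1, by positivity⟩) ?_).continuous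
    intro p p'
    obtain ⟨q, rfl⟩ := mA_surj h hκ hκ1 (hl.cont hΛ) p
    obtain ⟨q', rfl⟩ := mA_surj h hκ hκ1 (hl.cont hΛ) p'
    have e : ∀ q, (Equiv.ofBijective (mA g)
      ⟨mA_inj h hκ hκ1 hl hΛ, mA_surj h hκ hκ1 (hl.cont hΛ)⟩).invFun (mA g q) = q :=
      fun q => (Equiv.ofBijective (mA g)
        ⟨mA_inj h hκ hκ1 hl hΛ, mA_surj h hκ hκ1 (hl.cont hΛ)⟩).left_inv q
    rw [e, e]
    exact mA_exp h hκ hκ1 hl hΛ q q'

theorem hA_apply (h : Bc κ g) (hκ : 0 < κ) (hκ1 : κ ≤ 1) (hl : Lip Λ g) (hΛ : 0 ≤ Λ)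
    (q : ℝ × ℝ) : hA h hκ hκ1 hl hΛ q = mA g q := rfl

theorem Bc.refl (h : Bc κ g) : Bc κ (fun x => g (-x)) := by
  intro x x' y y' h1 h2 h3
  have := h (-y') (-y) (-x') (-x) (by linarith) (by linarith) (by linarith)
  simp only
  nlinarith

/-- the homeomorphism for the upper right vertices -/
noncomputable def hB (h : Bc κ g) (hκ : 0 < κ) (hκ1 : κ ≤ 1) (hl : Lip Λ g) (hΛ : 0 ≤ Λ) :
    (ℝ × ℝ) ≃ₜ (ℝ × ℝ) := (sig.trans (hA h.refl hκ hκ1 hl.refl hΛ)).trans rho

theorem hB_apply (h : Bc κ g) (hκ : 0 < κ) (hκ1 : κ ≤ 1) (hl : Lip Λ g) (hΛ : 0 ≤ Λ)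
    (q : ℝ × ℝ) : hB h hκ hκ1 hl hΛ q = mB g q := by
  obtain ⟨s, t⟩ := q
  show rho (hA h.refl hκ hκ1 hl.refl hΛ (sig (s, t))) = _
  rw [hA_apply]
  have e : -max (-t) (-s) = min s t := by
    rw [max_neg_neg, neg_neg, min_comm]
  simp only [mA, mB, rho, sig]
  ext
  · simp [e]; ring
  · simp; ring

theorem Hn_exp (h : Bc κ g) (hκ1 : κ ≤ 1) (hg : Continuous g) (Y : ℝ) {m m' : ℝ} (hm : m ≤ m') :
    κ * (m' - m) ≤ (m' - g m' + g (min m' (m' + g m' - Y))) - (m - g m + g (min m (m + g m - Y))) := by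
  have hg' : Continuous fun x => g (-x) := by fun_prop
  have := Fn_exp h.refl hκ1 hg' Y (show -m' ≤ -m by linarith)
  unfold Fn at this
  simp only [neg_neg] at this
  have e : ∀ x : ℝ, -max (-x) (-x - g x + Y) = min x (x + g x - Y) := by
    intro x
    rw [show -x - g x + Y = -(x + g x - Y) by ring, max_neg_neg, neg_neg]
  rw [e, e] at this
  linarith

/-- below or on the graph -/
theorem mA_below (s t : ℝ) (h : t ≤ s) : mA g (s, t) = (s, g s + t - s) := by
  simp only [mA, max_eq_left h]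
  ext <;> simp

theorem mB_below (s t : ℝ) (h : t ≤ s) : mB g (s, t) = (t, g t + t - s) := by
  simp only [mB, min_eq_right h]
  ext <;> simp

theorem mA_above (s t : ℝ) (h : s ≤ t) : mA g (s, t) = (s - g t + g s, g s + t - s) := by
  simp only [mA, max_eq_right h]

theorem mB_above (s t : ℝ) (h : s ≤ t) : mB g (s, t) = (t - g t + g s, g t + t - s) := by
  simp only [mB, min_eq_left h]

/-- above the graph means `s < t` -/
theorem above_iff (h : Bc κ g) (hκ : 0 < κ) (hκ1 : κ ≤ 1) (hl : Lip Λ g) (hΛ : 0 ≤ Λ)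
    (s t : ℝ) : (g (mA g (s, t)).1 < (mA g (s, t)).2 ↔ s < t) ∧
      (g (mB g (s, t)).1 < (mB g (s, t)).2 ↔ s < t) := by
  constructor
  · constructor
    · intro hh
      by_contra hst
      push Not at hst
      rw [mA_below s t hst] at hh
      simp only at hh
      linarith
    · intro hst
      by_contra hh
      push Not at hh
      set X := (mA g (s, t)).1 with hX
      set Y := (mA g (s, t)).2 with hY
      have e := mA_below (g := g) X (X + Y - g X) (by linarith)
      rw [show g X + (X + Y - g X) - X = Y by ring, hX, hY] at e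
      have e2 := mA_inj h hκ hκ1 hl hΛ (e.trans (by rfl : _ = mA g (s, t)))
      have e3 := congrArg Prod.fst e2
      have e4 := congrArg Prod.snd e2
      simp only at e3 e4
      rw [← hX] at e3 e4
      rw [← hY] at e4
      linarith
  · have hBinj : Function.Injective (mB g) := by
      have : mB g = hB h hκ hκ1 hl hΛ := by funext q; rw [hB_apply]
      rw [this]; exact (hB h hκ hκ1 hl hΛ).injective
    constructor
    · intro hh
      by_contra hst
      push Not at hst
      rw [mB_below s t hst] at hh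
      simp only at hh
      linarith
    · intro hst
      by_contra hh
      push Not at hh
      set X := (mB g (s, t)).1 with hX
      set Y := (mB g (s, t)).2 with hY
      have e := mB_below (g := g) (X + g X - Y) X (by linarith)
      rw [show g X + X - (X + g X - Y) = Y by ring, hX, hY] at e
      have e2 := hBinj (e.trans (by rfl : _ = mB g (s, t)))
      have e3 := congrArg Prod.fst e2
      have e4 := congrArg Prod.snd e2
      simp only at e3 e4
      rw [← hX] at e3 e4
      rw [← hY] at e3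
      linarith

end Pool.Agent.W675.SqT
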