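import Pool.Agent.W675.SqM

/-! The two maps have the same Jacobian, so the map from upper left to upper right vertices preserves
the area (turning condition version). -/

set_option autoImplicit false
open Set Filter Topology MeasureTheory

namespace Pool.Agent.W675.SqT

open Pool.Agent.W675.SqG (Lip rho sig dA dB det_dA det_dB bad bad_null null_image)

variable {κ Λ : ℝ} {g : ℝ → ℝ}

noncomputable def dA2 (a : ℝ) : (ℝ × ℝ) →L[ℝ] (ℝ × ℝ) :=
  (ContinuousLinearMap.fst ℝ ℝ ℝ).prod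
  (a • ContinuousLinearMap.fst ℝ ℝ ℝ + ContinuousLinearMap.snd ℝ ℝ ℝ
    - ContinuousLinearMap.fst ℝ ℝ ℝ)

noncomputable def dB2 (b : ℝ) : (ℝ × ℝ) →L[ℝ] (ℝ × ℝ) :=
  (ContinuousLinearMap.snd ℝ ℝ ℝ).prod
  (b • ContinuousLinearMap.snd ℝ ℝ ℝ + ContinuousLinearMap.snd ℝ ℝ ℝ
    - ContinuousLinearMap.fst ℝ ℝ ℝ)

theorem det_dA2 (a : ℝ) : (dA2 a).det = 1 := by
  rw [ContinuousLinearMap.det, ← LinearMap.det_toMatrix (Module.Basis.finTwoProd ℝ),
    Matrix.det_fin_two]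
  simp [LinearMap.toMatrix_apply, dA2]

theorem det_dB2 (b : ℝ) : (dB2 b).det = 1 := by
  rw [ContinuousLinearMap.det, ← LinearMap.det_toMatrix (Module.Basis.finTwoProd ℝ),
    Matrix.det_fin_two]
  simp [LinearMap.toMatrix_apply, dB2]

/-- the derivative of `mA` -/
noncomputable def DA (g : ℝ → ℝ) (q : ℝ × ℝ) : (ℝ × ℝ) →L[ℝ] (ℝ × ℝ) :=
  if q.1 < q.2 then dA (deriv g q.1) (deriv g q.2) else dA2 (deriv g q.1)

noncomputable def DB (g : ℝ → ℝ) (q : ℝ × ℝ) : (ℝ × ℝ) →L[ℝ] (ℝ × ℝ) :=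
  if q.1 < q.2 then dB (deriv g q.1) (deriv g q.2) else dB2 (deriv g q.2)

theorem det_eq (q : ℝ × ℝ) : (DA g q).det = (DB g q).det := by
  unfold DA DB
  split_ifs
  · rw [det_dA, det_dB]
  · rw [det_dA2, det_dB2]

/-- the bad set -/
def bad2 (g : ℝ → ℝ) : Set (ℝ × ℝ) := bad g ∪ {q | q.1 = q.2}

theorem diag_null : volume {q : ℝ × ℝ | q.1 = q.2} = 0 := by
  rw [Measure.volume_eq_prod, Measure.measure_prod_null
    (measurableSet_eq_fun measurable_fst measurable_snd)]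
  refine Filter.Eventually.of_forall fun x => ?_
  have : Prod.mk x ⁻¹' {q : ℝ × ℝ | q.1 = q.2} = {x} := by
    ext y
    simp only [mem_preimage, mem_ofPred_eq, mem_singleton_iff]
    exact eq_comm
  show volume (Prod.mk x ⁻¹' {q : ℝ × ℝ | q.1 = q.2}) = 0
  rw [this]
  simp

theorem bad2_null (hl : Lip Λ g) (hΛ : 0 ≤ Λ) : volume (bad2 g) = 0 :=
  measure_union_null (bad_null hl hΛ) diag_null

theorem lt_nhds {q : ℝ × ℝ} (h : q.1 < q.2) : ∀ᶠ p in 𝓝 q, p.1 < p.2 :=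
  (isOpen_lt continuous_fst continuous_snd).mem_nhds h

theorem gt_nhds {q : ℝ × ℝ} (h : q.2 < q.1) : ∀ᶠ p in 𝓝 q, p.2 < p.1 :=
  (isOpen_lt continuous_snd continuous_fst).mem_nhds h

theorem hasD_A {q : ℝ × ℝ} (hq : q ∉ bad2 g) : HasFDerivAt (mA g) (DA g q) q := by
  simp only [bad2, mem_union, not_or, bad, mem_ofPred_eq, not_not] at hq
  obtain ⟨⟨h1, h2⟩, h3⟩ := hq
  unfold DA
  rcases lt_or_gt_of_ne h3 with h | h
  · rw [if_pos h]
    refine (SqG.hasD_A h1.hasDerivAt h2.hasDerivAt).congr_of_eventuallyEq ?_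
    filter_upwards [lt_nhds h] with p hp
    rw [show p = (p.1, p.2) from rfl, mA_above _ _ hp.le]
    rfl
  · rw [if_neg (by linarith)]
    have f1 : HasFDerivAt (fun q : ℝ × ℝ => g q.1) (deriv g q.1 • ContinuousLinearMap.fst ℝ ℝ ℝ) q :=
      h1.hasDerivAt.comp_hasFDerivAt q hasFDerivAt_fst
    refine (hasFDerivAt_fst.prodMk ((f1.add hasFDerivAt_snd).sub hasFDerivAt_fst)).congr_of_eventuallyEq ?_
    filter_upwards [gt_nhds h] with p hp
    rw [show p = (p.1, p.2) from rfl, mA_below _ _ hp.le]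
    rfl

theorem hasD_B {q : ℝ × ℝ} (hq : q ∉ bad2 g) : HasFDerivAt (mB g) (DB g q) q := by
  simp only [bad2, mem_union, not_or, bad, mem_ofPred_eq, not_not] at hq
  obtain ⟨⟨h1, h2⟩, h3⟩ := hq
  unfold DB
  rcases lt_or_gt_of_ne h3 with h | h
  · rw [if_pos h]
    refine (SqG.hasD_B h1.hasDerivAt h2.hasDerivAt).congr_of_eventuallyEq ?_
    filter_upwards [lt_nhds h] with p hp
    rw [show p = (p.1, p.2) from rfl, mB_above _ _ hp.le]
    rfl
  · rw [if_neg (by linarith)]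
    have f1 : HasFDerivAt (fun q : ℝ × ℝ => g q.2) (deriv g q.2 • ContinuousLinearMap.snd ℝ ℝ ℝ) q :=
      h2.hasDerivAt.comp_hasFDerivAt q hasFDerivAt_snd
    refine (hasFDerivAt_snd.prodMk ((f1.add hasFDerivAt_snd).sub hasFDerivAt_fst)).congr_of_eventuallyEq ?_
    filter_upwards [gt_nhds h] with p hp
    rw [show p = (p.1, p.2) from rfl, mB_below _ _ hp.le]
    rfl

theorem lip_A (h : Lip Λ g) (hΛ : 0 ≤ Λ) : ∃ K : NNReal, LipschitzWith K (mA g) := by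
  have hl : LipschitzWith ⟨Λ, hΛ⟩ g := LipschitzWith.of_dist_le_mul fun x y => by
    rw [Real.dist_eq, Real.dist_eq]; exact h x y
  have h1 := hl.comp (LipschitzWith.prod_fst (α := ℝ) (β := ℝ))
  have h2 := hl.comp ((LipschitzWith.prod_fst (α := ℝ) (β := ℝ)).max
    (LipschitzWith.prod_snd (α := ℝ) (β := ℝ)))
  exact ⟨_, ((LipschitzWith.prod_fst.sub h2).add h1).prodMk
    ((h1.add LipschitzWith.prod_snd).sub LipschitzWith.prod_fst)⟩

theorem lip_B (h : Lip Λ g) (hΛ : 0 ≤ Λ) : ∃ K : NNReal, LipschitzWith K (mB g) := by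
  have hl : LipschitzWith ⟨Λ, hΛ⟩ g := LipschitzWith.of_dist_le_mul fun x y => by
    rw [Real.dist_eq, Real.dist_eq]; exact h x y
  have h1 := hl.comp ((LipschitzWith.prod_fst (α := ℝ) (β := ℝ)).min
    (LipschitzWith.prod_snd (α := ℝ) (β := ℝ)))
  have h2 := hl.comp (LipschitzWith.prod_snd (α := ℝ) (β := ℝ))
  exact ⟨_, ((LipschitzWith.prod_snd.sub h2).add h1).prodMk
    ((h2.add LipschitzWith.prod_snd).sub LipschitzWith.prod_fst)⟩

/-- area of the image -/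
theorem area_image {f : ℝ × ℝ → ℝ × ℝ} {K : NNReal} (hf : LipschitzWith K f)
    (hinj : Function.Injective f) {f' : ℝ × ℝ → ((ℝ × ℝ) →L[ℝ] (ℝ × ℝ))} {B : Set (ℝ × ℝ)}
    (hd : ∀ q : ℝ × ℝ, q ∉ B → HasFDerivAt f (f' q) q)
    (hbad : volume B = 0) {E : Set (ℝ × ℝ)} (hE : MeasurableSet E) :
    volume (f '' E) = ∫⁻ q in E, ENNReal.ofReal |(f' q).det| := by
  set N := toMeasurable volume B with hN
  have hN0 : volume N = 0 := by rw [hN, measure_toMeasurable, hbad]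
  have hNm : MeasurableSet N := measurableSet_toMeasurable _ _
  have hsub : B ⊆ N := subset_toMeasurable _ _
  have h1 : volume (f '' (E \ N)) =
      ∫⁻ q in E \ N, ENNReal.ofReal |(f' q).det| := by
    symm
    apply lintegral_abs_det_fderiv_eq_addHaar_image (μ := volume) (hE.diff hNm)
    · intro q hq
      exact (hd q fun h => hq.2 (hsub h)).hasFDerivWithinAt
    · exact hinj.injOn
  have h2 : volume (f '' E) = volume (f '' (E \ N)) := by
    apply le_antisymm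
    · have : f '' E ⊆ f '' (E \ N) ∪ f '' N := by
        rw [← image_union]
        apply image_mono
        intro q hq
        by_cases h : q ∈ N
        · exact Or.inr h
        · exact Or.inl ⟨hq, h⟩
      refine (measure_mono this).trans ((measure_union_le _ _).trans ?_)
      rw [null_image hf hN0, add_zero]
    · exact measure_mono (image_mono sdiff_subset)
  rw [h2, h1]
  apply setLIntegral_congr
  exact sdiff_null_ae_eq_self hN0

/-- the map from upper left to upper right vertices -/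
noncomputable def phi (h : Bc κ g) (hκ : 0 < κ) (hκ1 : κ ≤ 1) (hl : Lip Λ g) (hΛ : 0 ≤ Λ) :
    (ℝ × ℝ) ≃ₜ (ℝ × ℝ) := (hA h hκ hκ1 hl hΛ).symm.trans (hB h hκ hκ1 hl hΛ)

theorem phi_area (h : Bc κ g) (hκ : 0 < κ) (hκ1 : κ ≤ 1) (hl : Lip Λ g) (hΛ : 0 ≤ Λ)
    {E : Set (ℝ × ℝ)} (hE : MeasurableSet E) : volume (phi h hκ hκ1 hl hΛ '' E) = volume E := by
  set S := (hA h hκ hκ1 hl hΛ).symm '' E with hS
  have hSm : MeasurableSet S := by
    rw [hS, ← Homeomorph.preimage_symm, Homeomorph.symm_symm]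
    exact (hA h hκ hκ1 hl hΛ).measurable hE
  have e1 : phi h hκ hκ1 hl hΛ '' E = mB g '' S := by
    rw [hS, image_image]
    apply image_congr
    intro q _
    rw [← hB_apply h hκ hκ1 hl hΛ]
    rfl
  have e2 : E = mA g '' S := by
    rw [hS, image_image]
    have : (fun x => mA g ((hA h hκ hκ1 hl hΛ).symm x)) = fun x => x := by
      funext x
      rw [← hA_apply h hκ hκ1 hl hΛ]
      exact (hA h hκ hκ1 hl hΛ).apply_symm_apply x
    rw [this, image_id']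
  obtain ⟨KA, hKA⟩ := lip_A hl hΛ
  obtain ⟨KB, hKB⟩ := lip_B hl hΛ
  have hBinj : Function.Injective (mB g) := by
    have : mB g = hB h hκ hκ1 hl hΛ := by funext q; rw [hB_apply]
    rw [this]; exact (hB h hκ hκ1 hl hΛ).injective
  conv_rhs => rw [e2]
  rw [e1, area_image hKB hBinj (f' := DB g) (fun q hq => hasD_B hq) (bad2_null hl hΛ) hSm,
    area_image hKA (mA_inj h hκ hκ1 hl hΛ) (f' := DA g) (fun q hq => hasD_A hq)
      (bad2_null hl hΛ) hSm]
  simp only [det_eq]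

/-- description of `phi` -/
theorem phi_spec (h : Bc κ g) (hκ : 0 < κ) (hκ1 : κ ≤ 1) (hl : Lip Λ g) (hΛ : 0 ≤ Λ)
    (p : ℝ × ℝ) : ∃ s t : ℝ, p = mA g (s, t) ∧ phi h hκ hκ1 hl hΛ p = mB g (s, t) := by
  obtain ⟨⟨s, t⟩, rfl⟩ := mA_surj h hκ hκ1 (hl.cont hΛ) p
  refine ⟨s, t, rfl, ?_⟩
  show hB h hκ hκ1 hl hΛ ((hA h hκ hκ1 hl hΛ).symm (mA g (s, t))) = _
  rw [← hA_apply h hκ hκ1 hl hΛ, Homeomorph.symm_apply_apply, hB_apply]

theorem phi_graph (h : Bc κ g) (hκ : 0 < κ) (hκ1 : κ ≤ 1) (hl : Lip Λ g) (hΛ : 0 ≤ Λ)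
    (x : ℝ) : phi h hκ hκ1 hl hΛ (x, g x) = (x, g x) := by
  have e : mA g (x, x) = (x, g x) := by simp [mA]
  have e2 : mB g (x, x) = (x, g x) := by simp [mB]
  have : phi h hκ hκ1 hl hΛ (mA g (x, x)) = mB g (x, x) := by
    show hB h hκ hκ1 hl hΛ ((hA h hκ hκ1 hl hΛ).symm (mA g (x, x))) = _
    rw [← hA_apply h hκ hκ1 hl hΛ, Homeomorph.symm_apply_apply, hB_apply]
  rwa [e, e2] at this

theorem phi_above (h : Bc κ g) (hκ : 0 < κ) (hκ1 : κ ≤ 1) (hl : Lip Λ g) (hΛ : 0 ≤ Λ)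
    (p : ℝ × ℝ) : g (phi h hκ hκ1 hl hΛ p).1 < (phi h hκ hκ1 hl hΛ p).2 ↔ g p.1 < p.2 := by
  obtain ⟨s, t, rfl, e⟩ := phi_spec h hκ hκ1 hl hΛ p
  rw [e, (above_iff h hκ hκ1 hl hΛ s t).1, (above_iff h hκ hκ1 hl hΛ s t).2]

end Pool.Agent.W675.SqT
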