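import Pool.Agent.W675.SqN
import Pool.Agent.W675.SqC
import Pool.Agent.H765R3.Peg.Conv

/-! The Jordan curve made of a Lipschitz graph and an arc above it: its inside. -/

set_option autoImplicit false
open Complex Set Filter Topology MeasureTheory Metric

namespace Pool.Agent.W675.SqT

open Pool.Agent.H763R2.An Pool.Agent.Helper265.Br
open Pool.Agent.W675.SqG (Lip rho sig crossing frontier_all)

/-- a Lipschitz function and an arc above its graph over `[0, 1]` -/
structure Cfg (κ L : ℝ) (g : ℝ → ℝ) (a : ℝ → ℂ) : Prop where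
  lip : Lip L g
  hL : 0 ≤ L
  bc : Bc κ g
  hκ : 0 < κ
  hκ1 : κ ≤ 1
  cont : ContinuousOn a (Icc 0 1)
  inj : InjOn a (Icc 0 1)
  e0 : a 0 = ⟨0, g 0⟩
  e1 : a 1 = ⟨1, g 1⟩
  up : ∀ t ∈ Ioo (0:ℝ) 1, g (a t).re < (a t).im

variable {κ L : ℝ} {g : ℝ → ℝ} {a : ℝ → ℂ}

open Classical in
/-- one period of the curve -/
noncomputable def per0 (g : ℝ → ℝ) (a : ℝ → ℂ) (t : ℝ) : ℂ :=
  if t ≤ 1 / 2 then ⟨2 * t, g (2 * t)⟩ else a (2 - 2 * t)

theorem gr_cont (C : Cfg κ L g a) : Continuous fun x : ℝ => (⟨x, g x⟩ : ℂ) := by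
  have h := C.lip.cont C.hL
  have : (fun x : ℝ => (⟨x, g x⟩ : ℂ)) = fun x : ℝ => (x : ℂ) + (g x : ℂ) * I := by
    funext x
    apply Complex.ext <;> simp
  rw [this]
  fun_prop

theorem per0_cont (C : Cfg κ L g a) : ContinuousOn (per0 g a) (Icc 0 (0 + 1)) := by
  have h1 : ContinuousOn (fun t : ℝ => (⟨2 * t, g (2 * t)⟩ : ℂ)) (Icc 0 (1 / 2)) :=
    ((gr_cont C).comp (continuous_const.mul continuous_id)).continuousOn
  have h2 : ContinuousOn (fun t : ℝ => a (2 - 2 * t)) (Icc (1 / 2) 1) := by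
    apply C.cont.comp (by fun_prop)
    intro t ht
    exact ⟨by linarith [ht.2], by linarith [ht.1]⟩
  have e : Icc (0:ℝ) (0 + 1) = Icc 0 (1 / 2) ∪ Icc (1 / 2) 1 := by
    rw [Icc_union_Icc_eq_Icc (by norm_num) (by norm_num)]; norm_num
  rw [e]
  apply ContinuousOn.union_of_isClosed _ _ isClosed_Icc isClosed_Icc
  · apply h1.congr
    intro t ht
    simp only [per0, if_pos ht.2]
  · apply h2.congr
    intro t ht
    simp only [per0]
    split_ifs with h
    · have : t = 1 / 2 := le_antisymm h ht.1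
      subst this
      norm_num
      rw [C.e1]
    · rfl

theorem per0_ends (C : Cfg κ L g a) : per0 g a 0 = per0 g a (0 + 1) := by
  simp only [per0]
  norm_num
  rw [C.e0]

noncomputable def cA (g : ℝ → ℝ) (a : ℝ → ℂ) : AddCircle (1:ℝ) → ℂ :=
  AddCircle.liftIco 1 0 (per0 g a)

theorem cA_cont (C : Cfg κ L g a) : Continuous (cA g a) :=
  AddCircle.liftIco_continuous (per0_ends C) (per0_cont C)

/-- the closed curve -/
noncomputable def cc (g : ℝ → ℝ) (a : ℝ → ℂ) (t : ℝ) : ℂ := cA g a (t : AddCircle (1:ℝ))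

theorem cc_eq {t : ℝ} (ht : t ∈ Ico (0:ℝ) 1) : cc g a t = per0 g a t := by
  unfold cc cA
  exact AddCircle.liftIco_coe_apply (by simpa using ht)

theorem cc_loop (C : Cfg κ L g a) : Loop (cc g a) :=
  ⟨(cA_cont C).comp (AddCircle.continuous_mk' 1), fun t => by
    unfold cc
    rw [AddCircle.coe_add, AddCircle.coe_period, add_zero]⟩

theorem per0_inj (C : Cfg κ L g a) : InjOn (per0 g a) (Ico 0 1) := by
  have hup : ∀ t ∈ Ico (0:ℝ) 1, 1 / 2 < t → g (a (2 - 2 * t)).re < (a (2 - 2 * t)).im :=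
    fun t ht h => C.up _ ⟨by linarith [ht.2], by linarith⟩
  intro s hs t ht e
  simp only [per0] at e
  split_ifs at e with h1 h2 h2
  · have := congrArg Complex.re e
    simp only at this
    linarith
  · exfalso
    have := hup t ht (not_le.1 h2)
    rw [← e] at this
    simp at this
  · exfalso
    have := hup s hs (not_le.1 h1)
    rw [e] at this
    simp at this
  · have := C.inj ⟨by linarith [hs.2], by linarith [not_le.1 h1]⟩
      ⟨by linarith [ht.2], by linarith [not_le.1 h2]⟩ e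
    linarith

theorem cc_inj (C : Cfg κ L g a) : Inj (cc g a) :=
  Pool.Agent.H765R3.Peg.inj_of (cc_loop C) (by
    intro s hs t ht e
    rw [cc_eq hs, cc_eq ht] at e
    exact per0_inj C hs ht e)

/-- the curve parametrised by the circle -/
noncomputable def cir (g : ℝ → ℝ) (a : ℝ → ℂ) : Circle → ℂ :=
  cA g a ∘ (AddCircle.homeomorphCircle (one_ne_zero : (1:ℝ) ≠ 0)).symm

theorem cir_cont (C : Cfg κ L g a) : Continuous (cir g a) :=
  (cA_cont C).comp (Homeomorph.continuous _)

theorem cA_inj (C : Cfg κ L g a) : Function.Injective (cA g a) := by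
  intro u v e
  obtain ⟨s, hs, rfl⟩ := (AddCircle.coe_image_Ico_eq (1:ℝ) 0 ▸ mem_univ u :
    u ∈ ((↑) : ℝ → AddCircle (1:ℝ)) '' Ico 0 (0 + 1))
  obtain ⟨t, ht, rfl⟩ := (AddCircle.coe_image_Ico_eq (1:ℝ) 0 ▸ mem_univ v :
    v ∈ ((↑) : ℝ → AddCircle (1:ℝ)) '' Ico 0 (0 + 1))
  rw [zero_add] at hs ht
  have h1 : cc g a s = cc g a t := e
  rw [cc_eq hs, cc_eq ht] at h1
  rw [per0_inj C hs ht h1]

theorem cir_inj (C : Cfg κ L g a) : Function.Injective (cir g a) :=
  (cA_inj C).comp (Homeomorph.injective _)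

theorem range_cir (C : Cfg κ L g a) : range (cir g a) = range (cc g a) := by
  have h1 : range (cir g a) = range (cA g a) := by
    unfold cir
    rw [range_comp, (AddCircle.homeomorphCircle (one_ne_zero : (1:ℝ) ≠ 0)).symm.surjective.range_eq,
      image_univ]
  rw [h1]
  apply Subset.antisymm
  · rintro _ ⟨u, rfl⟩
    obtain ⟨s, hs, rfl⟩ := (AddCircle.coe_image_Ico_eq (1:ℝ) 0 ▸ mem_univ u :
      u ∈ ((↑) : ℝ → AddCircle (1:ℝ)) '' Ico 0 (0 + 1))
    exact ⟨s, rfl⟩
  · rintro _ ⟨t, rfl⟩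
    exact ⟨_, rfl⟩

/-- the points of the curve -/
theorem mem_range (C : Cfg κ L g a) (z : ℂ) : z ∈ range (cc g a) ↔
    (∃ x ∈ Icc (0:ℝ) 1, z = ⟨x, g x⟩) ∨ ∃ t ∈ Ioo (0:ℝ) 1, z = a t := by
  constructor
  · rintro ⟨t, rfl⟩
    have e : cc g a t = cc g a (Int.fract t) := by
      have := (cc_loop C).per_int (Int.fract t) ⌊t⌋
      rwa [Int.fract_add_floor] at this
    rw [e, cc_eq ⟨Int.fract_nonneg t, Int.fract_lt_one t⟩]
    set s := Int.fract t
    have hs : s ∈ Ico (0:ℝ) 1 := ⟨Int.fract_nonneg t, Int.fract_lt_one t⟩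
    simp only [per0]
    split_ifs with h
    · exact Or.inl ⟨2 * s, ⟨by linarith [hs.1], by linarith⟩, rfl⟩
    · exact Or.inr ⟨2 - 2 * s, ⟨by linarith [hs.2], by linarith [not_le.1 h]⟩, rfl⟩
  · rintro (⟨x, hx, rfl⟩ | ⟨t, ht, rfl⟩)
    · refine ⟨x / 2, ?_⟩
      rw [cc_eq ⟨by linarith [hx.1], by linarith [hx.2]⟩]
      simp only [per0]
      rw [if_pos (by linarith [hx.2])]
      congr 2 <;> ring_nf
    · refine ⟨1 - t / 2, ?_⟩
      rw [cc_eq ⟨by linarith [ht.2], by linarith [ht.1]⟩]
      simp only [per0]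
      rw [if_neg (by push Not; linarith [ht.2])]
      congr 1; ring

theorem above_of_mem (C : Cfg κ L g a) {z : ℂ} (hz : z ∈ range (cc g a)) : g z.re ≤ z.im := by
  rcases (mem_range C z).1 hz with ⟨x, -, rfl⟩ | ⟨t, ht, rfl⟩
  · exact le_rfl
  · exact (C.up t ht).le

/-- the base point -/
noncomputable def pt (g : ℝ → ℝ) : ℂ := ⟨1 / 2, g (1 / 2)⟩

/-- the region just above the graph near the base point -/
def reg (g : ℝ → ℝ) (δ : ℝ) : Set ℂ :=
  {z | |z.re - 1 / 2| < δ ∧ g z.re < z.im ∧ z.im < g z.re + δ}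

theorem reg_conn (C : Cfg κ L g a) {δ : ℝ} : IsPreconnected (reg g δ) := by
  have h := C.lip.cont C.hL
  have e : reg g δ = (fun q : ℝ × ℝ => (⟨q.1, g q.1 + q.2⟩ : ℂ)) ''
      (Ioo (1 / 2 - δ) (1 / 2 + δ) ×ˢ Ioo 0 δ) := by
    ext z
    constructor
    · rintro ⟨h1, h2, h3⟩
      rw [abs_lt] at h1
      refine ⟨(z.re, z.im - g z.re), ⟨⟨by linarith [h1.1], by linarith [h1.2]⟩,
        ⟨by simp only; linarith, by simp only; linarith⟩⟩, ?_⟩
      apply Complex.ext
      · rfl
      · simp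
    · rintro ⟨⟨x, y⟩, ⟨⟨h1, h2⟩, h3, h4⟩, rfl⟩
      simp only at h1 h2 h3 h4
      refine ⟨?_, ?_, ?_⟩
      · simp only [abs_lt]; constructor <;> linarith
      · simp only; linarith
      · simp only; linarith
  rw [e]
  apply (isPreconnected_Ioo.prod isPreconnected_Ioo).image
  have : (fun q : ℝ × ℝ => (⟨q.1, g q.1 + q.2⟩ : ℂ)) =
      fun q : ℝ × ℝ => (q.1 : ℂ) + ((g q.1 + q.2 : ℝ) : ℂ) * I := by
    funext q
    apply Complex.ext <;> simp
  rw [this]
  apply Continuous.continuousOn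
  fun_prop

/-- distance of the base point to the arc -/
theorem exists_gap (C : Cfg κ L g a) : ∃ r > 0, ∀ t ∈ Icc (0:ℝ) 1, r ≤ ‖a t - pt g‖ := by
  have hK : IsCompact (a '' Icc 0 1) := isCompact_Icc.image_of_continuousOn C.cont
  have hn : pt g ∉ a '' Icc 0 1 := by
    rintro ⟨t, ht, e⟩
    rcases eq_or_lt_of_le ht.1 with h | h
    · rw [← h, C.e0] at e
      have := congrArg Complex.re e
      simp [pt] at this
    · rcases eq_or_lt_of_le ht.2 with h' | h'
      · rw [h', C.e1] at e
        have := congrArg Complex.re e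
        simp [pt] at this
      · have := C.up t ⟨h, h'⟩
        rw [e] at this
        simp [pt] at this
  obtain ⟨r, hr, hb⟩ := Metric.isOpen_iff.1 hK.isClosed.isOpen_compl (pt g) hn
  refine ⟨r, hr, fun t ht => ?_⟩
  by_contra hcon
  push Not at hcon
  exact hb (by rw [mem_ball, dist_eq_norm]; exact hcon) ⟨t, ht, rfl⟩

/-- the inside -/
theorem inside (C : Cfg κ L g a) : ∃ (D : Set ℂ) (δ : ℝ), 0 < δ ∧ IsOpen D ∧ IsConnected D ∧
    Bornology.IsBounded D ∧ frontier D = range (cc g a) ∧ reg g δ ⊆ D := by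
  obtain ⟨r, hr, hgap⟩ := exists_gap C
  have hLp := cc_loop C
  have hL1 : 0 < 1 + L := by linarith [C.hL]
  set δ := min (r / (4 * (1 + L))) (1 / 4) with hδ
  have hδ0 : 0 < δ := lt_min (by positivity) (by norm_num)
  have hδr' : δ ≤ r / (4 * (1 + L)) := min_le_left _ _
  have hδr : δ * (4 * (1 + L)) ≤ r := by rwa [le_div_iff₀ (by positivity)] at hδr'
  have hδ4 : δ ≤ r / 4 := by nlinarith [mul_nonneg C.hL hδ0.le]
  have hregJ : reg g δ ⊆ (range (cc g a))ᶜ := by
    rintro z ⟨h1, h2, h3⟩ hz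
    rcases (mem_range C z).1 hz with ⟨x, -, rfl⟩ | ⟨t, ht, rfl⟩
    · simp at h2
    · have h4 := hgap t ⟨ht.1.le, ht.2.le⟩
      have h5 : ‖a t - pt g‖ ≤ |(a t - pt g).re| + |(a t - pt g).im| := norm_le_abs_re_add_abs_im _
      simp only [sub_re, sub_im, show (pt g).re = 1 / 2 from rfl, show (pt g).im = g (1 / 2) from rfl]
        at h5
      have h6 := C.lip (a t).re (1 / 2)
      have h7 : |g (a t).re - g (1 / 2)| ≤ L * δ :=
        h6.trans (mul_le_mul_of_nonneg_left h1.le C.hL)
      have h8 := abs_le.1 h7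
      have h9 : |(a t).im - g (1 / 2)| ≤ L * δ + δ := by
        rw [abs_le]; constructor <;> linarith
      nlinarith [mul_nonneg C.hL hδ0.le]
  have hη0 : 0 < δ / 2 := by linarith
  set η := δ / 2 with hη
  set zp : ℂ := pt g + η * I with hzp
  set zm : ℂ := pt g - η * I with hzm
  have hzp_reg : zp ∈ reg g δ := by
    refine ⟨?_, ?_, ?_⟩
    · simp [hzp, pt, hδ0]
    · simp [hzp, pt]; linarith
    · simp [hzp, pt]; linarith
  set K := range (cc g a) with hK
  have hKc : IsCompact K := by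
    rw [hK, ← range_cir C]
    exact isCompact_range (cir_cont C)
  have hzpK : zp ∉ K := hregJ hzp_reg
  have hzmK : zm ∉ K := by
    intro h
    have := above_of_mem C h
    simp [hzm, pt] at this
    linarith
  set D := connectedComponentIn Kᶜ zp with hD
  have hDo : IsOpen D := hKc.isClosed.isOpen_compl.connectedComponentIn
  have hzpD : zp ∈ D := mem_connectedComponentIn hzpK
  have hDc : IsConnected D := ⟨⟨zp, hzpD⟩, isPreconnected_connectedComponentIn⟩
  have hregD : reg g δ ⊆ D :=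
    (reg_conn C).subset_connectedComponentIn hzp_reg hregJ
  -- bounded
  have hDb : Bornology.IsBounded D := by
    by_contra hub
    have hum : ¬ Bornology.IsBounded (connectedComponentIn Kᶜ zm) := by
      intro hb
      have hray : (fun y : ℝ => (⟨1 / 2, y⟩ : ℂ)) '' Iic (g (1 / 2) - η) ⊆
          connectedComponentIn Kᶜ zm := by
        apply IsPreconnected.subset_connectedComponentIn
        · apply isPreconnected_Iic.image
          have : (fun y : ℝ => (⟨1 / 2, y⟩ : ℂ)) = fun y : ℝ => (1 / 2 : ℂ) + (y : ℂ) * I := by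
            funext y
            apply Complex.ext <;> simp
          rw [this]
          apply Continuous.continuousOn
          fun_prop
        · refine ⟨g (1 / 2) - η, mem_Iic.2 le_rfl, ?_⟩
          apply Complex.ext <;> simp [hzm, pt]
        · rintro _ ⟨y, hy, rfl⟩ h
          have := above_of_mem C h
          simp only at this
          rw [mem_Iic] at hy
          linarith
      obtain ⟨R, hR⟩ := hb.subset_closedBall 0
      have h1 := hR (hray ⟨min (g (1 / 2) - η) (-R - 1), mem_Iic.2 (min_le_left _ _), rfl⟩)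
      rw [mem_closedBall_zero_iff] at h1
      have h2 : |min (g (1 / 2) - η) (-R - 1)| ≤ R := by
        have := abs_im_le_norm (⟨1 / 2, min (g (1 / 2) - η) (-R - 1)⟩ : ℂ)
        exact this.trans h1
      have h3 := (abs_le.1 h2).1
      have h4 := min_le_right (g (1 / 2) - η) (-R - 1)
      linarith
    have heq := unb_eq hKc hzpK hzmK hub hum
    have hzmD : zm ∈ D := by rw [hD, heq]; exact mem_connectedComponentIn hzmK
    have hpath : IsPathConnected D := hDo.isConnected_iff_isPathConnected.1 hDc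
    have hj := hpath.joinedIn zp hzpD zm hzmD
    obtain ⟨γ, hγ⟩ := hj
    obtain ⟨n, hn⟩ := hLp.exW hzpK
    have hn' : IsWc (cc g a) zm n := by
      have := hLp.pathW (β := γ.extend) γ.continuous_extend (n := n) (fun s => ?_) (by
        rwa [γ.extend_zero])
      · rwa [γ.extend_one] at this
      · have hm : γ.extend s ∈ D := by
          have : γ.extend s ∈ range γ := by
            rw [← γ.extend_range]
            exact mem_range_self s
          obtain ⟨u, hu⟩ := this
          rw [← hu]; exact hγ u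
        exact connectedComponentIn_subset _ _ hm
    have ec : cc g a (1 / 4) = pt g := by
      rw [cc_eq ⟨by norm_num, by norm_num⟩]
      simp only [per0, pt]
      rw [if_pos (by norm_num)]
      norm_num
    refine crossing hLp (t0 := 1 / 4) (δ := η) (by norm_num) (by norm_num) hη0 ?_ ?_ ?_
      (n := n) (by rw [ec]; exact hn) (by rw [ec]; exact hn')
    · intro t ht hne hre
      rw [ec] at hre ⊢
      have key : ∀ s ∈ Icc (0:ℝ) 1, cc g a t = a s → η < |(cc g a t).im - (pt g).im| := by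
        intro s hs e
        have h1 := hgap s hs
        have h2 : ‖a s - pt g‖ ≤ |(a s - pt g).re| + |(a s - pt g).im| := norm_le_abs_re_add_abs_im _
        rw [← e] at h1 h2
        rw [sub_re, hre, sub_self, abs_zero, zero_add, sub_im] at h2
        linarith
      rcases eq_or_lt_of_le ht.2 with h1 | h1
      · subst h1
        apply key 0 ⟨le_rfl, by norm_num⟩
        have := hLp.per 0
        rw [zero_add] at this
        rw [this, cc_eq ⟨le_rfl, by norm_num⟩]
        simp only [per0]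
        rw [if_pos (by norm_num), C.e0]
        simp
      · by_cases h2 : t ≤ 1 / 2
        · exfalso
          rw [cc_eq ⟨ht.1, h1⟩] at hre
          simp only [per0, if_pos h2, pt] at hre
          apply hne
          linarith
        · apply key (2 - 2 * t) ⟨by linarith, by linarith [not_le.1 h2]⟩
          rw [cc_eq ⟨ht.1, h1⟩]
          simp only [per0, if_neg h2]
    · filter_upwards [Ioo_mem_nhdsGT (show (1/4:ℝ) < 1 / 2 by norm_num)] with t ht
      rw [ec, cc_eq ⟨by linarith [ht.1], by linarith [ht.2]⟩]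
      simp only [per0, if_pos ht.2.le, pt]
      linarith [ht.1]
    · filter_upwards [Ioo_mem_nhdsLT (show (0:ℝ) < 1 / 4 by norm_num)] with t ht
      rw [ec, cc_eq ⟨by linarith [ht.1], by linarith [ht.2]⟩]
      simp only [per0, if_pos (show t ≤ 1 / 2 by linarith [ht.2]), pt]
      linarith [ht.2]
  have hfr : frontier D = K := by
    apply frontier_all hLp (cc_inj C) hDo ⟨zp, hzpD⟩ hDb
    · rw [Set.disjoint_left]
      intro z hz
      exact connectedComponentIn_subset _ _ hz
    · exact aux_frontier hKc.isClosed zp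
  exact ⟨D, δ, hδ0, hDo, hDc, hDb, hfr, hregD⟩

end Pool.Agent.W675.SqT
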