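import Pool.Agent.W675.SqO

/-! The main argument: the curve and its image under the area preserving map meet. -/

set_option autoImplicit false
open Complex Set Filter Topology MeasureTheory Metric

namespace Pool.Agent.W675.SqT

open Pool.Agent.H763R2.An Pool.Agent.Helper265.Br
open Pool.Agent.W675.SqG (Lip rho sig pair crossing frontier_all)

variable {κ L : ℝ} {g : ℝ → ℝ} {a : ℝ → ℂ}

/-- plane as product -/
noncomputable def ee : ℂ ≃ₜ ℝ × ℝ := Complex.equivRealProdCLM.toHomeomorph

theorem ee_apply (z : ℂ) : ee z = (z.re, z.im) := rfl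

theorem ee_symm (q : ℝ × ℝ) : ee.symm q = ⟨q.1, q.2⟩ := by
  apply ee.injective
  rw [Homeomorph.apply_symm_apply, ee_apply]

theorem vol_ee {E : Set ℂ} : volume (ee '' E) = volume E := by
  have h := Complex.volume_preserving_equiv_real_prod.symm.measure_preimage_equiv E
  rw [← h]
  congr 1
  ext q
  constructor
  · rintro ⟨z, hz, rfl⟩
    show Complex.measurableEquivRealProd.symm _ ∈ E
    have : Complex.measurableEquivRealProd.symm (ee z) = z := by
      apply Complex.measurableEquivRealProd.injective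
      rw [MeasurableEquiv.apply_symm_apply]
      rfl
    rw [this]; exact hz
  · intro hq
    refine ⟨Complex.measurableEquivRealProd.symm q, hq, ?_⟩
    have := Complex.measurableEquivRealProd.apply_symm_apply q
    exact this

/-- the map on `ℂ` -/
noncomputable def Phi (C : Cfg κ L g a) : ℂ ≃ₜ ℂ := (ee.trans (phi C.bc C.hκ C.hκ1 C.lip C.hL)).trans ee.symm

theorem Phi_apply (C : Cfg κ L g a) (z : ℂ) :
    Phi C z = ⟨(phi C.bc C.hκ C.hκ1 C.lip C.hL (z.re, z.im)).1, (phi C.bc C.hκ C.hκ1 C.lip C.hL (z.re, z.im)).2⟩ := by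
  show ee.symm (phi C.bc C.hκ C.hκ1 C.lip C.hL (ee z)) = _
  rw [ee_symm, ee_apply]

theorem Phi_graph (C : Cfg κ L g a) (x : ℝ) : Phi C ⟨x, g x⟩ = ⟨x, g x⟩ := by
  rw [Phi_apply]
  simp only
  rw [phi_graph]

theorem Phi_above (C : Cfg κ L g a) (z : ℂ) : g (Phi C z).re < (Phi C z).im ↔ g z.re < z.im := by
  rw [Phi_apply]
  exact phi_above C.bc C.hκ C.hκ1 C.lip C.hL (z.re, z.im)

theorem Phi_vol (C : Cfg κ L g a) {E : Set ℂ} (hE : MeasurableSet E) :
    volume (Phi C '' E) = volume E := by
  have e1 : Phi C '' E = ee.symm '' (phi C.bc C.hκ C.hκ1 C.lip C.hL '' (ee '' E)) := by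
    rw [image_image, image_image]; rfl
  have e2 : ∀ S : Set (ℝ × ℝ), volume (ee.symm '' S) = volume S := by
    intro S
    rw [← vol_ee (E := ee.symm '' S), image_image]
    congr 1
    have : (fun x => ee (ee.symm x)) = fun x => x := by
      funext x; exact ee.apply_symm_apply x
    rw [this, image_id']
  rw [e1, e2, phi_area C.bc C.hκ C.hκ1 C.lip C.hL, vol_ee]
  rw [← Homeomorph.preimage_symm]
  exact ee.symm.measurable hE

theorem core (C : Cfg κ L g a) : ∃ t ∈ Ioo (0:ℝ) 1, ∃ t' ∈ Ioo (0:ℝ) 1, Phi C (a t) = a t' := by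
  by_contra hne
  push Not at hne
  obtain ⟨D, δ, hδ, hDo, hDc, hDb, hfr, hreg⟩ := inside C
  set Φ := Phi C with hΦ
  set J := range (cc g a) with hJ
  have hc1 := cir_cont C
  have hi1 := cir_inj C
  have hr1 := range_cir C
  -- the image
  set D' := Φ '' D with hD'
  have hDo' : IsOpen D' := Φ.isOpenMap D hDo
  have hDc' : IsConnected D' := hDc.image _ Φ.continuous.continuousOn
  have hDb' : Bornology.IsBounded D' := by
    have h1 : IsCompact (closure D) := hDb.isCompact_closure
    exact (h1.image Φ.continuous).isBounded.subset (image_mono subset_closure)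
  have hfr' : frontier D' = Φ '' J := by
    rw [hD', ← Φ.image_frontier, hfr]
  have hc2 : Continuous (Φ ∘ cir g a) := Φ.continuous.comp hc1
  have hi2 : Function.Injective (Φ ∘ cir g a) := Φ.injective.comp hi1
  have hr2 : range (Φ ∘ cir g a) = Φ '' J := by rw [range_comp, hr1]
  have hvol : volume D' = volume D := Phi_vol C hDo.measurableSet
  -- graph part
  have hgr : ∀ x ∈ Icc (0:ℝ) 1, (⟨x, g x⟩ : ℂ) ∈ J ∧ (⟨x, g x⟩ : ℂ) ∈ Φ '' J := by
    intro x hx
    have h1 : (⟨x, g x⟩ : ℂ) ∈ J := (mem_range C _).2 (Or.inl ⟨x, hx, rfl⟩)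
    exact ⟨h1, _, h1, Phi_graph C x⟩
  have haJ : ∀ t ∈ Ioo (0:ℝ) 1, a t ∈ J := fun t ht => (mem_range C _).2 (Or.inr ⟨t, ht, rfl⟩)
  -- the arc does not meet the image
  have h1 : ∀ t ∈ Ioo (0:ℝ) 1, a t ∉ Φ '' J := by
    rintro t ht ⟨w, hw, e⟩
    rcases (mem_range C w).1 hw with ⟨x, hx, rfl⟩ | ⟨t', ht', rfl⟩
    · rw [hΦ, Phi_graph] at e
      have := C.up t ht
      rw [← e] at this
      simp at this
    · exact hne t' ht' t ht e
  have h2 : ∀ t ∈ Ioo (0:ℝ) 1, Φ (a t) ∉ J := by
    intro t ht hw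
    rcases (mem_range C _).1 hw with ⟨x, hx, e⟩ | ⟨t', ht', e⟩
    · have := (Phi_above C (a t)).2 (C.up t ht)
      rw [← hΦ, e] at this
      simp at this
    · exact hne t ht t' ht' e
  have hAc : IsPreconnected (a '' Ioo 0 1) :=
    isPreconnected_Ioo.image _ (C.cont.mono Ioo_subset_Icc_self)
  have hhalf : (1 / 2 : ℝ) ∈ Ioo (0:ℝ) 1 := ⟨by norm_num, by norm_num⟩
  have cover : ∀ U : Set ℂ, IsOpen U → (frontier U)ᶜ ⊆ U ∪ (closure U)ᶜ := by
    intro U hU z hz
    by_contra hcon
    rw [mem_union, not_or, mem_compl_iff, not_not] at hcon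
    apply hz
    rw [hU.frontier_eq]
    exact ⟨hcon.2, hcon.1⟩
  have disj : ∀ U : Set ℂ, Disjoint U (closure U)ᶜ := by
    intro U
    rw [Set.disjoint_left]
    intro z hz hz'
    exact hz' (subset_closure hz)
  have split : ∀ U S : Set ℂ, IsOpen U → IsPreconnected S → Disjoint S (frontier U) →
      S ⊆ U ∨ S ⊆ (closure U)ᶜ := by
    intro U S hU hS hd
    have hcov : S ⊆ U ∪ (closure U)ᶜ := fun z hz =>
      cover U hU (fun h => Set.disjoint_left.1 hd hz h)
    rcases S.eq_empty_or_nonempty with rfl | ⟨z, hz⟩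
    · left; exact empty_subset _
    · rcases hcov hz with h | h
      · left
        exact IsPreconnected.subset_left_of_subset_union hU isClosed_closure.isOpen_compl (disj U)
          hcov ⟨z, hz, h⟩ hS
      · right
        exact IsPreconnected.subset_right_of_subset_union hU isClosed_closure.isOpen_compl (disj U)
          hcov ⟨z, hz, h⟩ hS
  rcases split D' (a '' Ioo 0 1) hDo' hAc (by
      rw [hfr', Set.disjoint_left]
      rintro _ ⟨t, ht, rfl⟩
      exact h1 t ht) with hA | hA
  · -- the arc lies inside the image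
    refine pair hc1 hi1 hc2 hi2 hDo hDc hDb (hfr.trans hr1.symm) hDo' hDc' hDb'
      (hfr'.trans hr2.symm) hvol.symm ?_ (x := a (1 / 2)) (by rw [hr1]; exact haJ _ hhalf)
      (hA ⟨_, hhalf, rfl⟩)
    rw [hr1]
    intro z hz
    rcases (mem_range C z).1 hz with ⟨x, hx, rfl⟩ | ⟨t, ht, rfl⟩
    · have := (hgr x hx).2
      rw [← hfr'] at this
      exact frontier_subset_closure this
    · exact subset_closure (hA ⟨t, ht, rfl⟩)
  · have hAc2 : IsPreconnected (Φ '' (a '' Ioo 0 1)) := hAc.image _ Φ.continuous.continuousOn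
    rcases split D (Φ '' (a '' Ioo 0 1)) hDo hAc2 (by
        rw [hfr, Set.disjoint_left]
        rintro _ ⟨_, ⟨t, ht, rfl⟩, rfl⟩
        exact h2 t ht) with hB | hB
    · refine pair hc2 hi2 hc1 hi1 hDo' hDc' hDb' (hfr'.trans hr2.symm) hDo hDc hDb
        (hfr.trans hr1.symm) hvol ?_ (x := Φ (a (1 / 2)))
        (by rw [hr2]; exact ⟨_, haJ _ hhalf, rfl⟩) (hB ⟨_, ⟨_, hhalf, rfl⟩, rfl⟩)
      rw [hr2]
      rintro _ ⟨w, hw, rfl⟩
      rcases (mem_range C w).1 hw with ⟨x, hx, rfl⟩ | ⟨t, ht, rfl⟩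
      · rw [hΦ, Phi_graph]
        have := (hgr x hx).1
        rw [← hfr] at this
        exact frontier_subset_closure this
      · exact subset_closure (hB ⟨_, ⟨t, ht, rfl⟩, rfl⟩)
    · -- the two insides meet
      have hmeet : (D ∩ D').Nonempty := by
        set p := pt g with hp
        have hfix : Φ.symm p = p := by
          rw [Homeomorph.symm_apply_eq]
          exact (Phi_graph C (1 / 2)).symm
        have hg := C.lip.cont C.hL
        -- open neighbourhood of the base point
        set O : Set ℂ := {z | |z.re - 1 / 2| < δ ∧ g z.re - δ < z.im ∧ z.im < g z.re + δ} with hO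
        have hOo : IsOpen O := by
          have e : O = {z : ℂ | |z.re - 1 / 2| < δ} ∩ ({z : ℂ | g z.re - δ < z.im} ∩
              {z : ℂ | z.im < g z.re + δ}) := rfl
          rw [e]
          refine (isOpen_lt (by fun_prop) (by fun_prop)).inter ((isOpen_lt ?_ ?_).inter
            (isOpen_lt ?_ ?_)) <;> fun_prop
        have hpO : p ∈ O := by
          refine ⟨?_, ?_, ?_⟩ <;> simp [hp, pt, hδ]
        have hOo2 : IsOpen (O ∩ Φ.symm ⁻¹' O) := hOo.inter (hOo.preimage Φ.symm.continuous)
        have hpO2 : p ∈ O ∩ Φ.symm ⁻¹' O := ⟨hpO, by rw [mem_preimage, hfix]; exact hpO⟩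
        obtain ⟨ε, hε, hb⟩ := Metric.isOpen_iff.1 hOo2 p hpO2
        set z : ℂ := p + (ε / 2 : ℝ) * I with hz
        have hzb : z ∈ ball p ε := by
          rw [mem_ball, dist_eq_norm, hz, add_sub_cancel_left, norm_mul, norm_I, mul_one,
            norm_real, Real.norm_eq_abs, abs_of_pos (by linarith)]
          linarith
        obtain ⟨hz1, hz2⟩ := hb hzb
        have habove : g z.re < z.im := by
          simp [hz, hp, pt, hε]
        have hreg1 : z ∈ reg g δ := ⟨hz1.1, habove, hz1.2.2⟩
        have habove2 : g (Φ.symm z).re < (Φ.symm z).im := by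
          rw [← Phi_above C, ← hΦ, Homeomorph.apply_symm_apply]
          exact habove
        have hreg2 : Φ.symm z ∈ reg g δ := ⟨hz2.1, habove2, hz2.2.2⟩
        exact ⟨z, hreg hreg1, Φ.symm z, hreg hreg2, Φ.apply_symm_apply z⟩
      have hDD : D ⊆ D' := by
        rcases split D' D hDo' hDc.isPreconnected (by
            rw [hfr', Set.disjoint_left]
            rintro z hz ⟨w, hw, rfl⟩
            rcases (mem_range C w).1 hw with ⟨x, hx, rfl⟩ | ⟨t, ht, rfl⟩
            · rw [hΦ, Phi_graph] at hz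
              have := (hgr x hx).1
              rw [← hfr, hDo.frontier_eq] at this
              exact this.2 hz
            · exact hB ⟨_, ⟨t, ht, rfl⟩, rfl⟩ (subset_closure hz)) with h | h
        · exact h
        · exfalso
          obtain ⟨z, hz, hz'⟩ := hmeet
          exact h hz (subset_closure hz')
      have h3 : a (1 / 2) ∈ closure D := by
        have := haJ _ hhalf
        rw [← hfr] at this
        exact frontier_subset_closure this
      exact hA ⟨_, hhalf, rfl⟩ (closure_mono hDD h3)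

/-- squares with two vertices on the graph and two on the arc -/
theorem core' (C : Cfg κ L g a) : ∃ t ∈ Ioo (0:ℝ) 1, ∃ t' ∈ Ioo (0:ℝ) 1, ∃ x y : ℝ, x < y ∧
    (a t).re = x - (g y - g x) ∧ (a t).im = g x + (y - x) ∧
    (a t').re = y - (g y - g x) ∧ (a t').im = g y + (y - x) := by
  obtain ⟨t, ht, t', ht', e⟩ := core C
  obtain ⟨x, y, e1, e2⟩ := phi_spec C.bc C.hκ C.hκ1 C.lip C.hL ((a t).re, (a t).im)
  have hxy : x < y := by
    rw [← (above_iff C.bc C.hκ C.hκ1 C.lip C.hL x y).1, ← e1]
    exact C.up t ht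
  rw [mA_above x y hxy.le] at e1
  rw [mB_above x y hxy.le] at e2
  refine ⟨t, ht, t', ht', x, y, hxy, ?_, ?_, ?_, ?_⟩
  · have := congrArg Prod.fst e1
    simp only at this
    linarith
  · have := congrArg Prod.snd e1
    simp only at this
    linarith
  · rw [← e, Phi_apply, e2]
    simp only
    ring
  · rw [← e, Phi_apply, e2]
    simp only
    ring

end Pool.Agent.W675.SqT
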