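import Pool.Agent.W675.SqP
import Pool.Agent.W675.SqF

/-! The final theorem in coordinates (turning condition version). -/

set_option autoImplicit false
open Complex Set Filter Topology MeasureTheory Metric

namespace Pool.Agent.W675.SqT

open Pool.Agent.W675.SqG (Lip Reg cut)

/-- projection to the unit interval -/
noncomputable def cl (x : ℝ) : ℝ := max 0 (min 1 x)

theorem cl_mem (x : ℝ) : cl x ∈ Icc (0:ℝ) 1 :=
  ⟨le_max_left _ _, max_le zero_le_one (min_le_left _ _)⟩

theorem cl_of_le {x : ℝ} (h : x ≤ 0) : cl x = 0 := by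
  unfold cl; rw [min_eq_right (by linarith), max_eq_left h]

theorem cl_of_ge {x : ℝ} (h : 1 ≤ x) : cl x = 1 := by
  unfold cl; rw [min_eq_left h, max_eq_right zero_le_one]

theorem cl_of_mem {x : ℝ} (h0 : 0 ≤ x) (h1 : x ≤ 1) : cl x = x := by
  unfold cl; rw [min_eq_right h1, max_eq_right h0]

theorem cl_mono {x x' : ℝ} (h : x ≤ x') : cl x ≤ cl x' :=
  max_le_max le_rfl (min_le_min le_rfl h)

theorem dec (x : ℝ) : x = min x 0 + cl x + (max x 1 - 1) := by
  rcases le_total x 0 with h | h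
  · rw [cl_of_le h, min_eq_left h, max_eq_right (by linarith)]; ring
  · rcases le_total x 1 with h' | h'
    · rw [cl_of_mem h h', min_eq_right h, max_eq_right h']; ring
    · rw [cl_of_ge h', min_eq_right h, max_eq_left h']; ring

/-- the extension of `g` by rays of slope `1` on the left and `-1` on the right -/
noncomputable def extn2 (g : ℝ → ℝ) (x : ℝ) : ℝ := min x 0 + g (cl x) - (max x 1 - 1)

variable {g : ℝ → ℝ} {κ L : ℝ}

theorem extn2_of_mem {x : ℝ} (hx : x ∈ Icc (0:ℝ) 1) : extn2 g x = g x := by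
  unfold extn2
  rw [cl_of_mem hx.1 hx.2, min_eq_right hx.1, max_eq_right hx.2]; ring

theorem extn2_le (h0 : g 0 = 0) {x : ℝ} (hx : x ≤ 0) : extn2 g x = x := by
  unfold extn2
  rw [cl_of_le hx, min_eq_left hx, max_eq_right (by linarith), h0]; ring

theorem extn2_ge (h1 : g 1 = 0) {x : ℝ} (hx : 1 ≤ x) : extn2 g x = 1 - x := by
  unfold extn2
  rw [cl_of_ge hx, min_eq_right (by linarith), max_eq_left hx, h1]; ring

theorem extn2_lip (hL : 0 ≤ L)
    (h : ∀ x ∈ Icc (0:ℝ) 1, ∀ y ∈ Icc (0:ℝ) 1, |g x - g y| ≤ L * |x - y|) :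
    Lip (L + 1) (extn2 g) := by
  have key : ∀ x x' : ℝ, x ≤ x' → |extn2 g x' - extn2 g x| ≤ (L + 1) * (x' - x) := by
    intro x x' hx
    have k1 := h _ (cl_mem x') _ (cl_mem x)
    rw [abs_of_nonneg (show 0 ≤ cl x' - cl x by linarith [cl_mono hx])] at k1
    have k2 : min x 0 ≤ min x' 0 := min_le_min hx le_rfl
    have k3 : max x 1 ≤ max x' 1 := max_le_max hx le_rfl
    have k4 := dec x
    have k5 := dec x'
    have k6 := cl_mono hx
    have k7 := abs_le.1 k1
    unfold extn2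
    rw [abs_le]
    constructor
    · nlinarith [mul_nonneg hL (sub_nonneg.2 k2), mul_nonneg hL (sub_nonneg.2 k3)]
    · nlinarith [mul_nonneg hL (sub_nonneg.2 k2), mul_nonneg hL (sub_nonneg.2 k3)]
  intro x y
  rcases le_total x y with hxy | hxy
  · rw [abs_sub_comm, abs_sub_comm x y, abs_of_nonneg (by linarith : 0 ≤ y - x)]
    exact key x y hxy
  · rw [abs_of_nonneg (by linarith : 0 ≤ x - y)]
    exact key y x hxy

theorem extn2_bc (hκ1 : κ ≤ 1)
    (h : ∀ x x' y y' : ℝ, 0 ≤ x → x ≤ x' → x' ≤ y → y ≤ y' → y' ≤ 1 →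
      κ * (x' - x) * (y' - y) ≤ (x' - x) * (y' - y) + (g x' - g x) * (g y' - g y)
        + (g x' - g x) * (y' - y) - (x' - x) * (g y' - g y)) : Bc κ (extn2 g) := by
  intro x x' y y' h1 h2 h3
  have dx := dec x
  have dx' := dec x'
  have dy := dec y
  have dy' := dec y'
  have hb := h (cl x) (cl x') (cl y) (cl y') (cl_mem x).1 (cl_mono h1) (cl_mono h2) (cl_mono h3)
    (cl_mem y').2
  have e : ∀ x : ℝ, extn2 g x = min x 0 + g (cl x) - (max x 1 - 1) := fun x => rfl
  rw [e, e, e, e]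
  have ex : x' - x = (min x' 0 - min x 0) + (cl x' - cl x) + (max x' 1 - max x 1) := by linarith
  have ey : y' - y = (min y' 0 - min y 0) + (cl y' - cl y) + (max y' 1 - max y 1) := by linarith
  have p1 : 0 ≤ min x' 0 - min x 0 := sub_nonneg.2 (min_le_min h1 le_rfl)
  have p2 : 0 ≤ cl x' - cl x := sub_nonneg.2 (cl_mono h1)
  have p3 : 0 ≤ max x' 1 - max x 1 := sub_nonneg.2 (max_le_max h1 le_rfl)
  have q1 : 0 ≤ min y' 0 - min y 0 := sub_nonneg.2 (min_le_min h3 le_rfl)
  have q2 : 0 ≤ cl y' - cl y := sub_nonneg.2 (cl_mono h3)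
  have q3 : 0 ≤ max y' 1 - max y 1 := sub_nonneg.2 (max_le_max h3 le_rfl)
  have z : (cl x' - cl x) * (min y' 0 - min y 0) = 0 ∧
      (g (cl x') - g (cl x)) * (min y' 0 - min y 0) = 0 ∧
      (max x' 1 - max x 1) * (min y' 0 - min y 0) = 0 := by
    rcases lt_or_ge y 0 with hy | hy
    · have a1 : cl x' = cl x := by rw [cl_of_le (by linarith), cl_of_le (by linarith)]
      have a2 : max x' 1 = max x 1 := by
        rw [max_eq_right (by linarith), max_eq_right (by linarith)]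
      rw [a1, a2]; simp
    · have a1 : min y' 0 = min y 0 := by rw [min_eq_right (by linarith), min_eq_right hy]
      rw [a1]; simp
  have w : (max x' 1 - max x 1) * (cl y' - cl y) = 0 ∧
      (max x' 1 - max x 1) * (g (cl y') - g (cl y)) = 0 := by
    rcases lt_or_ge 1 x' with hx | hx
    · have a1 : cl y' = cl y := by rw [cl_of_ge (by linarith), cl_of_ge (by linarith)]
      rw [a1]; simp
    · have a1 : max x' 1 = max x 1 := by rw [max_eq_right hx, max_eq_right (by linarith)]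
      rw [a1]; simp
  obtain ⟨z1, z2, z3⟩ := z
  obtain ⟨w1, w2⟩ := w
  set P1 := min x' 0 - min x 0 with hP1
  set P2 := cl x' - cl x with hP2
  set P3 := max x' 1 - max x 1 with hP3
  set Q1 := min y' 0 - min y 0 with hQ1
  set Q2 := cl y' - cl y with hQ2
  set Q3 := max y' 1 - max y 1 with hQ3
  set α := g (cl x') - g (cl x) with hα
  set β := g (cl y') - g (cl y) with hβ
  have eα : min x' 0 + g (cl x') - (max x' 1 - 1) - (min x 0 + g (cl x) - (max x 1 - 1)) =
      P1 + α - P3 := by rw [hP1, hα, hP3]; ring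
  have eβ : min y' 0 + g (cl y') - (max y' 1 - 1) - (min y 0 + g (cl y) - (max y 1 - 1)) =
      Q1 + β - Q3 := by rw [hQ1, hβ, hQ3]; ring
  rw [ex, ey, eα, eβ]
  have hk : 0 ≤ 2 - κ := by linarith
  have m1 := mul_nonneg hk (mul_nonneg p1 q1)
  have m2 := mul_nonneg hk (mul_nonneg p1 q2)
  have m3 := mul_nonneg hk (mul_nonneg p1 q3)
  have m4 := mul_nonneg hk (mul_nonneg p2 q3)
  have m5 := mul_nonneg hk (mul_nonneg p3 q3)
  have r1 : κ * (P1 + P2 + P3) * (Q1 + Q2 + Q3) = κ * (P1 * Q1) + κ * (P1 * Q2) + κ * (P1 * Q3)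
      + κ * (P2 * Q1) + κ * P2 * Q2 + κ * (P2 * Q3) + κ * (P3 * Q1) + κ * (P3 * Q2)
      + κ * (P3 * Q3) := by ring
  have r2 : (P1 + P2 + P3) * (Q1 + Q2 + Q3) + (P1 + α - P3) * (Q1 + β - Q3) +
      (P1 + α - P3) * (Q1 + Q2 + Q3) - (P1 + P2 + P3) * (Q1 + β - Q3) =
      2 * (P1 * Q1) + 2 * (P1 * Q2) + 2 * (P1 * Q3) + 2 * (α * Q1)
      + (P2 * Q2 + α * β + α * Q2 - P2 * β) + 2 * (P2 * Q3) - 2 * (P3 * Q1) - 2 * (P3 * β)
      + 2 * (P3 * Q3) := by ring
  rw [r1, r2, z1, z2, z3, w1, w2]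
  linarith

theorem turn_main {f : ℝ → ℂ} {u : ℝ} (hu0 : 0 < u) (hu1 : u < 1) (hf : ContinuousOn f (Icc u 1))
    (hi : InjOn f (Icc u 1)) (hP : f 1 = 0) (hQ : f u = 1) {M : ℝ}
    (hL : 0 ≤ L) (hκ : 0 < κ) (hκ1 : κ ≤ 1)
    (hlip : ∀ x ∈ Icc (0:ℝ) 1, ∀ y ∈ Icc (0:ℝ) 1, |g x - g y| ≤ L * |x - y|)
    (hbc : ∀ x x' y y' : ℝ, 0 ≤ x → x ≤ x' → x' ≤ y → y ≤ y' → y' ≤ 1 →
      κ * (x' - x) * (y' - y) ≤ (x' - x) * (y' - y) + (g x' - g x) * (g y' - g y)
        + (g x' - g x) * (y' - y) - (x' - x) * (g y' - g y))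
    (hM : 0 ≤ M) (hgM : ∀ x ∈ Icc (0:ℝ) 1, g x ≤ M) (hg0 : g 0 = 0) (hg1 : g 1 = 0)
    (hoff : ∀ t ∈ Ioo u 1, ∀ x ∈ Icc (0:ℝ) 1, f t ≠ ⟨x, g x⟩)
    (h1 : ∀ t ∈ Icc u 1, (∀ s ∈ Icc u t, (f s).im < 1 + M) → Reg g (f t))
    (h2 : ∀ t ∈ Icc u 1, (∀ s ∈ Icc t 1, (f s).im < 1 + M) → Reg g (f t)) :
    ∃ x y : ℝ, 0 ≤ x ∧ x < y ∧ y ≤ 1 ∧
      (⟨x - (g y - g x), g x + (y - x)⟩ : ℂ) ∈ f '' Icc u 1 ∧
      (⟨y - (g y - g x), g y + (y - x)⟩ : ℂ) ∈ f '' Icc u 1 := by
  obtain ⟨b, hbc', hbi, hbu, hb1, hb⟩ := cut hf hi hM hgM hg0 hg1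
    (by rw [hQ]; simp; linarith) (by rw [hP]; simp; linarith) h1 h2
  have hlip' := extn2_lip hL hlip
  have hB := extn2_bc hκ1 hbc
  set gg := extn2 g with hgg
  have hneg : ∀ x ≤ 0, gg x = x := fun x hx => extn2_le hg0 hx
  have hpos : ∀ x, 1 ≤ x → gg x = 1 - x := fun x hx => extn2_ge hg1 hx
  have hmem : ∀ x ∈ Icc (0:ℝ) 1, gg x = g x := fun x hx => extn2_of_mem hx
  have hgc : Continuous gg := hlip'.cont (by linarith)
  -- the parametrisation by `[0, 1]`
  have hu' : 0 < 1 - u := by linarith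
  have hpar : ∀ τ ∈ Icc (0:ℝ) 1, 1 - τ * (1 - u) ∈ Icc u 1 := by
    intro τ hτ
    constructor
    · nlinarith [hτ.2]
    · nlinarith [hτ.1]
  have hpar' : ∀ τ ∈ Ioo (0:ℝ) 1, 1 - τ * (1 - u) ∈ Ioo u 1 := by
    intro τ hτ
    constructor
    · nlinarith [hτ.2]
    · nlinarith [hτ.1]
  have C : Cfg κ (L + 1) gg (fun τ => b (1 - τ * (1 - u))) := by
    refine ⟨hlip', by linarith, hB, hκ, hκ1, ?_, ?_, ?_, ?_, ?_⟩
    · exact hbc'.comp (by fun_prop) hpar
    · intro s hs t ht e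
      have := hbi (hpar s hs) (hpar t ht) e
      have h3 : s * (1 - u) = t * (1 - u) := by linarith
      exact mul_right_cancel₀ hu'.ne' h3
    · simp only [zero_mul, sub_zero]
      rw [hb1, hP, hneg 0 le_rfl]
      rfl
    · simp only [one_mul, sub_sub_cancel]
      rw [hbu, hQ, hpos 1 le_rfl, sub_self]
      rfl
    · intro τ hτ
      have ht := hpar' τ hτ
      set t := 1 - τ * (1 - u) with htd
      change gg (b t).re < (b t).im
      obtain ⟨hR, hc⟩ := hb t ⟨ht.1.le, ht.2.le⟩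
      rcases hc with ⟨-, hc⟩ | ⟨hc1, hc2, hc3⟩
      · rcases hc with hc | hc | hc
        · by_cases hx : (b t).re ∈ Icc (0:ℝ) 1
          · rw [hmem _ hx]
            apply lt_of_le_of_ne (hR.1 hx.1 hx.2)
            intro he
            obtain ⟨s, hs, hsb⟩ := hc
            apply hoff s hs _ hx
            rw [hsb]
            exact Complex.ext rfl he.symm
          · rw [mem_Icc, not_and_or, not_le, not_le] at hx
            rcases hx with hx | hx
            · rw [hneg _ hx.le]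
              by_contra hh
              have := (hR.2.1 (by linarith [not_lt.1 hh])).1
              linarith
            · rw [hpos _ hx.le]
              by_contra hh
              have := (hR.2.1 (by linarith [not_lt.1 hh])).2
              linarith
        · exact absurd hc ht.1.ne'
        · exact absurd hc ht.2.ne
      · rw [hmem _ ⟨hc2.le, hc3.le⟩, hc1]
        linarith [hgM _ ⟨hc2.le, hc3.le⟩]
  obtain ⟨τ, hτ, τ', hτ', x, y, hxy, e1, e2, e3, e4⟩ := core' C
  have ht := hpar' τ hτ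
  have ht' := hpar' τ' hτ'
  set t := 1 - τ * (1 - u) with htd
  set t' := 1 - τ' * (1 - u) with htd'
  change (b t).re = _ at e1
  change (b t).im = _ at e2
  change (b t').re = _ at e3
  change (b t').im = _ at e4
  obtain ⟨hR, hc⟩ := hb t ⟨ht.1.le, ht.2.le⟩
  obtain ⟨hR', hc'⟩ := hb t' ⟨ht'.1.le, ht'.2.le⟩
  -- monotonicity of the two functions
  set Y := (b t).im with hYd
  set Y' := (b t').im with hYd'
  have eF : ∀ s : ℝ, Fn gg Y s = s + gg s - gg (max s (s - gg s + Y)) := fun s => rfl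
  have Fx : Fn gg Y x = (b t).re := by
    rw [eF, e2, show x - gg x + (gg x + (y - x)) = y by ring, max_eq_right hxy.le, e1]
    ring
  have F0 : Fn gg Y 0 = -gg (max 0 Y) := by
    rw [eF, hneg 0 le_rfl, show (0:ℝ) - 0 + Y = Y by ring]; ring
  have Hy : y - gg y + gg (min y (y + gg y - Y')) = (b t').re := by
    rw [e4, show y + gg y - (gg y + (y - x)) = x by ring, min_eq_right hxy.le, e3]
    ring
  have H1 : (1:ℝ) - gg 1 + gg (min 1 (1 + gg 1 - Y')) = 1 + gg (min 1 (1 - Y')) := by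
    rw [hpos 1 le_rfl]; ring_nf
  have Fmono : ∀ s s' : ℝ, s ≤ s' → κ * (s' - s) ≤ Fn gg Y s' - Fn gg Y s :=
    fun s s' h => Fn_exp hB hκ1 hgc Y h
  have Hmono := fun (m m' : ℝ) (h : m ≤ m') => Hn_exp hB hκ1 hgc Y' h
  -- lower bound for the first coordinate of the upper left vertex
  have hx : 0 ≤ x := by
    by_contra hx
    push Not at hx
    have k := Fmono x 0 hx.le
    rw [Fx, F0] at k
    have k' : 0 < κ * (0 - x) := mul_pos hκ (by linarith)
    rcases lt_or_ge Y 0 with hY | hY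
    · rw [max_eq_left hY.le, hneg 0 le_rfl] at k
      have := (hR.2.1 hY).1
      linarith
    · rw [max_eq_right hY] at k
      rcases le_or_gt Y 1 with hY1 | hY1
      · rw [hmem _ ⟨hY, hY1⟩] at k
        have := (hR.2.2.1 hY hY1).1
        linarith
      · have r0 := (hR.2.2.2 hY1.le).1
        have egx := hneg x hx.le
        rw [egx] at e2 e1 e3
        have r1 : 1 < (b t').re := by linarith
        rcases lt_or_ge Y' 0 with hY' | hY'
        · linarith [(hR'.2.1 hY').2]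
        · rcases le_or_gt 1 Y' with hY1' | hY1'
          · linarith [(hR'.2.2.2 hY1').2]
          · have r2 := (hR'.2.2.1 hY' hY1'.le).2
            have r3 : y ≤ 1 := by
              by_contra hy
              push Not at hy
              have k2 := Hmono 1 y hy.le
              rw [Hy, H1, min_eq_right (by linarith : 1 - Y' ≤ 1),
                hmem _ ⟨by linarith, by linarith⟩] at k2
              have := mul_pos hκ (by linarith : 0 < y - 1)
              linarith
            linarith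
  have hy : y ≤ 1 := by
    by_contra hy
    push Not at hy
    have k := Hmono 1 y hy.le
    rw [Hy, H1] at k
    have k' : 0 < κ * (y - 1) := mul_pos hκ (by linarith)
    rcases lt_or_ge Y' 0 with hY | hY
    · rw [min_eq_left (by linarith), hpos 1 le_rfl] at k
      have := (hR'.2.1 hY).2
      linarith
    · rw [min_eq_right (by linarith)] at k
      rcases le_or_gt Y' 1 with hY1 | hY1
      · rw [hmem _ ⟨by linarith, by linarith⟩] at k
        have := (hR'.2.2.1 hY hY1).2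
        linarith
      · have egy := hpos y hy.le
        rw [egy] at e4
        linarith
  have hxm := hmem x ⟨hx, by linarith⟩
  have hym := hmem y ⟨by linarith, hy⟩
  rw [hxm, hym] at e1 e3
  rw [hxm] at e2
  rw [hym] at e4
  have hgx := hgM x ⟨hx, by linarith⟩
  have hgy := hgM y ⟨by linarith, hy⟩
  refine ⟨x, y, hx, hxy, hy, ?_, ?_⟩
  · rcases hc with ⟨⟨s, hs, hsb⟩, -⟩ | ⟨hc1, hc2, hc3⟩
    · exact ⟨s, hs, hsb.trans (Complex.ext e1 e2)⟩
    · exfalso
      have x0 : x = 0 := by linarith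
      have y1 : y = 1 := by linarith
      rw [e1, x0, y1, hg0, hg1] at hc2
      simp at hc2
  · rcases hc' with ⟨⟨s, hs, hsb⟩, -⟩ | ⟨hc1, hc2, hc3⟩
    · exact ⟨s, hs, hsb.trans (Complex.ext e3 e4)⟩
    · exfalso
      have x0 : x = 0 := by linarith
      have y1 : y = 1 := by linarith
      rw [e3, x0, y1, hg0, hg1] at hc3
      simp at hc3

end Pool.Agent.W675.SqT
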